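import Pool.Agent.SqrtFrob.Final

set_option autoImplicit false

/-!
The sparse expansion `10^n √2 ≈ F_n`, with a `9` carried over.
-/

open Finset PowerSeries Sqrt2Digits SqrtFrob

namespace DChg

/-- The indicator of the digit `9`. -/
noncomputable def en (n : ℕ) : ℤ := if digit n = 9 then 1 else 0

/-- The sparse digits. -/
noncomputable def fs (n : ℕ) : ℤ := (digit n : ℤ) - 9 * en n + (en (n + 1) - en n)

lemma digit_zero : digit 0 = 1 := by
  have h := pre_digit 0
  simp only [pre] at h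
  have h1 : ⌊Real.sqrt 2 * 10 ^ 0⌋₊ = 1 := by
    rw [pow_zero, mul_one, Nat.floor_eq_iff (by positivity)]
    have := sqrt_bounds
    constructor
    · push_cast; linarith
    · push_cast; linarith
  rw [h1] at h
  exact_mod_cast h

lemma en_zero : en 0 = 0 := by
  unfold en
  rw [digit_zero, if_neg (by norm_num)]

lemma pre_fs (n : ℕ) : pre fs n = pre (fun k => (digit k : ℤ)) n + en (n + 1) := by
  induction n with
  | zero =>
    simp only [pre, fs, en_zero]
    ring
  | succ n ih =>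
    rw [pre, ih, pre]
    simp only [fs]
    ring

lemma en_cases (n : ℕ) : (en n = 1 ∧ digit n = 9) ∨ (en n = 0 ∧ digit n ≠ 9) := by
  unfold en
  by_cases h : digit n = 9
  · left; rw [if_pos h]; exact ⟨rfl, h⟩
  · right; rw [if_neg h]; exact ⟨rfl, h⟩

lemma abs_fs_le (n : ℕ) : |fs n| ≤ 9 := by
  unfold fs
  have h0 := digit_le n
  rw [abs_le]
  rcases en_cases n with ⟨h1, h2⟩ | ⟨h1, h2⟩ <;> rcases en_cases (n + 1) with ⟨h3, h4⟩ | ⟨h3, h4⟩ <;>
    rw [h1, h3] <;> constructor <;> omega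

/-- If `f_n ≠ 0` and `d_n` is `0` or `9`, then the next digit is different. -/
lemma fs_ne (n : ℕ) (h : fs n ≠ 0) (hd : digit n = 0 ∨ digit n = 9) : digit (n + 1) ≠ digit n := by
  intro heq
  apply h
  unfold fs
  rcases en_cases n with ⟨h1, h2⟩ | ⟨h1, h2⟩ <;> rcases en_cases (n + 1) with ⟨h3, h4⟩ | ⟨h3, h4⟩ <;>
    rw [h1, h3] <;> omega

lemma tau_fs_le (N : ℕ) : |10 ^ N * Real.sqrt 2 - pre fs N| ≤ 1 := by
  rw [pre_fs, pre_digit]
  obtain ⟨h1, h2⟩ := tail_bounds N
  rw [abs_le]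
  push_cast
  rcases en_cases (N + 1) with ⟨h3, h4⟩ | ⟨h3, h4⟩ <;> rw [h3] <;> push_cast <;>
    constructor <;> linarith

lemma rel_two : (((1 : ℤ) : ℝ)) * Real.sqrt 2 ^ 2 + ((0 : ℤ) : ℝ) * Real.sqrt 2 = ((2 : ℤ) : ℝ) := by
  rw [sqrt_sq]; push_cast; ring

/-! ### Power series -/

lemma uu_mul_pre (c : ℕ → ℤ) : uu * PowerSeries.mk (pre c) = PowerSeries.mk c := by
  ext n
  cases n with
  | zero => rw [coeff_uu_mul_zero]; simp [pre]
  | succ n =>
    rw [coeff_uu_mul_succ]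
    simp only [coeff_mk, pre]
    ring

lemma mk_mul_pre (c : ℕ → ℤ) : PowerSeries.mk c * PowerSeries.mk (pre c) = PowerSeries.mk (conv c) := by
  ext n
  rw [coeff_mul, coeff_mk, Finset.Nat.sum_antidiagonal_eq_sum_range_succ_mk]
  simp [conv]

lemma uu_mul_TT (a₂ a₀ : ℤ) (c : ℕ → ℤ) :
    uu * PowerSeries.mk (TT a₂ 0 a₀ c) = C a₀ - C a₂ * PowerSeries.mk c ^ 2 := by
  have h : PowerSeries.mk (TT a₂ 0 a₀ c) = C a₀ * PowerSeries.mk (fun n => (10 : ℤ) ^ n)
      - C a₂ * (PowerSeries.mk c * PowerSeries.mk (pre c)) := by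
    rw [mk_mul_pre]
    ext n
    rw [map_sub, coeff_C_mul, coeff_C_mul]
    simp only [TT, coeff_mk]
    ring
  have h1 : uu * PowerSeries.mk (TT a₂ 0 a₀ c)
      = C a₀ * (uu * PowerSeries.mk (fun n => (10 : ℤ) ^ n))
      - C a₂ * (PowerSeries.mk c * (uu * PowerSeries.mk (pre c))) := by
    rw [h]; ring
  rw [h1, uu_mul_ten, uu_mul_pre]
  ring

lemma z10 : ((-10 : ℤ) : ZMod 3) = -1 := by decide

lemma z2 : ((2 : ℤ) : ZMod 3) = -1 := by decide

lemma z3 : (3 : PowerSeries (ZMod 3)) = 0 := by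
  have h5 : (3 : PowerSeries (ZMod 3)) = C (3 : ZMod 3) := (map_ofNat C 3).symm
  have h6 : (3 : ZMod 3) = 0 := by decide
  rw [h5, h6, map_zero]

/-- The Frobenius identity modulo `3`. -/
lemma frob3 {c C' T : PowerSeries ℤ} (hc : uu * C' = c) (hT : uu * T = C 2 - C 1 * c ^ 2) (n : ℕ) :
    ((coeff n (T * c) : ℤ) : ZMod 3)
      = - ((coeff n C' : ℤ) : ZMod 3) - ((coeff (n / 3) C' : ℤ) : ZMod 3) := by
  have : Fact (Nat.Prime 3) := ⟨Nat.prime_three⟩
  have hu : red 3 uu = 1 - X := by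
    ext k
    rw [coeff_red]
    unfold uu
    rw [map_sub, map_sub, coeff_C_mul]
    simp only [coeff_one, coeff_X]
    split_ifs
    · omega
    · simp
    · simp only [mul_one, zero_sub]
      exact z10
    · simp
  have hu0 : red 3 uu ≠ 0 := by
    intro h0
    have := congrArg (coeff 0) h0
    rw [hu] at this
    simp at this
  have hc' : red 3 c = red 3 uu * red 3 C' := by rw [← hc, map_mul]
  have h2 : red 3 (C 2) = -1 := by
    ext k
    rw [coeff_red, coeff_C, map_neg, coeff_one]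
    split_ifs
    · exact z2
    · simp
  have hkey : red 3 (T * c) = - red 3 C' - (1 + X + X ^ 2) * red 3 C' ^ 3 := by
    apply mul_left_cancel₀ hu0
    have h1 := congrArg (red 3) hT
    rw [map_mul, map_sub, map_mul, map_one, map_one, one_mul, map_pow, h2] at h1
    have h3 : red 3 uu * red 3 (T * c) = (red 3 uu * red 3 T) * red 3 c := by rw [map_mul]; ring
    rw [h3, h1, hc', hu]
    have h4 := z3
    linear_combination X * (1 - X) * red 3 C' ^ 3 * h4
  have hexp : red 3 C' ^ 3 = PowerSeries.expand 3 (by norm_num) (red 3 C') := (expand_eq_pow _).symm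
  rw [← coeff_red, hkey, hexp, map_sub, map_neg, coeff_red]
  congr 1
  set ψ := PowerSeries.expand 3 (by norm_num) (red 3 C') with hψ
  have hcoef0 : ∀ k, coeff (3 * k) ψ = ((coeff k C' : ℤ) : ZMod 3) := by
    intro k
    rw [hψ, coeff_expand_mul, coeff_red]
  have hcoef1 : ∀ k, ¬ 3 ∣ k → coeff k ψ = 0 := by
    intro k hk
    rw [hψ, coeff_expand_of_not_dvd _ _ _ hk]
  have hsum : (1 + X + X ^ 2) * ψ = ψ + X ^ 1 * ψ + X ^ 2 * ψ := by ring
  rw [hsum, map_add, map_add, coeff_X_pow_mul', coeff_X_pow_mul']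
  obtain ⟨q, r, hr, rfl⟩ : ∃ q r, r < 3 ∧ n = 3 * q + r := ⟨n / 3, n % 3, Nat.mod_lt _ (by norm_num),
    (Nat.div_add_mod n 3).symm⟩
  have hq : (3 * q + r) / 3 = q := by omega
  rw [hq]
  interval_cases r
  · rw [add_zero, hcoef0]
    have h1 : (if 1 ≤ 3 * q then coeff (3 * q - 1) ψ else 0) = 0 := by
      split_ifs with h
      · exact hcoef1 _ (by omega)
      · rfl
    have h2 : (if 2 ≤ 3 * q then coeff (3 * q - 2) ψ else 0) = 0 := by
      split_ifs with h
      · exact hcoef1 _ (by omega)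
      · rfl
    rw [h1, h2, add_zero, add_zero]
  · have h1 : coeff (3 * q + 1) ψ = 0 := hcoef1 _ (by omega)
    have h2 : (if 2 ≤ 3 * q + 1 then coeff (3 * q + 1 - 2) ψ else 0) = 0 := by
      split_ifs with h
      · exact hcoef1 _ (by omega)
      · rfl
    rw [h1, if_pos (by omega), h2, Nat.add_sub_cancel, hcoef0, zero_add, add_zero]
  · have h1 : coeff (3 * q + 2) ψ = 0 := hcoef1 _ (by omega)
    have h2 : coeff (3 * q + 2 - 1) ψ = 0 := hcoef1 _ (by omega)
    rw [h1, if_pos (by omega), h2, if_pos (by omega), Nat.add_sub_cancel, hcoef0, zero_add, zero_add]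

/-- The series of `f`. -/
noncomputable def cf : PowerSeries ℤ := PowerSeries.mk fs

/-- The series of `T`. -/
noncomputable def Tf : PowerSeries ℤ := PowerSeries.mk (TT 1 0 2 fs)

lemma cnt_cf (N : ℕ) : cnt cf N = lam fs N := by
  unfold cnt lam
  simp [cf]

lemma cnt_Tf (N : ℕ) : (cnt Tf N : ℝ) ≤ 33 * ((lam fs N : ℝ) + 1) ^ 2 := by
  have h1 := sum_TT_le (η := Real.sqrt 2) (τ := fun N => 10 ^ N * Real.sqrt 2 - pre fs N) (D := 1)
    (fun N => rfl) tau_fs_le abs_fs_le rel_two N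
  have h2 : (cnt Tf N : ℝ) ≤ ∑ R ∈ range N, |(TT 1 0 2 fs R : ℝ)| := by
    have h3 : cnt Tf N = ((range N).filter (fun R => TT 1 0 2 fs R ≠ 0)).card := by
      unfold cnt
      simp [Tf]
    rw [h3]
    calc (((range N).filter (fun R => TT 1 0 2 fs R ≠ 0)).card : ℝ)
        = ∑ R ∈ (range N).filter (fun R => TT 1 0 2 fs R ≠ 0), (1 : ℝ) := by simp
      _ ≤ ∑ R ∈ (range N).filter (fun R => TT 1 0 2 fs R ≠ 0), |(TT 1 0 2 fs R : ℝ)| := by
          refine sum_le_sum fun R hR => ?_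
          have := Int.one_le_abs (mem_filter.1 hR).2
          exact_mod_cast this
      _ ≤ _ := sum_le_sum_of_subset_of_nonneg (filter_subset _ _) fun _ _ _ => abs_nonneg _
  have h3 := sqrt_bounds
  have h4 : |Real.sqrt 2| = Real.sqrt 2 := abs_of_pos (by linarith)
  rw [h4] at h1
  push_cast at h1
  rw [abs_one, abs_zero, one_mul, add_zero] at h1
  have hl0 : (0 : ℝ) ≤ lam fs N := by positivity
  nlinarith

end DChg
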