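import Pool.Agent.DChg.Pick

set_option autoImplicit false

/-!
Comparison of the numbers of essential jumps at different resolutions.
-/

open Finset

namespace DChg

variable {G : ℤ → ZMod 3} {N t : ℤ} {E : ℕ}

lemma refine_jump {t' u : ℤ} (ht : 1 ≤ t) (htt : t ≤ t') (hu : u ∈ V G N t') :
    ∃ v ∈ V G N t, prd G N t' u < v ∧ v ≤ u := by
  have hJ := isJ_prd hu
  obtain ⟨p, v, h1, h2, h3⟩ := change (hJ.1.mono ht htt) (hJ.2.1.mono ht htt) hJ.lt.le hJ.ne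
  have := h1.lt
  exact ⟨v, mem_V.2 ⟨p, h1⟩, by omega, h3⟩

lemma prd_ge {c₀ u : ℤ} (hc₀ : Pt G N t c₀) (hu : u ∈ V G N t) (hcu : c₀ < u) :
    c₀ ≤ prd G N t u := by
  by_contra hcon
  push Not at hcon
  exact (isJ_prd hu).2.2.2.2 c₀ hcon hcu hc₀

lemma refine_map {t' c₀ A : ℤ} (ht : 1 ≤ t) (htt : t ≤ t') (hc₀ : Pt G N t' c₀) :
    ∃ φ : ℤ → ℤ, (∀ u ∈ (V G N t').filter (fun u => c₀ < u ∧ u ≤ A),
      φ u ∈ (V G N t).filter (fun u => c₀ < u ∧ u ≤ A) ∧ prd G N t' u < φ u ∧ φ u ≤ u) ∧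
      Set.InjOn φ ((V G N t').filter (fun u => c₀ < u ∧ u ≤ A) : Set ℤ) := by
  classical
  have hch : ∀ u ∈ (V G N t').filter (fun u => c₀ < u ∧ u ≤ A), ∃ v,
      v ∈ (V G N t).filter (fun u => c₀ < u ∧ u ≤ A) ∧ prd G N t' u < v ∧ v ≤ u := by
    intro u hu
    rw [mem_filter] at hu
    obtain ⟨v, h1, h2, h3⟩ := refine_jump ht htt hu.1
    have h4 := prd_ge hc₀ hu.1 hu.2.1
    exact ⟨v, by rw [mem_filter]; exact ⟨h1, by omega, by omega⟩, h2, h3⟩
  choose! φ hφ1 hφ2 using hch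
  refine ⟨φ, fun u hu => ⟨hφ1 u hu, hφ2 u hu⟩, ?_⟩
  intro a ha b hb hab
  rw [mem_coe] at ha hb
  have h1 := hφ2 a ha
  have h2 := hφ2 b hb
  rw [mem_filter] at ha hb
  rcases lt_trichotomy a b with h | h | h
  · have := (isJ_prd ha.1).sep (isJ_prd hb.1) h; omega
  · exact h
  · have := (isJ_prd hb.1).sep (isJ_prd ha.1) h; omega

lemma cnt_mono {t' c₀ A : ℤ} (ht : 1 ≤ t) (htt : t ≤ t') (hc₀ : Pt G N t' c₀) :
    cntV G N t' c₀ A ≤ cntV G N t c₀ A := by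
  classical
  obtain ⟨φ, h1, h2⟩ := refine_map (G := G) (N := N) (A := A) ht htt hc₀
  unfold cntV
  exact card_le_card_of_injOn φ (fun u hu => (h1 u hu).1) h2

lemma isolated {t' c₀ A : ℤ} (ht : 1 ≤ t) (htt : t ≤ t') (hc₀ : Pt G N t' c₀)
    (heq : cntV G N t c₀ A ≤ cntV G N t' c₀ A) {q₁ q₂ : ℤ} (hq₁ : q₁ ∈ V G N t)
    (hq₁' : c₀ < q₁ ∧ q₁ ≤ A) (hq₂ : q₂ ∈ V G N t) (hq₂' : c₀ < q₂ ∧ q₂ ≤ A) (hlt : q₁ < q₂) :
    t' ≤ q₂ - q₁ := by
  classical
  obtain ⟨φ, h1, h2⟩ := refine_map (G := G) (N := N) (A := A) ht htt hc₀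
  unfold cntV at heq
  have hsurj : Set.SurjOn φ ((V G N t').filter (fun u => c₀ < u ∧ u ≤ A) : Set ℤ)
      ((V G N t).filter (fun u => c₀ < u ∧ u ≤ A) : Set ℤ) :=
    surjOn_of_injOn_of_card_le φ (fun u hu => (h1 u hu).1) h2 heq
  obtain ⟨u₁, hu₁, e₁⟩ := hsurj (by rw [mem_coe, mem_filter]; exact ⟨hq₁, hq₁'⟩)
  obtain ⟨u₂, hu₂, e₂⟩ := hsurj (by rw [mem_coe, mem_filter]; exact ⟨hq₂, hq₂'⟩)
  rw [mem_coe] at hu₁ hu₂
  have g1 := (h1 u₁ hu₁).2
  have g2 := (h1 u₂ hu₂).2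
  rw [mem_filter] at hu₁ hu₂
  rw [e₁] at g1
  rw [e₂] at g2
  rcases lt_trichotomy u₁ u₂ with h | h | h
  · have := (isJ_prd hu₁.1).sep (isJ_prd hu₂.1) h; omega
  · exfalso
    rw [← e₁, ← e₂, h] at hlt
    exact lt_irrefl _ hlt
  · have := (isJ_prd hu₂.1).sep (isJ_prd hu₁.1) h; omega

/-- A place far from all jumps. -/
lemma exists_const (hJ : (Jset G N).card ≤ E) {a l R : ℤ} (hR : 0 ≤ R) (ha : R ≤ a + 1)
    (hl : E * (2 * R) < l) (hN : a + l + R ≤ N) :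
    ∃ c, a ≤ c ∧ c < a + l ∧ ∀ k, c - R ≤ k → k ≤ c + R → G k = G c := by
  classical
  have hl0 : 0 ≤ l := le_trans (by positivity) hl.le
  set bad := (Jset G N).biUnion (fun s => Ico (s - R) (s + R)) with hbad
  have h1 : (bad.card : ℤ) ≤ E * (2 * R) := by
    have h2 : bad.card ≤ E * (2 * R).toNat := by
      rw [hbad]
      refine card_biUnion_le.trans ?_
      have h3 : ∀ s ∈ Jset G N, (Ico (s - R) (s + R)).card ≤ (2 * R).toNat := by
        intro s _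
        rw [Int.card_Ico]; omega
      refine (sum_le_sum h3).trans ?_
      rw [sum_const, smul_eq_mul]
      exact Nat.mul_le_mul_right _ hJ
    have h3 : ((E * (2 * R).toNat : ℕ) : ℤ) = E * (2 * R) := by
      push_cast
      rw [Int.toNat_of_nonneg (by omega)]
    rw [← h3]
    exact_mod_cast h2
  have h2 : ((Ico a (a + l)).card : ℤ) = l := by
    rw [Int.card_Ico, Int.toNat_of_nonneg] <;> linarith
  have h3 : ¬ (Ico a (a + l) ⊆ bad) := by
    intro hsub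
    have h4 := card_le_card hsub
    have h5 : ((Ico a (a + l)).card : ℤ) ≤ bad.card := by exact_mod_cast h4
    rw [h2] at h5
    linarith
  rw [not_subset] at h3
  obtain ⟨c, hc1, hc2⟩ := h3
  rw [mem_Ico] at hc1
  have hno : ∀ s ∈ Jset G N, ¬ (c - R < s ∧ s ≤ c + R) := by
    intro s hs h
    apply hc2
    rw [hbad, mem_biUnion]
    exact ⟨s, hs, by rw [mem_Ico]; omega⟩
  refine ⟨c, hc1.1, hc1.2, fun k hk1 hk2 => ?_⟩
  by_contra hne
  rcases le_total k c with h4 | h4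
  · obtain ⟨s, hs1, hs2, hs3⟩ := exists_jump (G := G) (N := N) (by omega) (by omega) h4 hne
    exact hno s hs1 (by omega)
  · obtain ⟨s, hs1, hs2, hs3⟩ := exists_jump (G := G) (N := N) (by omega) (by omega) h4
      (fun h => hne h.symm)
    exact hno s hs1 (by omega)

open Classical in
/-- Scaling the essential jumps down. -/
lemma down_count (hZ : (Zset G N).card ≤ E) (ht : 1 ≤ t) (j : ℕ) {t' l c₀ A R : ℤ}
    (ht' : 1 ≤ t') (hl : 2 * l ≤ t') (hl2 : 3 ^ j * (((E : ℤ) * j + 1) * t + 2) ≤ l)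
    (hc₀ : 0 ≤ c₀) (hR : 2 * t' ≤ R) (hcR : ∀ k, c₀ - R ≤ k → k ≤ c₀ + R → G k = G c₀)
    (hRN : c₀ + R ≤ N) (hAN : A + l ≤ N) :
    cntV G N t' c₀ A ≤ ((V G N t).filter (fun v => c₀ < 3 ^ j * v ∧ 3 ^ j * v ≤ A + l)).card := by
  have hl0 : 0 ≤ l := le_trans (by positivity) hl2
  have hpt : Pt G N t' (c₀ + l) := by
    refine ⟨c₀ + l, by omega, le_rfl, by omega, by omega, fun k hk1 hk2 => ?_⟩
    rw [hcR k (by omega) (by omega), hcR (c₀ + l) (by omega) (by omega)]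
  have hkey : ∀ u ∈ V G N t', c₀ < u → c₀ + l ≤ prd G N t' u := by
    intro u hu hcu
    apply prd_ge hpt hu
    by_contra hcon
    push Not at hcon
    have h1 := V_jump hu ht'
    unfold Jset at h1
    rw [mem_filter] at h1
    apply h1.2
    rw [hcR u (by omega) (by omega), hcR (u - 1) (by omega) (by omega)]
  have hch : ∀ u ∈ (V G N t').filter (fun u => c₀ < u ∧ u ≤ A), ∃ v ∈ V G N t,
      prd G N t' u - l + 1 < 3 ^ j * v ∧ 3 ^ j * v < u + l := by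
    intro u hu
    rw [mem_filter] at hu
    exact down_jump hZ ht j ((isJ_prd hu.1).jd (by omega)) (by omega) hl2
  choose! φ hφ1 hφ2 using hch
  have h3 : (0 : ℤ) < 3 ^ j := by positivity
  unfold cntV
  refine card_le_card_of_injOn φ ?_ ?_
  · intro u hu
    rw [mem_coe] at hu
    have h1 := hφ1 u hu
    have h2 := hφ2 u hu
    rw [mem_filter] at hu
    have h4 := hkey u hu.1 hu.2.1
    rw [mem_coe, mem_filter]
    exact ⟨h1, by omega, by omega⟩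
  · intro a ha b hb hab
    rw [mem_coe] at ha hb
    have h1 := hφ2 a ha
    have h2 := hφ2 b hb
    rw [mem_filter] at ha hb
    rw [hab] at h1
    rcases lt_trichotomy a b with h | h | h
    · have := (isJ_prd ha.1).sep (isJ_prd hb.1) h; omega
    · exact h
    · have := (isJ_prd hb.1).sep (isJ_prd ha.1) h; omega

end DChg
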