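import Pool.Agent.DChg.Rec

set_option autoImplicit false

/-!
The combinatorial theorem.
-/

open Finset

namespace DChg

variable {G : ℤ → ZMod 3} {N D : ℤ} {E h K : ℕ}

lemma exists_par (hyp : Hyp G N E) (hE : 1 ≤ E) (hNE : N ≤ 3 ^ E) (hD : 2 * E + 1 ≤ D)
    (hh : 1000 * (E : ℤ) ^ 4 ≤ 3 ^ h) (hK : 1 ≤ K) (hXN : 27 * (3 ^ (h * K) * D) ≤ N) :
    ∃ c₀, Par G N D c₀ E h K := by
  have hE1 : (1 : ℤ) ≤ E := by exact_mod_cast hE
  have hJ : (Jset G N).card ≤ E := hyp.jmp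
  have hX0 : thr h K D 0 = 3 ^ (h * K) * D := by unfold thr; rw [Nat.sub_zero]
  set X := thr h K D 0 with hX
  set t := thr h K D 1 with ht
  have hXt : X = 3 ^ h * t := by
    have := thr_zero (h := h) (D := D) (k := 1) hK
    rwa [mul_one] at this
  have htD : D ≤ t := by
    rw [ht]; unfold thr
    have h1 : (1 : ℤ) ≤ 3 ^ (h * (K - 1)) := one_le_pow₀ (by norm_num)
    nlinarith
  obtain ⟨g1, g2, g3, g4, g5⟩ := pow_ineq hE1 (t := t) (by omega)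
  have hX4 : 1000 * (E ^ 4 * t) ≤ X := by
    rw [hXt]
    calc 1000 * ((E : ℤ) ^ 4 * t) = (1000 * (E : ℤ) ^ 4) * t := by ring
      _ ≤ 3 ^ h * t := mul_le_mul_of_nonneg_right hh (by omega)
  -- quotients
  set Q₁ := X / (60 * E) with hQ₁
  set Q₂ := X / (30 * E) with hQ₂
  have h60 : (0 : ℤ) < 60 * E := by omega
  have h30 : (0 : ℤ) < 30 * E := by omega
  have hQ1a : 60 * E * Q₁ ≤ X := Int.mul_ediv_self_le h60.ne'
  have hQ1b : X < 60 * E * Q₁ + 60 * E := Int.lt_mul_ediv_self_add h60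
  have hQ2a : 30 * E * Q₂ ≤ X := Int.mul_ediv_self_le h30.ne'
  have hQ2b : X < 30 * E * Q₂ + 30 * E := Int.lt_mul_ediv_self_add h30
  have hEt4 : (E : ℤ) * (E * t) = E ^ 2 * t := by ring
  have hQ12 : 2 * Q₁ ≤ Q₂ := by
    have h1 : 30 * (E : ℤ) * (2 * Q₁) < 30 * E * (Q₂ + 1) := by nlinarith
    have := lt_of_mul_lt_mul_left h1 h30.le
    omega
  have hQ1t : 10 * (E * t) ≤ Q₁ := by
    have h1 : 60 * (E : ℤ) * (10 * (E * t)) < 60 * E * (Q₁ + 1) := by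
      have h2 : 60 * (E : ℤ) * (10 * (E * t)) = 600 * (E ^ 2 * t) := by ring
      have h3 : 60 * (E : ℤ) * (Q₁ + 1) = 60 * E * Q₁ + 60 * E := by ring
      rw [h2, h3]
      linarith
    have := lt_of_mul_lt_mul_left h1 h60.le
    omega
  have hQ2X : Q₂ ≤ X := by
    have h1 : 0 ≤ Q₂ := by omega
    nlinarith
  obtain ⟨c₀, h1, h2, h3⟩ := exists_const (G := G) (N := N) (E := E) hJ (a := Q₁ + 1)
    (l := Q₂ - Q₁) (R := 2 * t) (by omega) (by omega) (by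
      have h2 : (E : ℤ) * (2 * (2 * t)) = 4 * (E * t) := by ring
      omega) (by omega)
  refine ⟨c₀, hyp, hE, hNE, hD, hh, hK, ?_, ?_, ?_, h3⟩
  · rw [← hX, hX0]; exact hXN
  · rw [← hX]
    have h4 : 60 * (E : ℤ) * (Q₁ + 1) ≤ 60 * E * c₀ := mul_le_mul_of_nonneg_left h1 h60.le
    nlinarith
  · rw [← hX]
    have h4 : 30 * (E : ℤ) * c₀ ≤ 30 * E * Q₂ := mul_le_mul_of_nonneg_left (by omega) h30.le
    nlinarith

/-- The combinatorial theorem. -/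
theorem core (hyp : Hyp G N E) (hE : 1 ≤ E) (hNE : N ≤ 3 ^ E) (hD : 2 * E + 1 ≤ D)
    (hh : 1000 * (E : ℤ) ^ 4 ≤ 3 ^ h) (hK : 3 ≤ K) (hXN : 27 * (3 ^ (h * K) * D) ≤ N) :
    (K - 2) * (K - 1) ≤ 16 * Lam E * (V G N D).card := by
  obtain ⟨c₀, P⟩ := exists_par hyp hE hNE hD hh (by omega) hXN
  exact P.final hK

end DChg
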