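import Pool.Agent.DChg.Inst
import Pool.Agent.DChg.Core

set_option autoImplicit false

/-!
Every essential jump gives a break of the period `m`.
-/

open Finset Sqrt2Digits SqrtFrob

namespace DChg

lemma V_le_brk {m N R : ℕ} (hm : 0 < m) (hR : XB m N + m + 1 ≤ R) (hR3 : 3 ≤ R) :
    (V Gd (N : ℤ) (2 * R)).card ≤ brk m N := by
  have hch : ∀ u ∈ V Gd (N : ℤ) (2 * R), ∃ k : ℕ, (prd Gd N (2 * R) u - R < k ∧ (k : ℤ) < u + 2) ∧
      k < N ∧ m ≤ k ∧ digit k ≠ digit (k - m) := by
    intro u hu
    have hJ := isJ_prd hu
    set p := prd Gd N (2 * R) u with hp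
    have h1 := hJ.left.1
    have h2 := hJ.right.1
    have h3 := hJ.lt
    by_contra hcon
    push Not at hcon
    apply hJ.ne
    have hno : ∀ k, (p - R + 1).toNat ≤ k → k < (u + 2).toNat → m ≤ k → digit k = digit (k - m) := by
      intro k hk1 hk2 hk3
      exact hcon k ⟨by omega, by omega⟩ (by omega) hk3
    have hz := no_break (N := N) hm (by omega) (by omega) hno
    have hstep : ∀ d : ℕ, p + d ≤ u → Gd (p + d) = Gd p := by
      intro d
      induction d with
      | zero => intro _; simp
      | succ d ih =>
        intro hd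
        rw [← ih (by push_cast at hd; omega)]
        have h4 := Gd_sub (p + (d + 1 : ℕ)).toNat
        rw [hz _ (by omega) (by omega), Int.cast_zero, Int.toNat_of_nonneg (by omega)] at h4
        have h5 := sub_eq_zero.1 h4
        rw [h5]
        congr 1
        push_cast
        ring
    have h4 := hstep (u - p).toNat (by omega)
    rw [show p + ((u - p).toNat : ℤ) = u by omega] at h4
    exact h4.symm
  choose! φ hφ1 hφ2 using hch
  have hinj : Set.InjOn (fun u => (φ u : ℤ)) (V Gd (N : ℤ) (2 * R) : Set ℤ) := by
    refine injOn_of_sep (lo := fun u => prd Gd N (2 * R) u - R) (hi := fun u => u + 2) hφ1 ?_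
    intro u hu u' hu' huu
    have := (isJ_prd hu).sep (isJ_prd hu') huu
    omega
  unfold brk
  refine card_le_card_of_injOn φ ?_ ?_
  · intro u hu
    rw [mem_coe, mem_filter, mem_range]
    exact hφ2 u hu
  · intro a ha b hb hab
    exact hinj ha hb (by simp only [hab])

end DChg
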