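import Mathlib

set_option autoImplicit false

/-!
Digit changes of `√2`: the combinatorial setting modulo `3`.
-/

open Finset

namespace DChg

/-- The combinatorial input: `G : ℤ → ZMod 3` vanishes at negative integers, has at most `E` jumps
in `[0, N)`, satisfies `G n = - G ⌊n/3⌋` up to at most `E` exceptions in `[0, N)`, and its jump
sequence `f n = G n - G (n-1)` satisfies `∑_{i ≤ n} f i G (n-i) = 2` up to at most `E` exceptions
in `[0, N)`. -/
structure Hyp (G : ℤ → ZMod 3) (N : ℤ) (E : ℕ) : Prop where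
  neg : ∀ n < 0, G n = 0
  jmp : ((Ico 0 N).filter (fun n => G n ≠ G (n - 1))).card ≤ E
  scl : ((Ico 0 N).filter (fun n => G n ≠ - G (n / 3))).card ≤ E
  sq : ((Ico 0 N).filter
    (fun n => ∑ i ∈ Icc 0 n, (G i - G (i - 1)) * G (n - i) ≠ 2)).card ≤ E

/-- `n` lies in an interval of length `t` inside `[0, N)` on which `G` is constant. -/
def Pt (G : ℤ → ZMod 3) (N t n : ℤ) : Prop :=
  ∃ a, 0 ≤ a ∧ a ≤ n ∧ n < a + t ∧ a + t ≤ N ∧ ∀ k, a ≤ k → k < a + t → G k = G n

/-- `u` is an essential jump at resolution `t`; `p` is the last point before it. -/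
def IsJ (G : ℤ → ZMod 3) (N t p u : ℤ) : Prop :=
  Pt G N t p ∧ Pt G N t u ∧ p < u ∧ G p ≠ G u ∧ ∀ k, p < k → k < u → ¬ Pt G N t k

open Classical in
/-- The essential jumps at resolution `t`. -/
noncomputable def V (G : ℤ → ZMod 3) (N t : ℤ) : Finset ℤ :=
  (Ico 0 N).filter (fun u => ∃ p, IsJ G N t p u)

open Classical in
/-- The essential jumps at resolution `t` in `(x, y]`. -/
noncomputable def cntV (G : ℤ → ZMod 3) (N t x y : ℤ) : ℕ :=
  ((V G N t).filter (fun u => x < u ∧ u ≤ y)).card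

end DChg
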