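import Pool.Agent.DChg.Levels

set_option autoImplicit false

/-!
The dichotomy between consecutive levels.
-/

open Finset

namespace DChg

variable {G : ℤ → ZMod 3} {N D c₀ : ℤ} {E h K : ℕ}

lemma Par.dicho (P : Par G N D c₀ E h K) {k : ℕ} (hk4 : 4 ≤ k) (hk : k ≤ K) :
    lev G N D c₀ h K (k - 2) + 1 ≤ lev G N D c₀ h K k ∨
    ∑ l ∈ Icc 1 (k - 3), lev G N D c₀ h K l
      ≤ (2 * lev G N D c₀ h K k + gM (lev G N D c₀ h K k)) * lev G N D c₀ h K k := by
  classical
  rcases Nat.lt_or_ge (lev G N D c₀ h K (k - 2)) (lev G N D c₀ h K k) with hlt | hge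
  · exact Or.inl hlt
  right
  set t := thr h K D k with ht
  set X := thr h K D 0 with hX
  have hE1 := P.E1'
  have hDp := P.Dpos
  have hDt : D ≤ t := P.D_le k
  have hD1 := P.D1
  have hc₀ := P.c₀pos
  have hc₀X : 30 * c₀ ≤ X := P.c₀X
  have h1X : 1000 * thr h K D 1 ≤ X := P.thr1X
  have hXN : 27 * X ≤ N := P.XN
  have hXt : 1000000 * ((E : ℤ) ^ 4 * t) ≤ X := P.X_ge2 (by omega) hk
  obtain ⟨g1, g2, g3, g4, g5⟩ := pow_ineq P.E1' (t := t) (by omega)
  have hJ : (Jset G N).card ≤ E := P.hyp.jmp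
  have hZ : (Zset G N).card ≤ E := P.hyp.scl
  set κ : ℤ := 4 * ((E : ℤ) ^ 2 * t) with hκ
  set L : ℤ := (E + 2) * (3 * κ) with hL
  have hL1 : L ≤ 36 * ((E : ℤ) ^ 3 * t) := by
    have h1 : L = 12 * (E ^ 3 * t) + 24 * (E ^ 2 * t) := by rw [hL, hκ]; ring
    omega
  have hL2 : E * L ≤ 36 * ((E : ℤ) ^ 4 * t) := by
    have h1 : E * L ≤ E * (36 * ((E : ℤ) ^ 3 * t)) := mul_le_mul_of_nonneg_left hL1 (by omega)
    have h2 : (E : ℤ) * (36 * ((E : ℤ) ^ 3 * t)) = 36 * ((E : ℤ) ^ 4 * t) := by ring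
    omega
  have hL0 : 0 ≤ L := by
    have h1 : L = 12 * (E ^ 3 * t) + 24 * (E ^ 2 * t) := by rw [hL, hκ]; ring
    omega
  have hLt : t ≤ L := by
    have h1 : L = 12 * (E ^ 3 * t) + 24 * (E ^ 2 * t) := by rw [hL, hκ]; ring
    omega
  have hnum : Num N t κ L X c₀ E := by
    refine ⟨P.E1, by omega, by omega, rfl, hc₀.le, P.c₀hi, by omega, by omega⟩
  obtain ⟨q₀, hq1, hq2, hq3⟩ := P.exj (k := k) (by omega) hk
  -- the point `c`
  obtain ⟨c, hc1, hc2, hc3⟩ := exists_const (G := G) (N := N) (E := E) hJ (a := (X + 11) / 12)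
    (l := X / 7 - (X + 11) / 12 + 1) (R := L) hL0 (by omega) (by
      have h2 : (E : ℤ) * (2 * L) = 2 * (E * L) := by ring
      omega) (by omega)
  have hcpt : Pt G N t c := by
    refine ⟨c, by omega, le_rfl, by omega, by omega, fun k hk1 hk2 => hc3 k (by omega) (by omega)⟩
  -- isolation
  have hpt2 := P.pt (k := k - 2) (by omega) (by omega)
  have hthr2 : thr h K D (k - 2) = 3 ^ (h * 2) * t := thr_sub hk (by omega)
  have hP2 : 1000000 * (E : ℤ) ^ 4 ≤ 3 ^ (h * 2) := by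
    have h1 := P.hh
    have h2 := P.hh1
    have h3 : (1000 : ℤ) * (1000 * (E : ℤ) ^ 4) ≤ 3 ^ h * 3 ^ h :=
      mul_le_mul h2 h1 (by positivity) (by positivity)
    have h4 : (3 : ℤ) ^ (h * 2) = 3 ^ h * 3 ^ h := by rw [← pow_add]; congr 1; ring
    rw [h4]; linarith
  have hthr2' : 1000000 * ((E : ℤ) ^ 4 * t) ≤ thr h K D (k - 2) := by
    rw [hthr2]
    have h1 := mul_le_mul_of_nonneg_right hP2 (show 0 ≤ t by omega)
    linarith
  have hiso : ∀ q ∈ V G N t, c₀ < q → q ≤ 9 * X → q ≠ q₀ → 6 * L ≤ |q₀ - q| := by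
    intro q hq h1 h2 h3
    have hle : cntV G N t c₀ (9 * X) ≤ cntV G N (thr h K D (k - 2)) c₀ (9 * X) := hge
    rcases lt_or_gt_of_ne h3 with h4 | h4
    · have h5 := isolated (by omega) (P.anti (by omega) hk) hpt2 hle hq ⟨h1, h2⟩ hq1
        ⟨by omega, by omega⟩ h4
      exact le_trans (by omega) (le_abs_self _)
    · have h5 := isolated (by omega) (P.anti (by omega) hk) hpt2 hle hq1 ⟨by omega, by omega⟩ hq
        ⟨h1, h2⟩ h4
      rw [abs_sub_comm]
      exact le_trans (by omega) (le_abs_self _)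
  have hmain := main_ineq (Y₁ := X / (45 * E)) P.hyp hnum le_rfl (by
      have h1 : (45 * (E : ℤ)) * (X / (45 * E)) ≤ X := Int.mul_ediv_self_le (by omega)
      linarith) hcpt (by omega) (by omega) hc3 hq1 hq2 hq3 hiso
  -- the lower bound
  have hsum := P.down_sum (t := 3 * κ) (by omega) (k := k) hk (by
      have h1 : ((E : ℤ) ^ 2 + 1) * (3 * κ) = 12 * (E ^ 4 * t) + 12 * (E ^ 2 * t) := by
        rw [hκ]; ring
      have h2 : (3 : ℤ) ^ (2 * h) * t = thr h K D (k - 2) := by rw [hthr2, mul_comm 2 h]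
      rw [← ht, h2, h1]
      omega) (Icc 1 (k - 3)) (by intro i hi; rw [mem_Icc] at hi; omega)
  have hrefl : ∑ i ∈ Icc 1 (k - 3), lev G N D c₀ h K (k - i - 2)
      = ∑ l ∈ Icc 1 (k - 3), lev G N D c₀ h K l := by
    apply sum_nbij' (fun i => k - i - 2) (fun l => k - l - 2)
    · intro i hi; rw [mem_Icc] at hi ⊢; omega
    · intro i hi; rw [mem_Icc] at hi ⊢; omega
    · intro i hi
      rw [mem_Icc] at hi
      show k - (k - i - 2) - 2 = i
      omega
    · intro i hi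
      rw [mem_Icc] at hi
      show k - (k - i - 2) - 2 = i
      omega
    · intro i _; rfl
  rw [hrefl] at hsum
  refine hsum.trans (le_trans ?_ hmain)
  unfold cntV
  apply card_le_card
  intro v hv
  rw [mem_filter] at hv ⊢
  obtain ⟨hvV, i, hi, hv1, hv2⟩ := hv
  rw [mem_Icc] at hi
  rw [← hX] at hv2
  have hi0 : (0 : ℤ) < 3 ^ (h * i) := by positivity
  have hvpos : 0 < v := by
    by_contra hcon
    push Not at hcon
    have : (3 : ℤ) ^ (h * i) * v ≤ 0 := by nlinarith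
    omega
  refine ⟨hvV, ?_, ?_⟩
  · -- lower bound
    have h1 : X = 3 ^ (h * i) * (3 ^ (h * (k - i)) * t) := by
      rw [hX, thr_zero hk, ← ht, ← mul_assoc, ← pow_add, ← mul_add]
      congr 3; omega
    have h2 : (3 : ℤ) ^ (h * 3) ≤ 3 ^ (h * (k - i)) := by
      apply pow_le_pow_right₀ (by norm_num)
      exact Nat.mul_le_mul_left _ (by omega)
    have h3 : (1000 : ℤ) * (1000000 * (E : ℤ) ^ 4) ≤ 3 ^ (h * 3) := by
      have h4 : (3 : ℤ) ^ (h * 3) = 3 ^ h * 3 ^ (h * 2) := by rw [← pow_add]; congr 1; ring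
      rw [h4]
      exact mul_le_mul P.hh1 hP2 (by positivity) (by positivity)
    have h4 : 1000000000 * ((E : ℤ) ^ 4 * t) ≤ 3 ^ (h * (k - i)) * t := by
      have := mul_le_mul_of_nonneg_right (h3.trans h2) (show 0 ≤ t by omega)
      linarith
    have h5 := P.c₀lo
    rw [← hX] at h5
    have h6 : 60 * ((E : ℤ) * c₀) < 3 ^ (h * i) * (60 * (E * v)) := by
      have : (E : ℤ) * c₀ < E * (3 ^ (h * i) * v) := mul_lt_mul_of_pos_left hv1 (by omega)
      nlinarith
    have h7 : 3 ^ (h * (k - i)) * t < 60 * (E * v) := by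
      have h8 : 3 ^ (h * i) * (3 ^ (h * (k - i)) * t) < 3 ^ (h * i) * (60 * (E * v)) := by
        rw [← h1]; omega
      exact lt_of_mul_lt_mul_left h8 hi0.le
    have h8 : (E : ℤ) * (4 * L) < E * v := by
      have h9 : (E : ℤ) * (4 * L) = 4 * (E * L) := by ring
      omega
    exact lt_of_mul_lt_mul_left h8 (by omega)
  · -- upper bound
    apply Int.le_ediv_of_mul_le (by omega)
    have h1 : (3 : ℤ) ^ h ≤ 3 ^ (h * i) := by
      apply pow_le_pow_right₀ (by norm_num)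
      exact Nat.le_mul_of_pos_right _ hi.1
    have h2 := P.hh
    have h3 : (E : ℤ) ≤ E ^ 4 := by
      calc (E : ℤ) = E ^ 1 := (pow_one _).symm
        _ ≤ E ^ 4 := pow_le_pow_right₀ hE1 (by norm_num)
    have h4 : 1000 * (E : ℤ) * v ≤ 3 ^ (h * i) * v :=
      mul_le_mul_of_nonneg_right (by linarith) hvpos.le
    have h5 : 0 < (E : ℤ) * v := by positivity
    have h6 : v * (45 * (E : ℤ)) = 45 * (E * v) := by ring
    have h7 : 1000 * (E : ℤ) * v = 1000 * (E * v) := by ring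
    omega

end DChg
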