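import Pool.Agent.DChg.Pick

set_option autoImplicit false

/-!
There is an essential jump in every window `(X, 9X]`.
-/

open Finset

namespace DChg

variable {G : ℤ → ZMod 3} {N t : ℤ} {E : ℕ}

lemma badDown_mono {j j' : ℕ} (h : j ≤ j') : BadDown G N j ⊆ BadDown G N j' := by
  unfold BadDown
  exact biUnion_subset_biUnion_of_subset_left _ (range_subset_range.2 h)

theorem exist_jump (hyp : Hyp G N E) (hE : 1 ≤ E) (ht : 1 ≤ t) (hNE : N ≤ 3 ^ E) {X : ℤ}
    (hX : 2 * ((E : ℤ) ^ 3 * t) ≤ X) (hXN : 9 * X + t ≤ N) :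
    ∃ u ∈ V G N t, X < u ∧ u ≤ 9 * X := by
  classical
  by_contra hcon
  push Not at hcon
  have hE1 : (1 : ℤ) ≤ E := by exact_mod_cast hE
  have hJ : (Jset G N).card ≤ E := hyp.jmp
  have hZ : (Zset G N).card ≤ E := hyp.scl
  have hS : (SqEx G N).card ≤ E := hyp.sq
  have hJk := card_Junk_le hJ ht
  have hE3 : (E : ℤ) * t ≤ E ^ 3 * t := by
    apply mul_le_mul_of_nonneg_right _ (by omega)
    nlinarith [sq_nonneg ((E : ℤ) - 1)]
  have hEt : (E : ℤ) ≤ E * t := by nlinarith
  have hEt0 : 0 < (E : ℤ) * t := by nlinarith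
  have hconst : ∀ x y, Pt G N t x → Pt G N t y → X ≤ x → x ≤ y → y ≤ 9 * X → G x = G y := by
    intro x y hx hy h1 h2 h3
    by_contra hne
    obtain ⟨p, u, h4, h5, h6⟩ := change hx hy h2 hne
    have h7 := h4.lt
    have h8 := hcon u (mem_V.2 ⟨p, h4⟩) (by omega)
    omega
  -- a common point
  have hstep1 : ∃ n, X ≤ n ∧ n < 3 * X ∧ Pt G N t n ∧ Pt G N t (3 * n) ∧ G (3 * n) = - G n := by
    set bad := Junk G N t ∪ (Junk G N t).image (fun k => k / 3) ∪ (Zset G N).image (fun k => k / 3)
      with hbad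
    have h1 : (bad.card : ℤ) ≤ E * t + E * t + E := by
      have h2 : bad.card ≤ (Junk G N t).card + (Junk G N t).card + E := by
        refine (card_union_le _ _).trans (Nat.add_le_add ((card_union_le _ _).trans
          (Nat.add_le_add le_rfl card_image_le)) (card_image_le.trans hZ))
      have h3 : (bad.card : ℤ) ≤ (Junk G N t).card + (Junk G N t).card + E := by exact_mod_cast h2
      linarith
    have h2 : ((Ico X (3 * X)).card : ℤ) = 2 * X := by
      rw [Int.card_Ico, Int.toNat_of_nonneg] <;> linarith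
    have h3 : ¬ (Ico X (3 * X) ⊆ bad) := by
      intro hsub
      have h4 := card_le_card hsub
      have h5 : ((Ico X (3 * X)).card : ℤ) ≤ bad.card := by exact_mod_cast h4
      rw [h2] at h5
      linarith
    rw [not_subset] at h3
    obtain ⟨n, hn1, hn2⟩ := h3
    rw [mem_Ico] at hn1
    rw [hbad, mem_union, mem_union, not_or, not_or] at hn2
    obtain ⟨⟨g1, g2⟩, g3⟩ := hn2
    have e3 : 3 * n / 3 = n := by omega
    refine ⟨n, hn1.1, hn1.2, ?_, ?_, ?_⟩
    · by_contra hno
      exact g1 (mem_Junk.2 ⟨⟨by omega, by omega⟩, hno⟩)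
    · by_contra hno
      apply g2
      rw [mem_image]
      exact ⟨3 * n, mem_Junk.2 ⟨⟨by omega, by omega⟩, hno⟩, e3⟩
    · by_contra hno
      apply g3
      rw [mem_image]
      refine ⟨3 * n, mem_Zset.2 ⟨⟨by omega, by omega⟩, ?_⟩, e3⟩
      rw [e3]; exact hno
  obtain ⟨n₀, h01, h02, h03, h04, h05⟩ := hstep1
  have hG0 : G n₀ = 0 := by
    have h1 := hconst n₀ (3 * n₀) h03 h04 h01 (by omega) (by omega)
    rw [h05] at h1
    revert h1
    generalize G n₀ = x
    revert x
    decide
  have hzero : ∀ y, Pt G N t y → X ≤ y → y ≤ 9 * X → G y = 0 := by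
    intro y hy h1 h2
    rcases le_total y n₀ with h3 | h3
    · rw [hconst y n₀ hy h03 h1 h3 (by omega), hG0]
    · rw [← hconst n₀ y h03 hy h01 h3 h2, hG0]
  -- the nonzero set
  set NZ := (Ico 0 (9 * X)).filter (fun k => G k ≠ 0) with hNZ
  set cov : Finset ℤ := {0} ∪ (range (E + 1)).biUnion (fun j => (Junk G N t).image (fun k => k / 3 ^ j))
    ∪ BadDown G N E with hcov
  have hsub : NZ ⊆ cov := by
    intro k hk
    rw [hNZ, mem_filter, mem_Ico] at hk
    obtain ⟨⟨hk0, hk9⟩, hkG⟩ := hk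
    rw [hcov, mem_union, mem_union]
    rcases eq_or_lt_of_le hk0 with h1 | h1
    · left; left; rw [mem_singleton]; exact h1.symm
    rcases le_or_gt X k with h2 | h2
    · left; right
      rw [mem_biUnion]
      refine ⟨0, by simp, ?_⟩
      rw [mem_image]
      refine ⟨k, mem_Junk.2 ⟨⟨hk0, by omega⟩, fun hP => hkG (hzero k hP h2 (by omega))⟩, by simp⟩
    · by_cases h3 : k ∈ BadDown G N E
      · right; exact h3
      left; right
      obtain ⟨j, hj1, hj2⟩ := exists_scale (b := k) (X := 3 * X) h1 (by omega)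
      have h4 : (0 : ℤ) < 3 ^ j := by positivity
      have hjE : j ≤ E := by
        have h5 : (3 : ℤ) ^ j ≤ 3 ^ E := by nlinarith
        have h6 : 3 ^ j ≤ 3 ^ E := by exact_mod_cast h5
        exact (Nat.pow_le_pow_iff_right (by norm_num)).1 h6
      have h5 := scale_down (G := G) (N := N) (j := j) hk0 (by omega)
        (fun hb => h3 (badDown_mono hjE hb))
      rw [mem_biUnion]
      refine ⟨j, mem_range.2 (by omega), ?_⟩
      rw [mem_image]
      refine ⟨3 ^ j * k, mem_Junk.2 ⟨⟨by positivity, by omega⟩, fun hP => ?_⟩, ?_⟩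
      · have h6 := hzero _ hP (by omega) (by omega)
        rw [h6] at h5
        exact hkG ((mul_eq_zero.1 h5.symm).resolve_left (pow_ne_zero _ (by decide)))
      · exact Int.mul_ediv_cancel_left _ h4.ne'
  have hNZcard : (NZ.card : ℤ) ≤ 1 + (E + 1) * (E * t) + E * E := by
    have h1 : NZ.card ≤ 1 + (E + 1) * (Junk G N t).card + E * E := by
      refine (card_le_card hsub).trans ?_
      refine (card_union_le _ _).trans (Nat.add_le_add ((card_union_le _ _).trans
        (Nat.add_le_add (by simp) ?_)) (card_BadDown_le hZ E))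
      refine card_biUnion_le.trans ?_
      refine (sum_le_sum fun i _ => card_image_le).trans ?_
      rw [sum_const, card_range, smul_eq_mul]
    have h2 : (NZ.card : ℤ) ≤ 1 + (E + 1) * (Junk G N t).card + E * E := by exact_mod_cast h1
    nlinarith
  -- the square identity
  have hsub2 : Ico 0 (9 * X) ⊆ SqEx G N ∪ (Jset G N).biUnion (fun i => NZ.image (fun k => k + i)) := by
    intro n hn
    rw [mem_Ico] at hn
    rw [mem_union]
    by_cases h1 : n ∈ SqEx G N
    · exact Or.inl h1
    right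
    have h2 : ∑ i ∈ Icc 0 n, (G i - G (i - 1)) * G (n - i) = 2 := by
      by_contra hno
      apply h1
      unfold SqEx
      rw [mem_filter, mem_Ico]
      exact ⟨⟨hn.1, by omega⟩, hno⟩
    have h3 : ∃ i ∈ Icc 0 n, (G i - G (i - 1)) * G (n - i) ≠ 0 := by
      by_contra hno
      push Not at hno
      rw [sum_eq_zero hno] at h2
      exact absurd h2 (by decide)
    obtain ⟨i, hi, hne⟩ := h3
    rw [mem_Icc] at hi
    rw [mem_biUnion]
    refine ⟨i, ?_, ?_⟩
    · unfold Jset
      rw [mem_filter, mem_Ico]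
      exact ⟨⟨hi.1, by omega⟩, fun h => hne (by rw [h, sub_self, zero_mul])⟩
    · rw [mem_image]
      refine ⟨n - i, ?_, by ring⟩
      rw [hNZ, mem_filter, mem_Ico]
      exact ⟨⟨by omega, by omega⟩, fun h => hne (by rw [h, mul_zero])⟩
  have hfin : (9 * X : ℤ) ≤ E + E * (1 + (E + 1) * (E * t) + E * E) := by
    have h1 : (Ico (0 : ℤ) (9 * X)).card ≤ E + E * NZ.card := by
      refine (card_le_card hsub2).trans ((card_union_le _ _).trans (Nat.add_le_add hS ?_))
      refine card_biUnion_le.trans ?_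
      refine (sum_le_sum fun i _ => card_image_le).trans ?_
      rw [sum_const, smul_eq_mul]
      exact Nat.mul_le_mul_right _ hJ
    have h2 : ((Ico (0 : ℤ) (9 * X)).card : ℤ) ≤ E + E * NZ.card := by exact_mod_cast h1
    rw [Int.card_Ico, Int.toNat_of_nonneg (by linarith)] at h2
    nlinarith
  have hE2 : (E : ℤ) ≤ E ^ 3 * t := by linarith
  have hE4 : (E : ℤ) * (E * (E * t)) = E ^ 3 * t := by ring
  have hE5 : (E : ℤ) * (E * t) ≤ E ^ 3 * t := by nlinarith
  have hE6 : (E : ℤ) * (E * E) ≤ E ^ 3 * t := by nlinarith [pow_pos (by linarith : (0 : ℤ) < E) 3]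
  nlinarith

end DChg
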