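import Mathlib

set_option autoImplicit false

/-!
A finite set of integers has few pairs whose difference is close to `3^j δ` for some `j`.
-/

open Finset

namespace DChg

/-- A largest gap. -/
lemma exists_gap (W : Finset ℤ) (hW : 2 ≤ W.card) :
    ∃ a ∈ W, ∃ b ∈ W, a < b ∧ (∀ w ∈ W, w ≤ a ∨ b ≤ w) ∧
      ∀ x ∈ W, ∀ y ∈ W, |y - x| ≤ (W.card : ℤ) * (b - a) := by
  classical
  obtain ⟨n, hn⟩ : ∃ n, W.card = n + 2 := ⟨W.card - 2, by omega⟩
  set w := W.orderEmbOfFin hn with hw
  -- the gaps
  set g : ℕ → ℤ := fun i => if h : i + 1 < n + 2 then w ⟨i + 1, h⟩ - w ⟨i, by omega⟩ else 0 with hg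
  have hgpos : ∀ i, i < n + 1 → 0 < g i := by
    intro i hi
    simp only [hg]
    rw [dif_pos (by omega)]
    have : w ⟨i, by omega⟩ < w ⟨i + 1, by omega⟩ := by
      apply w.strictMono
      simp [Fin.lt_def]
    linarith
  have htel : ∀ k (hk : k < n + 2), w ⟨k, hk⟩ - w ⟨0, by omega⟩ = ∑ i ∈ range k, g i := by
    intro k
    induction k with
    | zero => intro _; simp
    | succ k ih =>
      intro hk
      rw [sum_range_succ, ← ih (by omega)]
      simp only [hg]
      rw [dif_pos hk]
      ring
  obtain ⟨i, hi, himax⟩ := exists_max_image (range (n + 1)) g ⟨0, by simp⟩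
  rw [mem_range] at hi
  have hgi : g i = w ⟨i + 1, by omega⟩ - w ⟨i, by omega⟩ := by
    simp only [hg]; rw [dif_pos (by omega)]
  refine ⟨w ⟨i, by omega⟩, orderEmbOfFin_mem _ _ _, w ⟨i + 1, by omega⟩,
    orderEmbOfFin_mem _ _ _, ?_, ?_, ?_⟩
  · have := hgpos i hi
    rw [hgi] at this; linarith
  · intro x hx
    have hx' : x ∈ Set.range w := by
      rw [hw, range_orderEmbOfFin]; exact hx
    obtain ⟨⟨k, hk⟩, rfl⟩ := hx'
    rcases Nat.lt_or_ge i k with h | h
    · right
      apply w.monotone
      simp only [Fin.le_def]; omega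
    · left
      apply w.monotone
      simp only [Fin.le_def]; omega
  · have hall : ∀ x ∈ W, ∀ y ∈ W, x ≤ y → y - x ≤ (W.card : ℤ) * g i := by
      intro x hx y hy _
      have hx' : x ∈ Set.range w := by
        rw [hw, range_orderEmbOfFin]; exact hx
      have hy' : y ∈ Set.range w := by
        rw [hw, range_orderEmbOfFin]; exact hy
      obtain ⟨⟨k, hk⟩, rfl⟩ := hx'
      obtain ⟨⟨l, hl⟩, rfl⟩ := hy'
      have h1 : w ⟨0, by omega⟩ ≤ w ⟨k, hk⟩ := by
        apply w.monotone; simp [Fin.le_def]
      have h2 := htel l hl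
      have h3 : ∑ i' ∈ range l, g i' ≤ ∑ i' ∈ range l, g i :=
        sum_le_sum fun i' hi' => himax i' (by rw [mem_range] at *; omega)
      rw [sum_const, card_range, nsmul_eq_mul] at h3
      have h4 : (l : ℤ) * g i ≤ (W.card : ℤ) * g i := by
        apply mul_le_mul_of_nonneg_right _ (hgpos i hi).le
        rw [hn]; push_cast
        have : (l : ℤ) < (n : ℤ) + 2 := by exact_mod_cast hl
        linarith
      linarith
    intro x hx y hy
    rw [← hgi]
    rcases le_total x y with h | h
    · rw [abs_of_nonneg (by linarith)]; exact hall x hx y hy h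
    · rw [abs_of_nonpos (by linarith)]
      have := hall y hy x hx h
      linarith

/-- `n log₂ n` is superadditive enough. -/
lemma nlog_add {a b : ℕ} (ha : 1 ≤ a) (hab : a ≤ b) :
    a * Nat.log 2 a + b * Nat.log 2 b + a ≤ (a + b) * Nat.log 2 (a + b) := by
  have h1 : Nat.log 2 a + 1 ≤ Nat.log 2 (a + b) := by
    have h2 : Nat.log 2 (a * 2) = Nat.log 2 a + 1 := Nat.log_mul_base (by norm_num) (by omega)
    rw [← h2]
    exact Nat.log_mono_right (by omega)
  have h2 : Nat.log 2 b ≤ Nat.log 2 (a + b) := Nat.log_mono_right (by omega)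
  calc a * Nat.log 2 a + b * Nat.log 2 b + a = a * (Nat.log 2 a + 1) + b * Nat.log 2 b := by ring
    _ ≤ a * Nat.log 2 (a + b) + b * Nat.log 2 (a + b) :=
        Nat.add_le_add (Nat.mul_le_mul_left _ h1) (Nat.mul_le_mul_left _ h2)
    _ = _ := by ring

lemma nlog_add' {a b : ℕ} (ha : 1 ≤ a) (hb : 1 ≤ b) :
    a * Nat.log 2 a + b * Nat.log 2 b + min a b ≤ (a + b) * Nat.log 2 (a + b) := by
  rcases le_total a b with h | h
  · rw [min_eq_left h]; exact nlog_add ha h
  · rw [min_eq_right h, add_comm a b, add_comm (a * _)]; exact nlog_add hb h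

open Classical in
/-- The edges inside `W`. -/
noncomputable def edg (Ed : ℕ → Finset (ℤ × ℤ)) (W : Finset ℤ) (j : ℕ) : Finset (ℤ × ℤ) :=
  (Ed j).filter (fun e => e.1 ∈ W ∧ e.2 ∈ W)

lemma mem_edg {Ed : ℕ → Finset (ℤ × ℤ)} {W : Finset ℤ} {j : ℕ} {e : ℤ × ℤ} :
    e ∈ edg Ed W j ↔ e ∈ Ed j ∧ e.1 ∈ W ∧ e.2 ∈ W := by
  classical
  unfold edg; rw [mem_filter]

/-- The graph lemma. -/
theorem graph {δ : ℤ} (hδ : 0 < δ) (B : ℕ) (J : Finset ℕ) (Ed : ℕ → Finset (ℤ × ℤ))
    (hlen : ∀ j ∈ J, ∀ e ∈ Ed j, 3 ^ j * δ ≤ 2 * |e.2 - e.1| ∧ |e.2 - e.1| ≤ 2 * (3 ^ j * δ))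
    (h1 : ∀ j ∈ J, Set.InjOn Prod.fst (Ed j : Set (ℤ × ℤ)))
    (h2 : ∀ j ∈ J, Set.InjOn Prod.snd (Ed j : Set (ℤ × ℤ))) :
    ∀ (n : ℕ) (W : Finset ℤ), W.card = n → n ≤ B →
      ∑ j ∈ J, (edg Ed W j).card ≤ 2 * (Nat.log 3 (4 * B) + 1) * (n * Nat.log 2 n) := by
  classical
  intro n
  induction n using Nat.strong_induction_on with
  | _ n ih =>
    intro W hWn hnB
    rcases Nat.lt_or_ge n 2 with hn2 | hn2
    · -- no edges
      have hzero : ∑ j ∈ J, (edg Ed W j).card = 0 := by
        apply sum_eq_zero
        intro j hj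
        rw [card_eq_zero, eq_empty_iff_forall_notMem]
        intro e he
        rw [mem_edg] at he
        have h3 : e.1 = e.2 := by
          have : W.card ≤ 1 := by omega
          rw [card_le_one] at this
          exact this _ he.2.1 _ he.2.2
        have h4 := (hlen j hj e he.1).1
        rw [h3, sub_self, abs_zero, mul_zero] at h4
        have : (0 : ℤ) < 3 ^ j * δ := by positivity
        linarith
      omega
    · obtain ⟨a, ha, b, hb, hab, hgap, hdiam⟩ := exists_gap W (by omega)
      set L := W.filter (fun w => w ≤ a) with hL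
      set R := W.filter (fun w => b ≤ w) with hR
      have hcard : L.card + R.card = n := by
        rw [← hWn]
        have hdis : Disjoint L R := by
          rw [disjoint_left]
          intro w hw1 hw2
          rw [hL, mem_filter] at hw1
          rw [hR, mem_filter] at hw2
          omega
        rw [← card_union_of_disjoint hdis]
        congr 1
        ext w
        rw [mem_union, hL, hR, mem_filter, mem_filter]
        constructor
        · rintro (h | h) <;> exact h.1
        · intro h
          rcases hgap w h with h3 | h3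
          · exact Or.inl ⟨h, h3⟩
          · exact Or.inr ⟨h, h3⟩
      have hL1 : 1 ≤ L.card := card_pos.2 ⟨a, by rw [hL, mem_filter]; exact ⟨ha, le_rfl⟩⟩
      have hR1 : 1 ≤ R.card := card_pos.2 ⟨b, by rw [hR, mem_filter]; exact ⟨hb, le_rfl⟩⟩
      -- crossing edges
      set cr : ℕ → Finset (ℤ × ℤ) := fun j => (edg Ed W j).filter
        (fun e => (e.1 ≤ a ∧ b ≤ e.2) ∨ (b ≤ e.1 ∧ e.2 ≤ a)) with hcr
      have hsplit : ∀ j ∈ J, (edg Ed W j).card
          ≤ (edg Ed L j).card + (edg Ed R j).card + (cr j).card := by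
        intro j _
        have hsub : edg Ed W j ⊆ edg Ed L j ∪ edg Ed R j ∪ cr j := by
          intro e he
          have he' := he
          rw [mem_edg] at he'
          obtain ⟨he1, he2, he3⟩ := he'
          rw [mem_union, mem_union, mem_edg, mem_edg]
          simp only [hcr, hL, hR, mem_filter]
          rcases hgap _ he2 with h3 | h3 <;> rcases hgap _ he3 with h4 | h4
          · exact Or.inl (Or.inl ⟨he1, ⟨he2, h3⟩, ⟨he3, h4⟩⟩)
          · exact Or.inr ⟨he, Or.inl ⟨h3, h4⟩⟩
          · exact Or.inr ⟨he, Or.inr ⟨h3, h4⟩⟩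
          · exact Or.inl (Or.inr ⟨he1, ⟨he2, h3⟩, ⟨he3, h4⟩⟩)
        exact (card_le_card hsub).trans ((card_union_le _ _).trans
          (Nat.add_le_add_right (card_union_le _ _) _))
      -- each level has few crossing edges
      have hcr2 : ∀ j ∈ J, (cr j).card ≤ 2 * min L.card R.card := by
        intro j hj
        set c1 := (edg Ed W j).filter (fun e => e.1 ≤ a ∧ b ≤ e.2) with hc1
        set c2 := (edg Ed W j).filter (fun e => b ≤ e.1 ∧ e.2 ≤ a) with hc2
        have hsub : cr j ⊆ c1 ∪ c2 := by
          intro e he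
          simp only [hcr, mem_filter] at he
          rw [mem_union, hc1, hc2, mem_filter, mem_filter]
          rcases he.2 with h | h
          · exact Or.inl ⟨he.1, h⟩
          · exact Or.inr ⟨he.1, h⟩
        have hf : ∀ c : Finset (ℤ × ℤ), c ⊆ edg Ed W j → ∀ T : Finset ℤ, (∀ e ∈ c, e.1 ∈ T) →
            c.card ≤ T.card := by
          intro c hc T hT
          apply card_le_card_of_injOn Prod.fst (fun e he => hT e he)
          intro e he e' he' hee
          exact h1 j hj (mem_edg.1 (hc he)).1 (mem_edg.1 (hc he')).1 hee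
        have hs : ∀ c : Finset (ℤ × ℤ), c ⊆ edg Ed W j → ∀ T : Finset ℤ, (∀ e ∈ c, e.2 ∈ T) →
            c.card ≤ T.card := by
          intro c hc T hT
          apply card_le_card_of_injOn Prod.snd (fun e he => hT e he)
          intro e he e' he' hee
          exact h2 j hj (mem_edg.1 (hc he)).1 (mem_edg.1 (hc he')).1 hee
        have hc1le : c1.card ≤ min L.card R.card := by
          refine le_min (hf c1 (filter_subset _ _) L fun e he => ?_)
            (hs c1 (filter_subset _ _) R fun e he => ?_)
          · rw [hc1, mem_filter, mem_edg] at he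
            rw [hL, mem_filter]; exact ⟨he.1.2.1, he.2.1⟩
          · rw [hc1, mem_filter, mem_edg] at he
            rw [hR, mem_filter]; exact ⟨he.1.2.2, he.2.2⟩
        have hc2le : c2.card ≤ min L.card R.card := by
          refine le_min (hs c2 (filter_subset _ _) L fun e he => ?_)
            (hf c2 (filter_subset _ _) R fun e he => ?_)
          · rw [hc2, mem_filter, mem_edg] at he
            rw [hL, mem_filter]; exact ⟨he.1.2.2, he.2.2⟩
          · rw [hc2, mem_filter, mem_edg] at he
            rw [hR, mem_filter]; exact ⟨he.1.2.1, he.2.1⟩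
        have := (card_le_card hsub).trans (card_union_le _ _)
        omega
      -- few levels have crossing edges
      set Jc := J.filter (fun j => (cr j).Nonempty) with hJc
      have hlev : ∀ j ∈ Jc, b - a ≤ 2 * (3 ^ j * δ) ∧ 3 ^ j * δ ≤ 2 * ((B : ℤ) * (b - a)) := by
        intro j hj
        rw [hJc, mem_filter] at hj
        obtain ⟨e, he⟩ := hj.2
        simp only [hcr, mem_filter] at he
        obtain ⟨he1, he2⟩ := he
        rw [mem_edg] at he1
        obtain ⟨h3, h4⟩ := hlen j hj.1 e he1.1
        have h5 : b - a ≤ |e.2 - e.1| := by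
          rcases he2 with h6 | h6
          · exact le_trans (by linarith [h6.1, h6.2]) (le_abs_self _)
          · exact le_trans (by linarith [h6.1, h6.2]) (neg_le_abs _)
        have h6 := hdiam _ he1.2.1 _ he1.2.2
        have h7 : (W.card : ℤ) * (b - a) ≤ B * (b - a) := by
          apply mul_le_mul_of_nonneg_right _ (by linarith)
          rw [hWn]; exact_mod_cast hnB
        exact ⟨h5.trans h4, by linarith⟩
      have hJccard : Jc.card ≤ Nat.log 3 (4 * B) + 1 := by
        rcases Jc.eq_empty_or_nonempty with h0 | h0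
        · rw [h0]; simp
        · obtain ⟨j₀, hj₀, hmin⟩ := exists_min_image Jc id h0
          simp only [id] at hmin
          have hsub : Jc ⊆ Icc j₀ (j₀ + Nat.log 3 (4 * B)) := by
            intro j hj
            rw [mem_Icc]
            refine ⟨hmin j hj, ?_⟩
            obtain ⟨h3, _⟩ := hlev j₀ hj₀
            obtain ⟨_, h4⟩ := hlev j hj
            obtain ⟨d, hd⟩ : ∃ d, j = j₀ + d := ⟨j - j₀, by have := hmin j hj; omega⟩
            have h5 : (3 : ℤ) ^ d ≤ 4 * B := by
              rw [hd, pow_add] at h4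
              have h6 : (0 : ℤ) < 3 ^ j₀ * δ := by positivity
              have h7 : (3 : ℤ) ^ d * (3 ^ j₀ * δ) ≤ 4 * B * (3 ^ j₀ * δ) := by
                have h8 : (B : ℤ) * (b - a) ≤ B * (2 * (3 ^ j₀ * δ)) :=
                  mul_le_mul_of_nonneg_left h3 (by positivity)
                nlinarith
              exact le_of_mul_le_mul_right h7 h6
            have h6 : 3 ^ d ≤ 4 * B := by exact_mod_cast h5
            have h7 : d ≤ Nat.log 3 (4 * B) := Nat.le_log_of_pow_le (by norm_num) h6
            omega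
          have := card_le_card hsub
          rw [Nat.card_Icc] at this
          omega
      have hcrsum : ∑ j ∈ J, (cr j).card ≤ (Nat.log 3 (4 * B) + 1) * (2 * min L.card R.card) := by
        have h3 : ∑ j ∈ J, (cr j).card = ∑ j ∈ Jc, (cr j).card := by
          rw [hJc, sum_filter]
          apply sum_congr rfl
          intro j _
          split_ifs with h
          · rfl
          · rw [not_nonempty_iff_eq_empty] at h
            rw [h, card_empty]
        rw [h3]
        calc ∑ j ∈ Jc, (cr j).card ≤ ∑ _j ∈ Jc, 2 * min L.card R.card :=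
              sum_le_sum fun j hj => hcr2 j (by rw [hJc, mem_filter] at hj; exact hj.1)
          _ = Jc.card * (2 * min L.card R.card) := by rw [sum_const, smul_eq_mul]
          _ ≤ _ := Nat.mul_le_mul_right _ hJccard
      have hihL := ih L.card (by omega) L rfl (by omega)
      have hihR := ih R.card (by omega) R rfl (by omega)
      have hsum : ∑ j ∈ J, (edg Ed W j).card
          ≤ ∑ j ∈ J, (edg Ed L j).card + ∑ j ∈ J, (edg Ed R j).card + ∑ j ∈ J, (cr j).card := by
        rw [← sum_add_distrib, ← sum_add_distrib]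
        exact sum_le_sum hsplit
      have hlog := nlog_add' hL1 hR1
      rw [hcard] at hlog
      calc ∑ j ∈ J, (edg Ed W j).card
          ≤ 2 * (Nat.log 3 (4 * B) + 1) * (L.card * Nat.log 2 L.card)
            + 2 * (Nat.log 3 (4 * B) + 1) * (R.card * Nat.log 2 R.card)
            + (Nat.log 3 (4 * B) + 1) * (2 * min L.card R.card) := by omega
        _ = 2 * (Nat.log 3 (4 * B) + 1) * (L.card * Nat.log 2 L.card + R.card * Nat.log 2 R.card
            + min L.card R.card) := by ring
        _ ≤ _ := Nat.mul_le_mul_left _ hlog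

end DChg
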