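import Pool.Agent.DChg.Pick
import Pool.Agent.DChg.Graph

set_option autoImplicit false

/-!
The jumps `b` with a given second jump `q₀ - δ`.
-/

open Finset

namespace DChg

variable {G : ℤ → ZMod 3} {N t : ℤ} {E : ℕ}

/-- The bound for the number of edges. -/
def gM (M : ℕ) : ℕ := 2 * (Nat.log 3 (4 * M) + 1) * (M * Nat.log 2 M)

/-- The numerical context. -/
structure Num (N t κ L X c₀ : ℤ) (E : ℕ) : Prop where
  E1 : 1 ≤ E
  t1 : 2 * E + 1 ≤ t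
  tκ : 2 * t + 1 ≤ κ
  Leq : L = (E + 2) * (3 * κ)
  c₀0 : 0 ≤ c₀
  c₀X : 30 * (E * c₀) ≤ X
  XN : 10 * X ≤ N
  LX : 6 * L ≤ X

lemma Num.ineq {κ L X c₀ : ℤ} (h : Num N t κ L X c₀ E) :
    1 ≤ (E : ℤ) ∧ 3 ≤ t ∧ 7 ≤ κ ∧ 9 * κ ≤ L ∧ E * (3 * κ) + 6 * κ = L ∧ 30 * c₀ ≤ X ∧ t ≤ X ∧
      2 * ((E + 1) * t) ≤ L := by
  obtain ⟨h1, h2, h3, h4, h5, h6, h7, h8⟩ := h
  have hE1 : (1 : ℤ) ≤ E := by exact_mod_cast h1
  have h9 : (E : ℤ) * κ ≥ κ := by nlinarith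
  have h10 : E * (3 * κ) + 6 * κ = L := by rw [h4]; ring
  refine ⟨hE1, by omega, by omega, by nlinarith, h10, by nlinarith, by nlinarith, ?_⟩
  have h11 : (E : ℤ) * (2 * t) ≤ E * κ := mul_le_mul_of_nonneg_left (by omega) (by omega)
  nlinarith

/-- Case 1: `3 b ≤ δ`. -/
lemma fiber_one {κ L X c₀ : ℤ} (h : Num N t κ L X c₀ E)
    (hJ : (Jset G N).card ≤ E) (hZ : (Zset G N).card ≤ E) (δ : ℤ) (hδ : 6 * L ≤ δ) (hδX : δ ≤ 4 * X)
    (S : Finset ℤ) (hS : ∀ b ∈ S, b ∈ V G N (3 * κ) ∧ 4 * L < b ∧ 3 * b ≤ δ ∧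
      (κ ≤ δ + prd G N (3 * κ) b → ∃ p' b', IsJ G N t p' b' ∧
        δ + prd G N (3 * κ) b - κ < p' ∧ b' < δ + b + κ)) :
    S.card ≤ cntV G N t c₀ (9 * X) := by
  classical
  obtain ⟨hE1, ht3, hκ7, hκL, hLeq, hc₀X, htX, h2t⟩ := h.ineq
  have htE := h.t1
  have htκ := h.tκ
  have hXN := h.XN
  have ht1 : 1 ≤ t := by omega
  refine le_trans ?_ (count_dyadic hJ hZ h.E1 h.t1 h.c₀0 h.c₀X h.XN htX (Y := δ) (by omega) (by omega))
  have hch : ∀ b ∈ S, ∃ b' ∈ V G N t, δ + prd G N (3 * κ) b - κ < b' ∧ b' < δ + b + κ := by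
    intro b hb
    obtain ⟨h1, h2, h3, h4⟩ := hS b hb
    have h5 := (isJ_prd h1).extent hJ (by omega)
    obtain ⟨p', b', h6, h7, h8⟩ := h4 (by omega)
    have := h6.lt
    exact ⟨b', mem_V.2 ⟨p', h6⟩, by omega, h8⟩
  choose! φ hφ1 hφ2 using hch
  refine card_le_card_of_injOn φ ?_ ?_
  · intro b hb
    rw [mem_coe] at hb
    obtain ⟨h1, h2, h3, h4⟩ := hS b hb
    have h5 := (isJ_prd h1).extent hJ (by omega)
    have h6 := hφ2 b hb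
    rw [mem_coe, mem_filter]
    exact ⟨hφ1 b hb, by omega, by omega⟩
  · refine injOn_of_sep (lo := fun b => δ + prd G N (3 * κ) b - κ) (hi := fun b => δ + b + κ) hφ2 ?_
    intro b hb b₂ hb₂ hbb
    have h5 := (isJ_prd (hS b hb).1).sep (isJ_prd (hS b₂ hb₂).1) hbb
    show δ + b + κ ≤ δ + prd G N (3 * κ) b₂ - κ
    omega

/-- Case 2: `|δ| < 3 b ≤ 9 |δ|`. -/
lemma fiber_two {κ L X c₀ : ℤ} (h : Num N t κ L X c₀ E)
    (hJ : (Jset G N).card ≤ E) (hZ : (Zset G N).card ≤ E) (δ Y₁ : ℤ) (hδ : 6 * L ≤ δ)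
    (hY₁ : 45 * (E * Y₁) ≤ X)
    (S : Finset ℤ) (hS : ∀ b ∈ S, b ∈ V G N (3 * κ) ∧ 4 * L < b ∧ b ≤ Y₁ ∧ δ < 3 * b ∧ b ≤ 3 * δ) :
    S.card ≤ cntV G N t c₀ (9 * X) := by
  classical
  obtain ⟨hE1, ht3, hκ7, hκL, hLeq, hc₀X, htX, h2t⟩ := h.ineq
  have htE := h.t1
  have htκ := h.tκ
  have hXN := h.XN
  have ht1 : 1 ≤ t := by omega
  rcases S.eq_empty_or_nonempty with h0 | ⟨b₀, hb₀⟩
  · rw [h0]; simp
  obtain ⟨g1, g2, g3, g4, g5⟩ := hS b₀ hb₀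
  have hδY : δ < 3 * Y₁ := by omega
  have hEY : Y₁ ≤ E * Y₁ := by nlinarith
  obtain ⟨j, hj1, hj2⟩ := exists_scale (b := δ) (X := X) (by omega) (by omega)
  have h3 : (0 : ℤ) < 3 ^ j := by positivity
  have hj3 : 5 * (E : ℤ) < 3 ^ j := by
    have h4 : 5 * (E : ℤ) * Y₁ < 3 ^ j * Y₁ := by nlinarith
    exact lt_of_mul_lt_mul_right h4 (by omega)
  have hmul : ∀ x y : ℤ, x ≤ y → 3 ^ j * x ≤ 3 ^ j * y := fun x y hxy =>
    mul_le_mul_of_nonneg_left hxy h3.le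
  have ht3j : t ≤ 3 ^ j * t := by nlinarith
  have hch : ∀ b ∈ S, ∃ v ∈ V G N t, 3 ^ j * (prd G N (3 * κ) b - t + 1) < v ∧ v < 3 ^ j * (b + t) := by
    intro b hb
    obtain ⟨h1, h2, h3', h4, h5⟩ := hS b hb
    apply up_jump hJ hZ ht1 j ((isJ_prd h1).jd (by omega))
    · omega
    · nlinarith
    · have := hmul (b + t) (4 * δ) (by omega)
      have h10 : (3 : ℤ) ^ j * (4 * δ) = 4 * (3 ^ j * δ) := by ring
      omega
  choose! φ hφ1 hφ2 using hch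
  unfold cntV
  refine card_le_card_of_injOn φ ?_ ?_
  · intro b hb
    rw [mem_coe] at hb
    obtain ⟨h1, h2, h3', h4, h5⟩ := hS b hb
    have h6 := (isJ_prd h1).extent hJ (by omega)
    have h7 := hφ2 b hb
    have h8 := hmul δ (6 * (prd G N (3 * κ) b - t + 1)) (by omega)
    have h9 := hmul (b + t) (4 * δ) (by omega)
    rw [mem_coe, mem_filter]
    refine ⟨hφ1 b hb, ?_, ?_⟩
    · have h10 : 3 ^ j * (6 * (prd G N (3 * κ) b - t + 1)) = 6 * (3 ^ j * (prd G N (3 * κ) b - t + 1)) := by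
        ring
      omega
    · have h10 : (3 : ℤ) ^ j * (4 * δ) = 4 * (3 ^ j * δ) := by ring
      omega
  · refine injOn_of_sep (lo := fun b => 3 ^ j * (prd G N (3 * κ) b - t + 1))
      (hi := fun b => 3 ^ j * (b + t)) hφ2 ?_
    intro b hb b₂ hb₂ hbb
    have h5 := (isJ_prd (hS b hb).1).sep (isJ_prd (hS b₂ hb₂).1) hbb
    exact hmul _ _ (by omega)

end DChg
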