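import Pool.Agent.DChg.Fiber

set_option autoImplicit false

/-!
The jumps `b` with a given second jump `q₀ - δ`: the case `3 |δ| < b`.
-/

open Finset

namespace DChg

variable {G : ℤ → ZMod 3} {N t : ℤ} {E : ℕ}

/-- Case 3: `3 |δ| < b`. -/
lemma fiber_three {κ L X c₀ : ℤ} (h : Num N t κ L X c₀ E)
    (hJ : (Jset G N).card ≤ E) (hZ : (Zset G N).card ≤ E) (δ Y₁ : ℤ) (hδ : 6 * L ≤ |δ|)
    (hY₁ : 45 * (E * Y₁) ≤ X)
    (S : Finset ℤ) (hS : ∀ b ∈ S, b ∈ V G N (3 * κ) ∧ 4 * L < b ∧ b ≤ Y₁ ∧ 3 * |δ| < b ∧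
      (κ ≤ δ + prd G N (3 * κ) b → ∃ p' b', IsJ G N t p' b' ∧
        δ + prd G N (3 * κ) b - κ < p' ∧ b' < δ + b + κ)) :
    S.card ≤ gM (cntV G N t c₀ (9 * X)) := by
  classical
  obtain ⟨hE1, ht3, hκ7, hκL, hLeq, hc₀X, htX, h2t⟩ := h.ineq
  have htE := h.t1
  have htκ := h.tκ
  have hXN := h.XN
  have ht1 : 1 ≤ t := by omega
  have habs1 := le_abs_self δ
  have habs2 := neg_le_abs δ
  -- basic facts on `b`
  have hbase : ∀ b ∈ S, prd G N (3 * κ) b < b ∧ b - prd G N (3 * κ) b ≤ E * (3 * κ) + 1 := by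
    intro b hb
    have h1 := (hS b hb).1
    exact ⟨(isJ_prd h1).lt, (isJ_prd h1).extent hJ (by omega)⟩
  have hch : ∀ b ∈ S, ∃ (j : ℕ) (u u' : ℤ), (3 ^ j * b ≤ X ∧ X < 3 * (3 ^ j * b)) ∧
      (u ∈ V G N t ∧ u' ∈ V G N t) ∧
      (3 ^ j * (prd G N (3 * κ) b - t) < u ∧ u < 3 ^ j * (b + t)) ∧
      (3 ^ j * (δ + prd G N (3 * κ) b - κ - t) < u' ∧ u' < 3 ^ j * (δ + b + κ + t)) := by
    intro b hb
    obtain ⟨h1, h2, h3', h4, h5⟩ := hS b hb
    obtain ⟨hb1, hb2⟩ := hbase b hb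
    have hEY : Y₁ ≤ E * Y₁ := by nlinarith
    obtain ⟨j, hj1, hj2⟩ := exists_scale (b := b) (X := X) (by omega) (by omega)
    have h3 : (0 : ℤ) < 3 ^ j := by positivity
    have hj3 : 5 * (E : ℤ) < 3 ^ j := by
      have h4 : 3 ^ j * b ≤ 3 ^ j * Y₁ := mul_le_mul_of_nonneg_left h3' h3.le
      have h5 : 5 * (E : ℤ) * Y₁ < 3 ^ j * Y₁ := by linarith
      exact lt_of_mul_lt_mul_right h5 (by omega)
    have hmul : ∀ x y : ℤ, x ≤ y → 3 ^ j * x ≤ 3 ^ j * y := fun x y hxy =>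
      mul_le_mul_of_nonneg_left hxy h3.le
    have ht3j : t ≤ 3 ^ j * t := by nlinarith
    obtain ⟨u, hu1, hu2, hu3⟩ := up_jump hJ hZ ht1 j (l := t) ((isJ_prd h1).jd (by omega))
      (by omega) (by nlinarith) (by
        have := hmul (b + t) (2 * b) (by omega)
        have h10 : (3 : ℤ) ^ j * (2 * b) = 2 * (3 ^ j * b) := by ring
        omega)
    obtain ⟨p', b', h6, h7, h8⟩ := h5 (by omega)
    obtain ⟨u', hu1', hu2', hu3'⟩ := up_jump hJ hZ ht1 j (l := t) (h6.jd le_rfl)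
      (by omega) (by nlinarith) (by
        have := hmul (b' + t) (2 * b) (by omega)
        have h10 : (3 : ℤ) ^ j * (2 * b) = 2 * (3 ^ j * b) := by ring
        omega)
    have g1 := hmul (prd G N (3 * κ) b - t) (prd G N (3 * κ) b - t + 1) (by omega)
    have g2 := hmul (δ + prd G N (3 * κ) b - κ - t) (p' - t + 1) (by omega)
    have g3 := hmul (b' + t) (δ + b + κ + t) (by omega)
    exact ⟨j, u, u', ⟨hj1, hj2⟩, ⟨hu1, hu1'⟩, ⟨by omega, hu3⟩, ⟨by omega, by omega⟩⟩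
  choose! j u u' hj hV hu hu' using hch
  have h3 : ∀ i : ℕ, (0 : ℤ) < 3 ^ i := fun i => by positivity
  have hmul : ∀ (i : ℕ) (x y : ℤ), x ≤ y → 3 ^ i * x ≤ 3 ^ i * y := fun i x y hxy =>
    mul_le_mul_of_nonneg_left hxy (h3 i).le
  set W : Finset ℤ := (V G N t).filter (fun v => c₀ < v ∧ v ≤ 9 * X) with hW
  have hWM : W.card = cntV G N t c₀ (9 * X) := by unfold cntV; rfl
  have huW : ∀ b ∈ S, u b ∈ W := by
    intro b hb
    obtain ⟨h1, h2, h3', h4, h5⟩ := hS b hb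
    obtain ⟨hb1, hb2⟩ := hbase b hb
    have g1 := hmul (j b) b (4 * (prd G N (3 * κ) b - t)) (by omega)
    have g2 : (3 : ℤ) ^ (j b) * (4 * (prd G N (3 * κ) b - t)) = 4 * (3 ^ (j b) * (prd G N (3 * κ) b - t)) := by
      ring
    have g3 := hmul (j b) (b + t) (2 * b) (by omega)
    have g4 : (3 : ℤ) ^ (j b) * (2 * b) = 2 * (3 ^ (j b) * b) := by ring
    have g5 := hj b hb
    have g6 := hu b hb
    rw [hW, mem_filter]
    exact ⟨(hV b hb).1, by omega, by omega⟩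
  have huW' : ∀ b ∈ S, u' b ∈ W := by
    intro b hb
    obtain ⟨h1, h2, h3', h4, h5⟩ := hS b hb
    obtain ⟨hb1, hb2⟩ := hbase b hb
    have g1 := hmul (j b) b (4 * (δ + prd G N (3 * κ) b - κ - t)) (by omega)
    have g2 : (3 : ℤ) ^ (j b) * (4 * (δ + prd G N (3 * κ) b - κ - t))
      = 4 * (3 ^ (j b) * (δ + prd G N (3 * κ) b - κ - t)) := by ring
    have g3 := hmul (j b) (δ + b + κ + t) (2 * b) (by omega)
    have g4 : (3 : ℤ) ^ (j b) * (2 * b) = 2 * (3 ^ (j b) * b) := by ring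
    have g5 := hj b hb
    have g6 := hu' b hb
    rw [hW, mem_filter]
    exact ⟨(hV b hb).2, by omega, by omega⟩
  have hinj : ∀ i, Set.InjOn u (S.filter (fun b => j b = i) : Set ℤ) := by
    intro i
    refine injOn_of_sep (lo := fun b => 3 ^ i * (prd G N (3 * κ) b - t))
      (hi := fun b => 3 ^ i * (b + t)) ?_ ?_
    · intro b hb
      rw [mem_filter] at hb
      rw [← hb.2]
      exact hu b hb.1
    · intro b hb b₂ hb₂ hbb
      rw [mem_filter] at hb hb₂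
      have h5 := (isJ_prd (hS b hb.1).1).sep (isJ_prd (hS b₂ hb₂.1).1) hbb
      exact hmul _ _ _ (by omega)
  have hinj' : ∀ i, Set.InjOn u' (S.filter (fun b => j b = i) : Set ℤ) := by
    intro i
    refine injOn_of_sep (lo := fun b => 3 ^ i * (δ + prd G N (3 * κ) b - κ - t))
      (hi := fun b => 3 ^ i * (δ + b + κ + t)) ?_ ?_
    · intro b hb
      rw [mem_filter] at hb
      rw [← hb.2]
      exact hu' b hb.1
    · intro b hb b₂ hb₂ hbb
      rw [mem_filter] at hb hb₂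
      have h5 := (isJ_prd (hS b hb.1).1).sep (isJ_prd (hS b₂ hb₂.1).1) hbb
      exact hmul _ _ _ (by omega)
  set Ed : ℕ → Finset (ℤ × ℤ) := fun i => (S.filter (fun b => j b = i)).image (fun b => (u b, u' b))
    with hEd
  have hmemEd : ∀ i e, e ∈ Ed i ↔ ∃ b, (b ∈ S ∧ j b = i) ∧ (u b, u' b) = e := by
    intro i e
    simp only [hEd]
    rw [mem_image]
    constructor
    · rintro ⟨b, hb, rfl⟩
      rw [mem_filter] at hb
      exact ⟨b, hb, rfl⟩
    · rintro ⟨b, hb, rfl⟩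
      exact ⟨b, by rw [mem_filter]; exact hb, rfl⟩
  have hgraph := graph (δ := |δ|) (by omega) (cntV G N t c₀ (9 * X)) (S.image j) Ed ?_ ?_ ?_
    (cntV G N t c₀ (9 * X)) W hWM le_rfl
  · unfold gM
    refine le_trans ?_ hgraph
    rw [card_eq_sum_card_image j S]
    apply sum_le_sum
    intro i _
    have h5 : (S.filter (fun b => j b = i)).card = (Ed i).card := by
      symm
      apply card_image_of_injOn
      intro a ha b hb hab
      exact hinj i ha hb (congrArg Prod.fst hab)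
    rw [h5]
    apply card_le_card
    intro e he
    rw [mem_edg]
    refine ⟨he, ?_⟩
    rw [hmemEd] at he
    obtain ⟨b, hb, rfl⟩ := he
    exact ⟨huW b hb.1, huW' b hb.1⟩
  · intro i _ e he
    rw [hmemEd] at he
    obtain ⟨b, ⟨hb, rfl⟩, rfl⟩ := he
    obtain ⟨hb1, hb2⟩ := hbase b hb
    obtain ⟨g1, g2⟩ := hu b hb
    obtain ⟨g3, g4⟩ := hu' b hb
    have g5 := hmul (j b) (b - prd G N (3 * κ) b + κ + 2 * t) L (by omega)
    have g6 := hmul (j b) (6 * L) |δ| hδ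
    have e1 : (3 : ℤ) ^ (j b) * (6 * L) = 6 * (3 ^ (j b) * L) := by ring
    have e2 : (3 : ℤ) ^ (j b) * (δ + b + κ + t) - 3 ^ (j b) * (prd G N (3 * κ) b - t)
        = 3 ^ (j b) * δ + 3 ^ (j b) * (b - prd G N (3 * κ) b + κ + 2 * t) := by ring
    have e3 : (3 : ℤ) ^ (j b) * (b + t) - 3 ^ (j b) * (δ + prd G N (3 * κ) b - κ - t)
        = - (3 ^ (j b) * δ) + 3 ^ (j b) * (b - prd G N (3 * κ) b + κ + 2 * t) := by ring
    have g7 : 3 ^ (j b) * |δ| = |3 ^ (j b) * δ| := by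
      rw [abs_mul, abs_of_pos (h3 (j b))]
    have g8 : |u' b - u b - 3 ^ (j b) * δ| ≤ 3 ^ (j b) * L := by
      rw [abs_le]; constructor <;> omega
    have g9 : 0 < 3 ^ (j b) * |δ| := by
      have := h3 (j b)
      have : 0 < |δ| := by omega
      positivity
    show 3 ^ (j b) * |δ| ≤ 2 * |u' b - u b| ∧ |u' b - u b| ≤ 2 * (3 ^ (j b) * |δ|)
    have g10 : |3 ^ (j b) * δ| ≤ |u' b - u b| + |u' b - u b - 3 ^ (j b) * δ| := by
      have := abs_sub_abs_le_abs_sub (3 ^ (j b) * δ) (u' b - u b)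
      rw [abs_sub_comm (3 ^ (j b) * δ)] at this
      linarith
    have g11 : |u' b - u b| ≤ |3 ^ (j b) * δ| + |u' b - u b - 3 ^ (j b) * δ| := by
      have := abs_sub_abs_le_abs_sub (u' b - u b) (3 ^ (j b) * δ)
      linarith
    constructor <;> omega
  · intro i _ e he e' he' hee
    rw [mem_coe, hmemEd] at he he'
    obtain ⟨b, hb, rfl⟩ := he
    obtain ⟨b₂, hb₂, rfl⟩ := he'
    have h5 : b = b₂ := hinj i (by rw [mem_coe, mem_filter]; exact hb)
      (by rw [mem_coe, mem_filter]; exact hb₂) hee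
    rw [h5]
  · intro i _ e he e' he' hee
    rw [mem_coe, hmemEd] at he he'
    obtain ⟨b, hb, rfl⟩ := he
    obtain ⟨b₂, hb₂, rfl⟩ := he'
    have h5 : b = b₂ := hinj' i (by rw [mem_coe, mem_filter]; exact hb)
      (by rw [mem_coe, mem_filter]; exact hb₂) hee
    rw [h5]

end DChg
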