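import Pool.Agent.DChg.Step

set_option autoImplicit false

/-!
The number of breaks of a period in the digits of `√2`.
-/

open Finset Sqrt2Digits SqrtFrob Filter

namespace DChg

lemma log_three_gt : (1 : ℝ) < Real.log 3 := by
  rw [Real.lt_log_iff_exp_lt (by norm_num)]
  have := Real.exp_one_lt_d9
  linarith

lemma natLog_le (b n : ℕ) : (Nat.log b n : ℝ) ≤ Real.log n / Real.log b := Real.natLog_le_logb n b

theorem step2 (A B : ℕ) (hA : 1 ≤ A) : ∃ C : ℝ, 0 < C ∧ ∀ᶠ ℓ : ℕ in atTop,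
    1 ≤ Real.log ℓ ∧ ∃ h K : ℕ, 1000 * (A * ℓ ^ B) ^ 4 ≤ 3 ^ h ∧ 3 ≤ K ∧ h * (K + 2) ≤ ℓ ∧
      16 * (Lam (A * ℓ ^ B) : ℝ) * (ℓ : ℝ) ^ 2
        ≤ C * Real.log ℓ ^ 4 * (((K - 2) * (K - 1) : ℕ) : ℝ) := by
  set C₁ : ℝ := 4 * B + 1004 with hC₁
  set C₂ : ℝ := 2 + 4 * (B + 5) ^ 2 with hC₂
  have hC₁0 : 0 < C₁ := by positivity
  have hC₂0 : 0 < C₂ := by positivity
  refine ⟨64 * C₁ ^ 2 * C₂, by positivity, ?_⟩
  have hlog : ∀ᶠ ℓ : ℕ in atTop, 10 * C₁ * Real.log ℓ ≤ ℓ := by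
    have h1 := Real.isLittleO_log_id_atTop.comp_tendsto (tendsto_natCast_atTop_atTop (R := ℝ))
    have h2 := h1.bound (show (0 : ℝ) < 1 / (10 * C₁) by positivity)
    filter_upwards [h2, eventually_ge_atTop 1] with ℓ h3 h4
    simp only [Function.comp_apply, id, Real.norm_eq_abs] at h3
    have h5 : |(ℓ : ℝ)| = ℓ := abs_of_nonneg (by positivity)
    rw [h5] at h3
    have h6 := (le_abs_self (Real.log ℓ)).trans h3
    calc 10 * C₁ * Real.log ℓ ≤ 10 * C₁ * (1 / (10 * C₁) * ℓ) := by gcongr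
      _ = ℓ := by field_simp
  have hlog1 : ∀ᶠ ℓ : ℕ in atTop, 1 ≤ Real.log ℓ :=
    (Real.tendsto_log_atTop.comp tendsto_natCast_atTop_atTop).eventually_ge_atTop 1
  filter_upwards [hlog, hlog1, eventually_ge_atTop A] with ℓ h1 h2 h3
  refine ⟨h2, ?_⟩
  set x : ℝ := Real.log ℓ with hx
  set E : ℕ := A * ℓ ^ B with hE
  have hℓ1 : 1 ≤ ℓ := by omega
  have hE1 : 1 ≤ E := Nat.mul_pos hA (Nat.pow_pos hℓ1)
  have hℓ0 : (0 : ℝ) < ℓ := by exact_mod_cast hℓ1
  have hE0 : (0 : ℝ) < E := by exact_mod_cast hE1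
  have hlogE : Real.log E ≤ (B + 1) * x := by
    have h4 : (E : ℝ) ≤ (ℓ : ℝ) ^ (B + 1) := by
      have : E ≤ ℓ ^ (B + 1) := by
        rw [hE, pow_succ, mul_comm]; exact Nat.mul_le_mul_left _ h3
      exact_mod_cast this
    calc Real.log E ≤ Real.log ((ℓ : ℝ) ^ (B + 1)) := Real.log_le_log hE0 h4
      _ = _ := by rw [Real.log_pow]; push_cast; ring
  have hlogE0 : 0 ≤ Real.log E := Real.log_nonneg (by exact_mod_cast hE1)
  set h : ℕ := Nat.log 3 (1000 * E ^ 4) + 1 with hh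
  have hB0 : (0 : ℝ) ≤ B := by positivity
  have hhle : (h : ℝ) ≤ C₁ * x := by
    have h4 := natLog_le 3 (1000 * E ^ 4)
    have h5 : Real.log ((1000 * E ^ 4 : ℕ) : ℝ) ≤ 999 + 4 * ((B + 1) * x) := by
      push_cast
      rw [Real.log_mul (by norm_num) (by positivity), Real.log_pow]
      have h6 := Real.log_le_sub_one_of_pos (show (0 : ℝ) < 1000 by norm_num)
      push_cast
      linarith
    have h6 : Real.log ((1000 * E ^ 4 : ℕ) : ℝ) / Real.log (3 : ℕ) ≤ 999 + 4 * ((B + 1) * x) := by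
      have h7 := log_three_gt
      push_cast at h5 ⊢
      rw [div_le_iff₀ (by linarith)]
      have h8 : 0 ≤ 999 + 4 * ((B + 1) * x) := by positivity
      nlinarith
    rw [hh]
    push_cast at h4 h6 ⊢
    rw [hC₁]
    nlinarith
  have hLam : (Lam E : ℝ) ≤ C₂ * x ^ 2 := by
    have h4 := natLog_le 3 (4 * E)
    have h5 := natLog_le 2 E
    have h6 : (Nat.log 3 (4 * E) : ℝ) ≤ 3 + (B + 1) * x := by
      refine h4.trans ?_
      have h7 := log_three_gt
      have h8 : Real.log ((4 * E : ℕ) : ℝ) ≤ 3 + (B + 1) * x := by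
        push_cast
        rw [Real.log_mul (by norm_num) (by positivity)]
        have h6 := Real.log_le_sub_one_of_pos (show (0 : ℝ) < 4 by norm_num)
        linarith
      push_cast at h8 ⊢
      rw [div_le_iff₀ (by linarith)]
      have h9 : 0 ≤ 3 + ((B + 1) * x) := by positivity
      nlinarith
    have h7 : (Nat.log 2 E : ℝ) ≤ 2 * ((B + 1) * x) := by
      refine h5.trans ?_
      have h8 := Real.log_two_gt_d9
      push_cast
      rw [div_le_iff₀ (by linarith)]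
      nlinarith
    have h8 : (Lam E : ℝ) = 2 + 2 * ((Nat.log 3 (4 * E) : ℝ) + 1) * (Nat.log 2 E : ℝ) := by
      unfold Lam; push_cast; ring
    rw [h8]
    have h9 : ((Nat.log 3 (4 * E) : ℝ) + 1) ≤ (B + 5) * x := by nlinarith
    have h10 : (Nat.log 2 E : ℝ) ≤ 2 * ((B + 5) * x) := by nlinarith
    have h11 : ((Nat.log 3 (4 * E) : ℝ) + 1) * (Nat.log 2 E : ℝ)
        ≤ ((B + 5) * x) * (2 * ((B + 5) * x)) := mul_le_mul h9 h10 (by positivity) (by positivity)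
    rw [hC₂]
    nlinarith
  -- the number `K`
  have hx0 : 0 < x := by linarith
  set y : ℝ := ℓ / (C₁ * x) with hy
  have hy10 : 10 ≤ y := by
    rw [hy, le_div_iff₀ (by positivity)]
    linarith
  have hh0 : 0 < h := by omega
  have hh0' : (0 : ℝ) < h := by exact_mod_cast hh0
  have hdiv : y < ((ℓ / h : ℕ) : ℝ) + 1 := by
    have h4 : ℓ < h * (ℓ / h + 1) := Nat.lt_mul_div_succ ℓ hh0
    have h5 : (ℓ : ℝ) < h * (((ℓ / h : ℕ) : ℝ) + 1) := by exact_mod_cast h4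
    have h6 : y ≤ ℓ / h := by
      rw [hy]
      exact div_le_div_of_nonneg_left hℓ0.le hh0' hhle
    refine h6.trans_lt ?_
    rw [div_lt_iff₀ hh0']
    linarith
  set K : ℕ := ℓ / h - 2 with hK
  have hK8 : 10 ≤ ℓ / h := by
    by_contra hcon
    push Not at hcon
    have h4 : ((ℓ / h : ℕ) : ℝ) + 1 ≤ 10 := by
      have : ℓ / h + 1 ≤ 10 := by omega
      exact_mod_cast this
    linarith
  refine ⟨h, K, (Nat.lt_pow_succ_log_self (by norm_num) _).le, by omega, ?_, ?_⟩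
  · have h4 : K + 2 = ℓ / h := by omega
    rw [h4]
    exact Nat.mul_div_le ℓ h
  · have h4 : y / 2 ≤ ((K - 2 : ℕ) : ℝ) := by
      have h5 : K - 2 + 4 = ℓ / h := by omega
      have h6 : ((K - 2 : ℕ) : ℝ) + 4 = ((ℓ / h : ℕ) : ℝ) := by exact_mod_cast h5
      linarith
    have h5 : y / 2 ≤ ((K - 1 : ℕ) : ℝ) := by
      have h6 : ((K - 2 : ℕ) : ℝ) ≤ ((K - 1 : ℕ) : ℝ) := by exact_mod_cast (by omega : K - 2 ≤ K - 1)
      linarith
    have h6 : (y / 2) * (y / 2) ≤ ((K - 2 : ℕ) : ℝ) * ((K - 1 : ℕ) : ℝ) :=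
      mul_le_mul h4 h5 (by positivity) (by positivity)
    have h7 : (ℓ : ℝ) = C₁ * x * y := by
      rw [hy]; field_simp
    push_cast
    calc 16 * (Lam E : ℝ) * (ℓ : ℝ) ^ 2 ≤ 16 * (C₂ * x ^ 2) * (ℓ : ℝ) ^ 2 := by gcongr
      _ = 64 * C₁ ^ 2 * C₂ * x ^ 4 * ((y / 2) * (y / 2)) := by rw [h7]; ring
      _ ≤ _ := by gcongr

theorem digit_changes (m : ℕ) (hm : 0 < m) : ∃ c : ℝ, 0 < c ∧ ∀ᶠ N : ℕ in atTop,
    c * Real.log N ^ 2 / Real.log (Real.log N) ^ 4 ≤ (brk m N : ℝ) := by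
  obtain ⟨A, B, Q, hA, hB, hQ, hstep⟩ := step1 m hm
  obtain ⟨C, hC, hev⟩ := step2 A B (by omega)
  set C' : ℝ := max C 1 with hC'
  have hC'0 : 0 < C' := lt_of_lt_of_le hC (le_max_left _ _)
  refine ⟨1 / (16 * C'), by positivity, ?_⟩
  have hdiv : Tendsto (fun N : ℕ => N / Q) atTop atTop := Nat.tendsto_div_const_atTop (by omega)
  have hnlog : Tendsto (fun M : ℕ => Nat.log 3 M) atTop atTop := by
    rw [tendsto_atTop]
    intro b
    filter_upwards [eventually_ge_atTop (3 ^ b)] with M hM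
    exact Nat.le_log_of_pow_le (by norm_num) hM
  have htend : Tendsto (fun N : ℕ => Nat.log 3 (N / Q)) atTop atTop := hnlog.comp hdiv
  have hlogN : Tendsto (fun N : ℕ => Real.log N) atTop atTop :=
    Real.tendsto_log_atTop.comp tendsto_natCast_atTop_atTop
  filter_upwards [htend.eventually hev, htend.eventually_ge_atTop 1,
    hlogN.eventually_ge_atTop (2 * Real.log Q + 4)] with N h1 h2 h3
  set ℓ : ℕ := Nat.log 3 (N / Q) with hℓ
  obtain ⟨hx1, h, K, g1, g2, g3, g4⟩ := h1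
  set x : ℝ := Real.log ℓ with hx
  have hM0 : N / Q ≠ 0 := by
    intro h0
    rw [hℓ, h0] at h2
    simp at h2
  have hpow : 3 ^ ℓ ≤ N / Q := Nat.pow_log_le_self 3 hM0
  have hN1 : 1 ≤ N := by
    by_contra hcon
    have : N = 0 := by omega
    rw [this] at hM0
    simp at hM0
  have hN0 : (0 : ℝ) < N := by exact_mod_cast hN1
  have hℓ0 : (0 : ℝ) < ℓ := by exact_mod_cast h2
  have hQ0 : (0 : ℝ) < Q := by exact_mod_cast (by omega : 0 < Q)
  -- `ℓ ≤ log N`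
  have hℓle : (ℓ : ℝ) ≤ Real.log N := by
    have h4 : 3 ^ ℓ ≤ N := hpow.trans (Nat.div_le_self _ _)
    have h5 : ((3 : ℝ) ^ ℓ) ≤ N := by exact_mod_cast h4
    have h6 := Real.log_le_log (by positivity) h5
    rw [Real.log_pow] at h6
    have := log_three_gt
    nlinarith
  -- `log N ≤ 4 ℓ`
  have hℓge : Real.log N ≤ 4 * ℓ := by
    have h4 : N / Q < 3 ^ (ℓ + 1) := Nat.lt_pow_succ_log_self (by norm_num) _
    have h5 : N < Q * 3 ^ (ℓ + 1) := by
      have h6 := Nat.lt_mul_div_succ N (show 0 < Q by omega)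
      exact h6.trans_le (Nat.mul_le_mul_left _ h4)
    have h6 : (N : ℝ) ≤ Q * (3 : ℝ) ^ (ℓ + 1) := by exact_mod_cast h5.le
    have h7 := Real.log_le_log hN0 h6
    rw [Real.log_mul (by positivity) (by positivity), Real.log_pow] at h7
    have h8 : Real.log 3 ≤ 2 := by
      have := Real.log_le_sub_one_of_pos (show (0 : ℝ) < 3 by norm_num)
      linarith
    have h9 : ((ℓ + 1 : ℕ) : ℝ) * Real.log 3 ≤ ((ℓ + 1 : ℕ) : ℝ) * 2 := by gcongr
    push_cast at h7 h9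
    linarith
  have hlogN1 : 0 ≤ Real.log N := hℓ0.le.trans hℓle
  have hxle : x ≤ Real.log (Real.log N) := Real.log_le_log hℓ0 hℓle
  -- the main inequality
  have hmain : (ℓ : ℝ) ^ 2 ≤ C' * x ^ 4 * brk m N := by
    by_cases hb : brk m N < ℓ ^ 2
    · have h4 := hstep N ℓ h K rfl h2 hb g1 g2 g3
      have h5 : (((K - 2) * (K - 1) : ℕ) : ℝ) ≤ 16 * (Lam (A * ℓ ^ B) : ℝ) * brk m N := by
        exact_mod_cast h4
      have hLam0 : (0 : ℝ) < 16 * (Lam (A * ℓ ^ B) : ℝ) := by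
        have : 0 < Lam (A * ℓ ^ B) := by unfold Lam; omega
        positivity
      have h6 : 16 * (Lam (A * ℓ ^ B) : ℝ) * (ℓ : ℝ) ^ 2
          ≤ 16 * (Lam (A * ℓ ^ B) : ℝ) * (C' * x ^ 4 * brk m N) := by
        calc 16 * (Lam (A * ℓ ^ B) : ℝ) * (ℓ : ℝ) ^ 2
            ≤ C * x ^ 4 * (((K - 2) * (K - 1) : ℕ) : ℝ) := g4
          _ ≤ C' * x ^ 4 * (16 * (Lam (A * ℓ ^ B) : ℝ) * brk m N) := by
              gcongr
              exact le_max_left _ _
          _ = _ := by ring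
      exact le_of_mul_le_mul_left h6 hLam0
    · push Not at hb
      have h4 : (ℓ : ℝ) ^ 2 ≤ brk m N := by exact_mod_cast hb
      have h5 : (1 : ℝ) ≤ C' * x ^ 4 := by
        have h6 : (1 : ℝ) ≤ x ^ 4 := one_le_pow₀ hx1
        have h7 : (1 : ℝ) ≤ C' := le_max_right _ _
        nlinarith
      have h6 : (0 : ℝ) ≤ brk m N := by positivity
      nlinarith
  have hy0 : 0 < Real.log (Real.log N) := by linarith
  rw [div_le_iff₀ (by positivity)]
  have h4 : Real.log N ^ 2 ≤ 16 * (ℓ : ℝ) ^ 2 := by nlinarith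
  have h5 : C' * x ^ 4 * brk m N ≤ C' * Real.log (Real.log N) ^ 4 * brk m N := by
    have : 0 ≤ x := by linarith
    gcongr
  calc 1 / (16 * C') * Real.log N ^ 2 ≤ 1 / (16 * C') * (16 * (ℓ : ℝ) ^ 2) := by gcongr
    _ = (ℓ : ℝ) ^ 2 / C' := by field_simp
    _ ≤ (C' * Real.log (Real.log N) ^ 4 * brk m N) / C' := by
        gcongr
        exact hmain.trans h5
    _ = _ := by field_simp

end DChg
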