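import Pool.Agent.DChg.Arith
import Pool.Agent.DChg.Defs

set_option autoImplicit false

/-!
The combinatorial input for the digits of `√2`.
-/

open Finset PowerSeries Sqrt2Digits SqrtFrob

namespace DChg

/-- The residues modulo `3`. -/
noncomputable def Gd (n : ℤ) : ZMod 3 := if n < 0 then 0 else ((pre fs n.toNat : ℤ) : ZMod 3)

lemma Gd_nat (n : ℕ) : Gd n = ((pre fs n : ℤ) : ZMod 3) := by
  unfold Gd
  rw [if_neg (by omega), Int.toNat_natCast]

lemma z11 : ((10 : ℤ) : ZMod 3) = 1 := by decide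

lemma Gd_sub (n : ℕ) : Gd n - Gd ((n : ℤ) - 1) = ((fs n : ℤ) : ZMod 3) := by
  cases n with
  | zero =>
    rw [Gd_nat]
    unfold Gd
    rw [if_pos (by norm_num), sub_zero]
    rfl
  | succ n =>
    rw [show ((n + 1 : ℕ) : ℤ) - 1 = (n : ℤ) by push_cast; ring, Gd_nat, Gd_nat, pre_succ']
    rw [Int.cast_add, Int.cast_mul, z11]
    ring

lemma card_int_le {N : ℕ} {P : ℤ → Prop} {Q : ℕ → Prop} [DecidablePred P] [DecidablePred Q]
    (h : ∀ n : ℕ, P n → Q n) :
    ((Ico (0 : ℤ) N).filter P).card ≤ ((range N).filter Q).card := by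
  refine card_le_card_of_injOn Int.toNat ?_ ?_
  · intro n hn
    rw [mem_coe, mem_filter, mem_Ico] at hn
    rw [mem_coe, mem_filter, mem_range]
    refine ⟨by omega, h _ ?_⟩
    rw [Int.toNat_of_nonneg hn.1.1]
    exact hn.2
  · intro a ha b hb hab
    rw [mem_coe, mem_filter, mem_Ico] at ha hb
    omega

lemma sum_Icc_int (n : ℕ) (F : ℤ → ZMod 3) :
    ∑ i ∈ Icc (0 : ℤ) n, F i = ∑ i ∈ range (n + 1), F (i : ℤ) := by
  apply sum_nbij' Int.toNat (fun i : ℕ => (i : ℤ))
  · intro i hi; rw [mem_Icc] at hi; rw [mem_range]; omega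
  · intro i hi; rw [mem_range] at hi; rw [mem_Icc]; omega
  · intro i hi; rw [mem_Icc] at hi; exact Int.toNat_of_nonneg hi.1
  · intro i _; exact Int.toNat_natCast i
  · intro i hi; rw [mem_Icc] at hi; rw [Int.toNat_of_nonneg hi.1]

theorem hyp_Gd {N E : ℕ} (h1 : lam fs N ≤ E) (h2 : cnt Tf N ≤ E) (h3 : cnt (Tf * cf) N ≤ E) :
    DChg.Hyp Gd N E := by
  refine ⟨fun n hn => by unfold Gd; rw [if_pos hn], ?_, ?_, ?_⟩
  · refine le_trans (card_int_le (Q := fun k => fs k ≠ 0) ?_) h1
    intro n hn h0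
    apply hn
    have := Gd_sub n
    rw [h0, Int.cast_zero] at this
    exact sub_eq_zero.1 this
  · refine le_trans (card_int_le (Q := fun k => coeff k (Tf * cf) ≠ 0) ?_) h3
    intro n hn h0
    apply hn
    have h4 := frob3 (uu_mul_pre fs) (uu_mul_TT 1 2 fs) n
    have h5 : PowerSeries.mk (TT 1 0 2 fs) * PowerSeries.mk fs = Tf * cf := rfl
    rw [h5, h0, Int.cast_zero, coeff_mk, coeff_mk] at h4
    have h6 : ((n : ℤ) / 3) = ((n / 3 : ℕ) : ℤ) := by push_cast; rfl
    rw [h6, Gd_nat, Gd_nat]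
    linear_combination h4
  · refine le_trans (card_int_le (Q := fun k => coeff k Tf ≠ 0) ?_) h2
    intro n hn h0
    apply hn
    rw [sum_Icc_int]
    have h4 : ∑ i ∈ range (n + 1), (Gd (i : ℤ) - Gd ((i : ℤ) - 1)) * Gd ((n : ℤ) - i)
        = ((conv fs n : ℤ) : ZMod 3) := by
      unfold conv
      rw [Int.cast_sum]
      apply sum_congr rfl
      intro i hi
      rw [mem_range] at hi
      rw [Gd_sub, show (n : ℤ) - i = ((n - i : ℕ) : ℤ) by omega, Gd_nat, Int.cast_mul]
    rw [h4]
    have h5 : TT 1 0 2 fs n = 0 := by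
      simpa [Tf] using h0
    unfold TT at h5
    have h6 : conv fs n = 10 ^ n * 2 := by linarith
    rw [h6, Int.cast_mul, Int.cast_pow, z11, one_pow, one_mul]
    rfl

/-- The number of exceptional blocks. -/
noncomputable def XB (m N : ℕ) : ℕ :=
  ((range N).filter (fun n => m ≤ n ∧ (∃ j < m, digit (n - j) ≠ 0) ∧
        (∃ j < m, digit (n - j) ≠ 9))).card

lemma lam_fs_le (m : ℕ) (hm : 0 < m) (N : ℕ) : lam fs N ≤ m + XB m N + brk m (N + 1) := by
  unfold lam
  have hsub : (range N).filter (fun k => fs k ≠ 0) ⊆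
      (range m ∪ (range N).filter (fun n => m ≤ n ∧ (∃ j < m, digit (n - j) ≠ 0) ∧
        (∃ j < m, digit (n - j) ≠ 9))) ∪
      (range N).filter (fun k => m ≤ k + 1 ∧ digit (k + 1) ≠ digit (k + 1 - m)) := by
    intro k hk
    rw [mem_filter, mem_range] at hk
    rw [mem_union, mem_union, mem_filter, mem_filter, mem_range, mem_range]
    by_cases h1 : k < m
    · exact Or.inl (Or.inl h1)
    by_cases h2 : (∃ j < m, digit (k - j) ≠ 0) ∧ (∃ j < m, digit (k - j) ≠ 9)
    · exact Or.inl (Or.inr ⟨hk.1, by omega, h2⟩)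
    right
    refine ⟨hk.1, by omega, ?_⟩
    have h3 : ∃ b, (b = 0 ∨ b = 9) ∧ ∀ j < m, digit (k - j) = b := by
      rw [not_and_or] at h2
      push Not at h2
      rcases h2 with h2 | h2
      · exact ⟨0, Or.inl rfl, h2⟩
      · exact ⟨9, Or.inr rfl, h2⟩
    obtain ⟨b, hb, hb2⟩ := h3
    have h4 : digit k = b := by simpa using hb2 0 hm
    have h5 : digit (k + 1 - m) = b := by
      have := hb2 (m - 1) (by omega)
      rwa [show k - (m - 1) = k + 1 - m by omega] at this
    rw [h5, ← h4]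
    apply fs_ne k hk.2
    rw [h4]; exact hb
  have h2 : ((range N).filter (fun k => m ≤ k + 1 ∧ digit (k + 1) ≠ digit (k + 1 - m))).card
      ≤ brk m (N + 1) := by
    unfold brk
    refine card_le_card_of_injOn (fun k => k + 1) ?_ ?_
    · intro k hk
      rw [mem_coe, mem_filter, mem_range] at hk
      rw [mem_coe, mem_filter, mem_range]
      exact ⟨Nat.succ_lt_succ hk.1, hk.2⟩
    · intro a _ b _ hab
      exact Nat.succ_injective hab
  have h3 := card_le_card hsub
  have h4 := card_union_le (range m ∪ (range N).filter (fun n => m ≤ n ∧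
    (∃ j < m, digit (n - j) ≠ 0) ∧ (∃ j < m, digit (n - j) ≠ 9)))
    ((range N).filter (fun k => m ≤ k + 1 ∧ digit (k + 1) ≠ digit (k + 1 - m)))
  have h5 := card_union_le (range m) ((range N).filter (fun n => m ≤ n ∧
    (∃ j < m, digit (n - j) ≠ 0) ∧ (∃ j < m, digit (n - j) ≠ 9)))
  rw [card_range] at h5
  unfold XB
  omega

/-- A long interval without `m`-breaks. -/
lemma no_break {m a b N : ℕ} (hm : 0 < m) (hbN : b ≤ N) (hab : a + (XB m N + m + 1) ≤ b)
    (hno : ∀ k, a ≤ k → k < b → m ≤ k → digit k = digit (k - m)) :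
    ∀ k, a ≤ k → k + 1 < b → fs k = 0 := by
  -- a good block
  have hex : ∃ n, a ≤ n ∧ n < b ∧ m ≤ n ∧ ¬ ((∃ j < m, digit (n - j) ≠ 0) ∧
        (∃ j < m, digit (n - j) ≠ 9)) := by
    by_contra hcon
    push Not at hcon
    have hsub : Ico (a + m) b ⊆ (range N).filter (fun n => m ≤ n ∧ (∃ j < m, digit (n - j) ≠ 0) ∧
        (∃ j < m, digit (n - j) ≠ 9)) := by
      intro n hn
      rw [mem_Ico] at hn
      rw [mem_filter, mem_range]
      exact ⟨by omega, by omega, hcon n (by omega) (by omega) (by omega)⟩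
    have h1 := card_le_card hsub
    rw [Nat.card_Ico] at h1
    unfold XB at hab
    omega
  obtain ⟨n, hn1, hn2, hn3, hn4⟩ := hex
  have h3 : ∃ b, (b = 0 ∨ b = 9) ∧ ∀ j < m, digit (n - j) = b := by
    rw [not_and_or] at hn4
    push Not at hn4
    rcases hn4 with h2 | h2
    · exact ⟨0, Or.inl rfl, h2⟩
    · exact ⟨9, Or.inr rfl, h2⟩
  obtain ⟨v, hv, hv2⟩ := h3
  have hup : ∀ k, n + 1 - m ≤ k → k < b → digit k = v := by
    intro k
    induction k using Nat.strong_induction_on with
    | _ k ih =>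
      intro h1 h2
      by_cases h4 : k ≤ n
      · have := hv2 (n - k) (by omega)
        rwa [show n - (n - k) = k by omega] at this
      · rw [hno k (by omega) h2 (by omega)]
        exact ih (k - m) (by omega) (by omega) (by omega)
  have hdown : ∀ d k, n = k + d → a ≤ k → digit k = v := by
    intro d
    induction d using Nat.strong_induction_on with
    | _ d ih =>
      intro k h1 h2
      by_cases h4 : d < m
      · have := hv2 d h4
        rwa [show n - d = k by omega] at this
      · have h5 := hno (k + m) (by omega) (by omega) (by omega)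
        rw [Nat.add_sub_cancel] at h5
        rw [← h5]
        exact ih (d - m) (by omega) (k + m) (by omega) (by omega)
  have hall : ∀ k, a ≤ k → k < b → digit k = v := by
    intro k h1 h2
    rcases le_total k n with h4 | h4
    · exact hdown (n - k) k (by omega) h1
    · exact hup k (by omega) h2
  intro k h1 h2
  by_contra hne
  apply fs_ne k hne
  · rw [hall k h1 (by omega)]; exact hv
  · rw [hall k h1 (by omega), hall (k + 1) (by omega) h2]

end DChg
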