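import Pool.Agent.DChg.MainIneq
import Pool.Agent.DChg.Exist
import Pool.Agent.DChg.Cnt

set_option autoImplicit false

/-!
The numbers of essential jumps at the resolutions `3^(h(K-k)) D`.
-/

open Finset

namespace DChg

variable {G : ℤ → ZMod 3} {N D c₀ : ℤ} {E h K : ℕ}

/-- The resolutions. -/
def thr (h K : ℕ) (D : ℤ) (k : ℕ) : ℤ := 3 ^ (h * (K - k)) * D

/-- The numbers of essential jumps. -/
noncomputable def lev (G : ℤ → ZMod 3) (N D c₀ : ℤ) (h K k : ℕ) : ℕ :=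
  cntV G N (thr h K D k) c₀ (9 * thr h K D 0)

/-- The parameters. -/
structure Par (G : ℤ → ZMod 3) (N D c₀ : ℤ) (E h K : ℕ) : Prop where
  hyp : Hyp G N E
  E1 : 1 ≤ E
  NE : N ≤ 3 ^ E
  D1 : 2 * E + 1 ≤ D
  hh : 1000 * (E : ℤ) ^ 4 ≤ 3 ^ h
  K1 : 1 ≤ K
  XN : 27 * thr h K D 0 ≤ N
  c₀lo : thr h K D 0 ≤ 60 * (E * c₀)
  c₀hi : 30 * (E * c₀) ≤ thr h K D 0
  c₀c : ∀ k, c₀ - 2 * thr h K D 1 ≤ k → k ≤ c₀ + 2 * thr h K D 1 → G k = G c₀

lemma thr_sub {k i : ℕ} (hk : k ≤ K) (hi : i ≤ k) : thr h K D (k - i) = 3 ^ (h * i) * thr h K D k := by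
  unfold thr
  rw [← mul_assoc, ← pow_add, ← mul_add]
  congr 3
  omega

lemma thr_zero {k : ℕ} (hk : k ≤ K) : thr h K D 0 = 3 ^ (h * k) * thr h K D k := by
  have := thr_sub (h := h) (D := D) hk le_rfl
  rwa [Nat.sub_self] at this

lemma Par.E1' (P : Par G N D c₀ E h K) : (1 : ℤ) ≤ E := by exact_mod_cast P.E1

lemma Par.Dpos (P : Par G N D c₀ E h K) : 0 < D := by have := P.D1; omega

lemma Par.D_le (P : Par G N D c₀ E h K) (k : ℕ) : D ≤ thr h K D k := by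
  unfold thr
  have h1 : (1 : ℤ) ≤ 3 ^ (h * (K - k)) := one_le_pow₀ (by norm_num)
  have := P.Dpos
  nlinarith

lemma Par.anti (P : Par G N D c₀ E h K) {k k' : ℕ} (hk : k ≤ k') (hk' : k' ≤ K) :
    thr h K D k' ≤ thr h K D k := by
  have h1 := thr_sub (h := h) (D := D) hk' (Nat.sub_le k' k)
  rw [show k' - (k' - k) = k by omega] at h1
  rw [h1]
  have h2 : (1 : ℤ) ≤ 3 ^ (h * (k' - k)) := one_le_pow₀ (by norm_num)
  have h3 := P.D_le k'
  have := P.Dpos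
  nlinarith

lemma Par.hh1 (P : Par G N D c₀ E h K) : 1000 ≤ (3 : ℤ) ^ h := by
  have h1 := P.hh
  have h2 : (1 : ℤ) ≤ (E : ℤ) ^ 4 := one_le_pow₀ P.E1'
  linarith

lemma Par.X_ge (P : Par G N D c₀ E h K) {k : ℕ} (hk1 : 1 ≤ k) (hk : k ≤ K) :
    1000 * ((E : ℤ) ^ 4 * thr h K D k) ≤ thr h K D 0 := by
  rw [thr_zero hk]
  have h1 : (3 : ℤ) ^ h ≤ 3 ^ (h * k) := by
    apply pow_le_pow_right₀ (by norm_num)
    exact Nat.le_mul_of_pos_right _ hk1
  have h2 := P.hh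
  have h3 := P.D_le k
  have h4 := P.Dpos
  calc 1000 * ((E : ℤ) ^ 4 * thr h K D k) = (1000 * (E : ℤ) ^ 4) * thr h K D k := by ring
    _ ≤ 3 ^ (h * k) * thr h K D k := mul_le_mul_of_nonneg_right (h2.trans h1) (by linarith)

lemma Par.X_ge2 (P : Par G N D c₀ E h K) {k : ℕ} (hk1 : 2 ≤ k) (hk : k ≤ K) :
    1000000 * ((E : ℤ) ^ 4 * thr h K D k) ≤ thr h K D 0 := by
  rw [thr_zero hk]
  have h1 : (3 : ℤ) ^ h * 3 ^ h ≤ 3 ^ (h * k) := by
    rw [← pow_add]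
    apply pow_le_pow_right₀ (by norm_num)
    calc h + h = h * 2 := by ring
      _ ≤ h * k := Nat.mul_le_mul_left _ hk1
  have h2 := P.hh
  have h2' := P.hh1
  have h3 := P.D_le k
  have h4 := P.Dpos
  have h5 : 1000000 * (E : ℤ) ^ 4 ≤ 3 ^ h * 3 ^ h := by
    have : (1000 : ℤ) * (1000 * (E : ℤ) ^ 4) ≤ 3 ^ h * 3 ^ h :=
      mul_le_mul h2' h2 (by positivity) (by positivity)
    linarith
  calc 1000000 * ((E : ℤ) ^ 4 * thr h K D k) = (1000000 * (E : ℤ) ^ 4) * thr h K D k := by ring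
    _ ≤ 3 ^ (h * k) * thr h K D k := mul_le_mul_of_nonneg_right (h5.trans h1) (by linarith)

lemma Par.c₀pos (P : Par G N D c₀ E h K) : 0 < c₀ := by
  have h1 := P.c₀lo
  have h2 := P.D_le 0
  have h3 := P.Dpos
  have h4 := P.E1'
  by_contra hcon
  push Not at hcon
  have : (E : ℤ) * c₀ ≤ 0 := by nlinarith
  linarith

lemma Par.c₀X (P : Par G N D c₀ E h K) : 30 * c₀ ≤ thr h K D 0 := by
  have h1 := P.c₀hi
  have h2 := P.c₀pos
  have h4 := P.E1'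
  nlinarith

lemma Par.thr1X (P : Par G N D c₀ E h K) : 1000 * thr h K D 1 ≤ thr h K D 0 := by
  have h1 := P.X_ge le_rfl P.K1
  have h2 : (1 : ℤ) ≤ (E : ℤ) ^ 4 := one_le_pow₀ P.E1'
  have h3 := P.D_le 1
  have h4 := P.Dpos
  nlinarith

lemma Par.pt (P : Par G N D c₀ E h K) {k : ℕ} (hk1 : 1 ≤ k) (hk : k ≤ K) :
    Pt G N (thr h K D k) c₀ := by
  have h1 := P.anti hk1 hk
  have h2 := P.c₀pos
  have h3 := P.c₀X
  have h4 := P.thr1X
  have h5 := P.D_le k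
  have h6 := P.Dpos
  have h7 := P.XN
  exact ⟨c₀, h2.le, le_rfl, by omega, by omega, fun k hk1 hk2 => P.c₀c k (by omega) (by omega)⟩

lemma Par.mono (P : Par G N D c₀ E h K) {k k' : ℕ} (hk1 : 1 ≤ k) (hk : k ≤ k') (hk' : k' ≤ K) :
    lev G N D c₀ h K k ≤ lev G N D c₀ h K k' := by
  unfold lev
  have h5 := P.D_le k'
  have h6 := P.Dpos
  exact cnt_mono (by omega) (P.anti hk hk') (P.pt hk1 (hk.trans hk'))

/-- Elementary inequalities. -/
lemma pow_ineq {e t : ℤ} (he : 1 ≤ e) (ht : 1 ≤ t) :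
    t ≤ e * t ∧ e * t ≤ e ^ 2 * t ∧ e ^ 2 * t ≤ e ^ 3 * t ∧ e ^ 3 * t ≤ e ^ 4 * t ∧ e ≤ e * t := by
  refine ⟨by nlinarith, ?_, ?_, ?_, by nlinarith⟩
  · have : 0 < e * t := by positivity
    nlinarith
  · have : 0 < e ^ 2 * t := by positivity
    nlinarith
  · have : 0 < e ^ 3 * t := by positivity
    nlinarith

lemma Par.exj (P : Par G N D c₀ E h K) {k : ℕ} (hk1 : 1 ≤ k) (hk : k ≤ K) :
    ∃ q₀ ∈ V G N (thr h K D k), thr h K D 0 < 3 * q₀ ∧ q₀ ≤ 3 * thr h K D 0 := by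
  have h1 := P.X_ge hk1 hk
  have h5 := P.D_le k
  have h6 := P.Dpos
  have h7 := P.XN
  obtain ⟨g1, g2, g3, g4, g5⟩ := pow_ineq P.E1' (t := thr h K D k) (by omega)
  obtain ⟨u, hu1, hu2, hu3⟩ := exist_jump (t := thr h K D k) P.hyp P.E1 (by omega) P.NE
    (X := thr h K D 0 / 3) (by omega) (by omega)
  exact ⟨u, hu1, by omega, by omega⟩

lemma Par.pos (P : Par G N D c₀ E h K) {k : ℕ} (hk1 : 1 ≤ k) (hk : k ≤ K) :
    1 ≤ lev G N D c₀ h K k := by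
  obtain ⟨u, hu1, hu2, hu3⟩ := P.exj hk1 hk
  have h1 := P.c₀X
  have h2 := P.c₀pos
  unfold lev cntV
  rw [Nat.one_le_iff_ne_zero, ← Nat.pos_iff_ne_zero, card_pos]
  exact ⟨u, by rw [mem_filter]; exact ⟨hu1, by omega, by omega⟩⟩

lemma Par.hK_le (P : Par G N D c₀ E h K) : h * K ≤ E := by
  have h1 := P.XN
  have h2 := P.NE
  have h3 := P.Dpos
  have h4 : (3 : ℤ) ^ (h * K) ≤ thr h K D 0 := by
    unfold thr
    rw [Nat.sub_zero]
    nlinarith [pow_pos (by norm_num : (0 : ℤ) < 3) (h * K)]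
  have h5 := P.D_le 0
  have h6 : (3 : ℤ) ^ (h * K) ≤ 3 ^ E := by linarith
  have h7 : 3 ^ (h * K) ≤ 3 ^ E := by exact_mod_cast h6
  exact (Nat.pow_le_pow_iff_right (by norm_num)).1 h7

open Classical in
/-- The sum of the counts scaled down. -/
lemma Par.down_sum (P : Par G N D c₀ E h K) {t : ℤ} (ht : 1 ≤ t) {k : ℕ} (hk : k ≤ K)
    (hcond : 2 * (((E : ℤ) ^ 2 + 1) * t + 2) + 1 ≤ 3 ^ (2 * h) * thr h K D k)
    (I : Finset ℕ) (hI : ∀ i ∈ I, i + 3 ≤ k) :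
    ∑ i ∈ I, lev G N D c₀ h K (k - i - 2)
      ≤ ((V G N t).filter (fun v => ∃ i ∈ I, c₀ < 3 ^ (h * i) * v ∧
        3 ^ (h * i) * v ≤ 10 * thr h K D 0)).card := by
  set W : ℕ → Finset ℤ := fun i => (V G N t).filter (fun v => c₀ < 3 ^ (h * i) * v ∧
    3 ^ (h * i) * v ≤ 10 * thr h K D 0) with hW
  have hc₀ := P.c₀pos
  have hc₀X := P.c₀X
  have h1X := P.thr1X
  have hXN := P.XN
  have hE1 := P.E1'
  have hDp := P.Dpos
  have hunion : (V G N t).filter (fun v => ∃ i ∈ I, c₀ < 3 ^ (h * i) * v ∧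
        3 ^ (h * i) * v ≤ 10 * thr h K D 0) = I.biUnion W := by
    ext v
    simp only [hW, mem_filter, mem_biUnion]
    constructor
    · rintro ⟨h1, i, hi, h2⟩; exact ⟨i, hi, h1, h2⟩
    · rintro ⟨i, hi, h1, h2⟩; exact ⟨h1, i, hi, h2⟩
  have hlt : ∀ i i' v, i < i' → v ∈ W i → v ∈ W i' → False := by
    intro i i' v hii h1 h2
    simp only [hW, mem_filter] at h1 h2
    have h3 : (3 : ℤ) ^ (h * i') = 3 ^ (h * (i' - i)) * 3 ^ (h * i) := by
      rw [← pow_add, ← mul_add]; congr 2; omega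
    have h4 : (3 : ℤ) ^ h ≤ 3 ^ (h * (i' - i)) := by
      apply pow_le_pow_right₀ (by norm_num)
      exact Nat.le_mul_of_pos_right _ (by omega)
    have h5 := P.hh
    have h6 : 1000 * (E : ℤ) ≤ 3 ^ (h * (i' - i)) := by
      have : (E : ℤ) ≤ E ^ 4 := by
        calc (E : ℤ) = E ^ 1 := (pow_one _).symm
          _ ≤ E ^ 4 := pow_le_pow_right₀ hE1 (by norm_num)
      linarith
    have h7 : (3 : ℤ) ^ (h * i') * v = 3 ^ (h * (i' - i)) * (3 ^ (h * i) * v) := by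
      rw [h3]; ring
    have h8 : 1000 * (E : ℤ) * c₀ ≤ 3 ^ (h * (i' - i)) * (3 ^ (h * i) * v) :=
      mul_le_mul h6 h1.2.1.le hc₀.le (by positivity)
    have h9 := P.c₀lo
    have h10 := P.D_le 0
    have h11 : (1000 : ℤ) * E * c₀ = 1000 * (E * c₀) := by ring
    omega
  rw [hunion, card_biUnion]
  · apply sum_le_sum
    intro i hi
    have hik := hI i hi
    set t' := thr h K D (k - i - 2) with ht'
    have h1 : t' = 3 ^ (h * i) * (3 ^ (2 * h) * thr h K D k) := by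
      rw [ht', show k - i - 2 = k - (i + 2) by omega, thr_sub hk (by omega), ← mul_assoc, ← pow_add]
      congr 2
      ring
    have h2 : t' ≤ thr h K D 1 := P.anti (by omega) (by omega)
    have h3 := P.D_le (k - i - 2)
    rw [← ht'] at h3
    have h4 : (0 : ℤ) < 3 ^ (h * i) := by positivity
    have h5 : h * i ≤ E := le_trans (Nat.mul_le_mul_left _ (by omega)) P.hK_le
    have h6 : 3 ^ (h * i) * (((E : ℤ) * (h * i : ℕ) + 1) * t + 2) ≤ t' / 2 := by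
      have h7 : ((h * i : ℕ) : ℤ) ≤ E := by exact_mod_cast h5
      have h8 : ((E : ℤ) * (h * i : ℕ) + 1) * t ≤ ((E : ℤ) ^ 2 + 1) * t := by
        apply mul_le_mul_of_nonneg_right _ (by omega)
        nlinarith
      have h9 : 3 ^ (h * i) * (((E : ℤ) * (h * i : ℕ) + 1) * t + 2)
          ≤ 3 ^ (h * i) * (((E : ℤ) ^ 2 + 1) * t + 2) := mul_le_mul_of_nonneg_left (by linarith) h4.le
      have h10 : 3 ^ (h * i) * (2 * (((E : ℤ) ^ 2 + 1) * t + 2) + 1) ≤ t' := by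
        rw [h1]; exact mul_le_mul_of_nonneg_left hcond h4.le
      have h11 : 3 ^ (h * i) * (2 * (((E : ℤ) ^ 2 + 1) * t + 2) + 1)
          = 2 * (3 ^ (h * i) * (((E : ℤ) ^ 2 + 1) * t + 2)) + 3 ^ (h * i) := by ring
      omega
    have h7 := down_count (G := G) (N := N) P.hyp.scl ht (h * i) (t' := t') (l := t' / 2) (c₀ := c₀)
      (A := 9 * thr h K D 0) (R := 2 * thr h K D 1) (by omega) (by omega) h6 hc₀.le (by omega)
      P.c₀c (by omega) (by omega)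
    unfold lev
    rw [← ht']
    refine h7.trans (card_le_card ?_)
    intro v hv
    rw [mem_filter] at hv
    simp only [hW, mem_filter]
    exact ⟨hv.1, hv.2.1, by omega⟩
  · intro i _ i' _ hne
    rw [Function.onFun, disjoint_left]
    intro v hv hv'
    rcases Nat.lt_or_gt_of_ne hne with h1 | h1
    · exact hlt i i' v h1 hv hv'
    · exact hlt i' i v h1 hv' hv

end DChg
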