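import Pool.Agent.DChg.Fiber3

set_option autoImplicit false

/-!
The main inequality.
-/

open Finset

namespace DChg

variable {G : ℤ → ZMod 3} {N t : ℤ} {E : ℕ}

theorem main_ineq {κ L X c₀ c q₀ Y₁ : ℤ} (hyp : Hyp G N E) (h : Num N t κ L X c₀ E)
    (hκ : 4 * ((E : ℤ) ^ 2 * t) ≤ κ) (hY₁ : 45 * (E * Y₁) ≤ X)
    (hcpt : Pt G N t c) (hcX : X ≤ 12 * c) (hc7 : 7 * c ≤ X)
    (hcL : ∀ k, c - L ≤ k → k ≤ c + L → G k = G c)
    (hq₀ : q₀ ∈ V G N t) (hq1 : X < 3 * q₀) (hq3 : q₀ ≤ 3 * X)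
    (hiso : ∀ q ∈ V G N t, c₀ < q → q ≤ 9 * X → q ≠ q₀ → 6 * L ≤ |q₀ - q|) :
    cntV G N (3 * κ) (4 * L) Y₁ ≤ (2 * cntV G N t c₀ (9 * X) + gM (cntV G N t c₀ (9 * X)))
      * cntV G N t c₀ (9 * X) := by
  classical
  obtain ⟨hE1, ht3, hκ7, hκL, hLeq, hc₀X, htX, h2t⟩ := h.ineq
  have htE := h.t1
  have htκ := h.tκ
  have hXN := h.XN
  have hLX := h.LX
  have ht1 : 1 ≤ t := by omega
  have hJ : (Jset G N).card ≤ E := hyp.jmp
  have hZ : (Zset G N).card ≤ E := hyp.scl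
  set B : Finset ℤ := (V G N (3 * κ)).filter (fun b => 4 * L < b ∧ b ≤ Y₁) with hB
  have hBc : cntV G N (3 * κ) (4 * L) Y₁ = B.card := by unfold cntV; rfl
  set W : Finset ℤ := (V G N t).filter (fun v => c₀ < v ∧ v ≤ 9 * X) with hW
  have hWM : cntV G N t c₀ (9 * X) = W.card := by unfold cntV; rfl
  have hch : ∀ b ∈ B, ∃ q ∈ V G N t, c < q ∧ q < q₀ + b + κ ∧ q ≠ q₀ ∧
      (κ ≤ q₀ - q + prd G N (3 * κ) b → ∃ p' b', IsJ G N t p' b' ∧
        q₀ - q + prd G N (3 * κ) b - κ < p' ∧ b' < q₀ - q + b + κ) := by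
    intro b hb
    rw [hB, mem_filter] at hb
    obtain ⟨hb1, hb2, hb3⟩ := hb
    have h1 := (isJ_prd hb1).extent hJ (by omega)
    have hEY : Y₁ ≤ E * Y₁ := by nlinarith
    exact pick hyp h.E1 ht1 hκ ((isJ_prd hb1).jd (by omega)) (by omega) (by omega) hcL hcpt hq₀
      (by omega) (by omega)
  choose! q hqV hcq hqb hqne hqp using hch
  have hmaps : ∀ b ∈ B, q b ∈ W := by
    intro b hb
    have h1 := hcq b hb
    have h2 := hqb b hb
    have h3 := hqV b hb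
    rw [hB, mem_filter] at hb
    have hEY : Y₁ ≤ E * Y₁ := by nlinarith
    rw [hW, mem_filter]
    exact ⟨h3, by omega, by omega⟩
  rw [hBc, hWM]
  apply card_le_mul_card_image_of_maps_to hmaps
  intro w hw
  rw [← hWM]
  set S : Finset ℤ := B.filter (fun b => q b = w) with hS
  rcases S.eq_empty_or_nonempty with h0 | ⟨b₀, hb₀⟩
  · rw [h0]; simp
  have hwne : w ≠ q₀ := by
    rw [hS, mem_filter] at hb₀
    rw [← hb₀.2]; exact hqne b₀ hb₀.1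
  rw [hW, mem_filter] at hw
  have hδ := hiso w hw.1 hw.2.1 hw.2.2 hwne
  set δ := q₀ - w with hδdef
  have habs1 := le_abs_self δ
  have habs2 := neg_le_abs δ
  have hSprop : ∀ b ∈ S, b ∈ V G N (3 * κ) ∧ 4 * L < b ∧ b ≤ Y₁ ∧ - δ < b + κ ∧ δ < q₀ ∧
      (κ ≤ δ + prd G N (3 * κ) b → ∃ p' b', IsJ G N t p' b' ∧
        δ + prd G N (3 * κ) b - κ < p' ∧ b' < δ + b + κ) := by
    intro b hb
    rw [hS, mem_filter] at hb
    obtain ⟨hb1, hb2⟩ := hb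
    have h1 := hcq b hb1
    have h2 := hqb b hb1
    have h3 := hqp b hb1
    rw [hB, mem_filter] at hb1
    rw [hb2] at h1 h2 h3
    have hc0 := hcpt.nonneg
    exact ⟨hb1.1, hb1.2.1, hb1.2.2, by omega, by omega, h3⟩
  set S₁ := S.filter (fun b => 3 * b ≤ δ) with hS₁
  set S₂ := S.filter (fun b => |δ| < 3 * b ∧ b ≤ 3 * |δ|) with hS₂
  set S₃ := S.filter (fun b => 3 * |δ| < b) with hS₃
  have hsub : S ⊆ S₁ ∪ S₂ ∪ S₃ := by
    intro b hb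
    rw [mem_union, mem_union]
    obtain ⟨h1, h2, h3, h4, h5, h6⟩ := hSprop b hb
    rcases le_or_gt (3 * b) δ with h7 | h7
    · exact Or.inl (Or.inl (mem_filter.2 ⟨hb, h7⟩))
    · rcases lt_or_ge (3 * |δ|) b with h8 | h8
      · exact Or.inr (mem_filter.2 ⟨hb, h8⟩)
      · refine Or.inl (Or.inr (mem_filter.2 ⟨hb, ?_, h8⟩))
        rcases abs_cases δ with ⟨h9, _⟩ | ⟨h9, _⟩ <;> omega
  have hc1 : S₁.card ≤ cntV G N t c₀ (9 * X) := by
    rcases S₁.eq_empty_or_nonempty with h1 | ⟨b₁, hb₁⟩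
    · rw [h1]; simp
    · rw [hS₁, mem_filter] at hb₁
      obtain ⟨g1, g2, g3, g4, g5, g6⟩ := hSprop b₁ hb₁.1
      have hδpos : |δ| = δ := abs_of_nonneg (by omega)
      refine fiber_one h hJ hZ δ (by omega) (by omega) S₁ ?_
      intro b hb
      rw [hS₁, mem_filter] at hb
      obtain ⟨g1, g2, g3, g4, g5, g6⟩ := hSprop b hb.1
      exact ⟨g1, g2, hb.2, g6⟩
  have hc2 : S₂.card ≤ cntV G N t c₀ (9 * X) := by
    refine fiber_two h hJ hZ |δ| Y₁ hδ hY₁ S₂ ?_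
    intro b hb
    rw [hS₂, mem_filter] at hb
    obtain ⟨g1, g2, g3, g4, g5, g6⟩ := hSprop b hb.1
    exact ⟨g1, g2, g3, hb.2.1, hb.2.2⟩
  have hc3 : S₃.card ≤ gM (cntV G N t c₀ (9 * X)) := by
    refine fiber_three h hJ hZ δ Y₁ hδ hY₁ S₃ ?_
    intro b hb
    rw [hS₃, mem_filter] at hb
    obtain ⟨g1, g2, g3, g4, g5, g6⟩ := hSprop b hb.1
    exact ⟨g1, g2, g3, hb.2, g6⟩
  have h7 := card_le_card hsub
  have h8 := card_union_le (S₁ ∪ S₂) S₃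
  have h9 := card_union_le S₁ S₂
  omega

end DChg
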