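import Pool.Agent.DChg.Scale

set_option autoImplicit false

/-!
Jumps scaled up and down.
-/

open Finset

namespace DChg

variable {G : ℤ → ZMod 3} {N t : ℤ} {E : ℕ}

/-- A jump between `p` and `q` with plateaus of length `l` on both sides. -/
def JD (G : ℤ → ZMod 3) (l p q : ℤ) : Prop :=
  p < q ∧ l ≤ p + 1 ∧ (∀ k, p - l < k → k ≤ p → G k = G p) ∧
    (∀ k, q ≤ k → k < q + l → G k = G q) ∧ G p ≠ G q

lemma IsJ.jd {p u l : ℤ} (h : IsJ G N t p u) (hl : l ≤ t) : JD G l p u := by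
  obtain ⟨h1, h2⟩ := h.left
  obtain ⟨h3, h4⟩ := h.right
  exact ⟨h.lt, by omega, fun k hk1 hk2 => h2 k (by omega) hk2,
    fun k hk1 hk2 => h4 k hk1 (by omega), h.ne⟩

lemma neg_one_pow_mul_ne (j : ℕ) {a b : ZMod 3} (h : a ≠ b) : (-1) ^ j * a ≠ (-1) ^ j * b := by
  intro h1
  apply h
  have h2 : ((-1 : ZMod 3) ^ j * (-1) ^ j) = 1 := by rw [← mul_pow]; simp
  calc a = ((-1 : ZMod 3) ^ j * (-1) ^ j) * a := by rw [h2, one_mul]
    _ = (-1) ^ j * ((-1) ^ j * a) := by ring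
    _ = (-1) ^ j * ((-1) ^ j * b) := by rw [h1]
    _ = ((-1 : ZMod 3) ^ j * (-1) ^ j) * b := by ring
    _ = b := by rw [h2, one_mul]

lemma up_jump (hJ : (Jset G N).card ≤ E) (hZ : (Zset G N).card ≤ E) (ht : 1 ≤ t) (j : ℕ)
    {p q l : ℤ} (h : JD G l p q) (hl : E ≤ l) (hl2 : 2 * (E * t) < 3 ^ j * l)
    (hN : 3 ^ j * (q + l) + t ≤ N) :
    ∃ u ∈ V G N t, 3 ^ j * (p - l + 1) < u ∧ u < 3 ^ j * (q + l) := by
  obtain ⟨hpq, hpl, hp, hq, hne⟩ := h
  have h3 : (0 : ℤ) < 3 ^ j := by positivity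
  have hl0 : (0 : ℤ) ≤ l := le_trans (by positivity) hl
  have h1 : (3 : ℤ) ^ j * (p - l + 1 + l) ≤ 3 ^ j * (q + l) :=
    mul_le_mul_of_nonneg_left (by omega) h3.le
  obtain ⟨k₁, h11, h12, h13, h14⟩ := up hJ hZ ht j (x := p - l + 1) (l := l) (by omega) hl hl2
    (by omega) (g := G p) (fun k hk1 hk2 => hp k (by omega) (by omega))
  obtain ⟨k₂, h21, h22, h23, h24⟩ := up hJ hZ ht j (x := q) (l := l) (by omega) hl hl2
    (by omega) (g := G q) hq
  have h2 : (3 : ℤ) ^ j * (p - l + 1 + l) ≤ 3 ^ j * q :=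
    mul_le_mul_of_nonneg_left (by omega) h3.le
  obtain ⟨p', u, hu1, hu2, hu3⟩ := change h13 h23 (by omega)
    (by rw [h14, h24]; exact neg_one_pow_mul_ne j hne)
  have := hu1.lt
  exact ⟨u, mem_V.2 ⟨p', hu1⟩, by omega, by omega⟩

lemma down_jump (hZ : (Zset G N).card ≤ E) (ht : 1 ≤ t) (j : ℕ)
    {p q l : ℤ} (h : JD G l p q) (hN : q + l ≤ N)
    (hl : 3 ^ j * (((E : ℤ) * j + 1) * t + 2) ≤ l) :
    ∃ u ∈ V G N t, p - l + 1 < 3 ^ j * u ∧ 3 ^ j * u < q + l := by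
  obtain ⟨hpq, hpl, hp, hq, hne⟩ := h
  have h3 : (0 : ℤ) < 3 ^ j := by positivity
  have hl0 : (0 : ℤ) ≤ l := le_trans (by positivity) hl
  obtain ⟨y₁, h11, h12, h13, h14⟩ := down hZ ht j (x := p - l + 1) (l := l) (by omega) (by omega) hl
    (g := G p) (fun k hk1 hk2 => hp k (by omega) (by omega))
  obtain ⟨y₂, h21, h22, h23, h24⟩ := down hZ ht j (x := q) (l := l) (by omega) hN hl
    (g := G q) hq
  have h2 : (3 : ℤ) ^ j * y₁ < 3 ^ j * y₂ := by omega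
  have h4 : y₁ < y₂ := lt_of_mul_lt_mul_left h2 h3.le
  obtain ⟨p', u, hu1, hu2, hu3⟩ := change h13 h23 h4.le
    (by rw [h14, h24]; exact neg_one_pow_mul_ne j hne)
  have h5 := hu1.lt
  have h6 : (3 : ℤ) ^ j * y₁ < 3 ^ j * u := mul_lt_mul_of_pos_left (by omega) h3
  have h7 : (3 : ℤ) ^ j * u ≤ 3 ^ j * y₂ := mul_le_mul_of_nonneg_left hu3 h3.le
  exact ⟨u, mem_V.2 ⟨p', hu1⟩, by omega, by omega⟩

/-- Scaling into `(X/3, X]`. -/
lemma exists_scale {b X : ℤ} (hb : 0 < b) (hbX : b ≤ X) :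
    ∃ j : ℕ, 3 ^ j * b ≤ X ∧ X < 3 * (3 ^ j * b) := by
  have hex : ∃ j : ℕ, X < 3 * (3 ^ j * b) := by
    refine ⟨X.toNat, ?_⟩
    have h1 : X.toNat < 3 ^ X.toNat := Nat.lt_pow_self (by norm_num)
    have h2 : (X.toNat : ℤ) < 3 ^ X.toNat := by exact_mod_cast h1
    have h3 : X ≤ X.toNat := Int.self_le_toNat X
    nlinarith [pow_pos (by norm_num : (0 : ℤ) < 3) X.toNat]
  classical
  refine ⟨Nat.find hex, ?_, Nat.find_spec hex⟩
  by_cases h0 : Nat.find hex = 0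
  · rw [h0]; simpa using hbX
  · have h1 := Nat.find_min hex (m := Nat.find hex - 1) (by omega)
    push Not at h1
    obtain ⟨d, hd⟩ : ∃ d, Nat.find hex = d + 1 := ⟨Nat.find hex - 1, by omega⟩
    rw [hd] at h1 ⊢
    rw [pow_succ]
    have : d + 1 - 1 = d := by omega
    rw [this] at h1
    linarith

/-- A strictly separated choice is injective. -/
lemma injOn_of_sep {S : Finset ℤ} {φ lo hi : ℤ → ℤ} (h1 : ∀ s ∈ S, lo s < φ s ∧ φ s < hi s)
    (h2 : ∀ s ∈ S, ∀ s' ∈ S, s < s' → hi s ≤ lo s') : Set.InjOn φ (S : Set ℤ) := by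
  intro a ha b hb hab
  rw [mem_coe] at ha hb
  rcases lt_trichotomy a b with h | h | h
  · have := h2 a ha b hb h
    have := h1 a ha
    have := h1 b hb
    omega
  · exact h
  · have := h2 b hb a ha h
    have := h1 a ha
    have := h1 b hb
    omega

open Classical in
/-- The number of jumps in `(Y, 2Y]`. -/
lemma count_dyadic (hJ : (Jset G N).card ≤ E) (hZ : (Zset G N).card ≤ E) (hE : 1 ≤ E)
    (ht : 2 * E + 1 ≤ t) {X c₀ Y : ℤ} (hc₀ : 0 ≤ c₀) (hc₀X : 30 * (E * c₀) ≤ X)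
    (hXN : 10 * X ≤ N) (htX : t ≤ X) (hY : 2 * ((E + 1) * t) ≤ Y) (hYX : 2 * Y ≤ 9 * X) :
    ((V G N t).filter (fun u => Y < u ∧ u ≤ 2 * Y)).card ≤ cntV G N t c₀ (9 * X) := by
  have hE1 : (1 : ℤ) ≤ E := by exact_mod_cast hE
  have ht1 : 1 ≤ t := by omega
  unfold cntV
  rcases le_or_gt c₀ Y with h | h
  · apply card_le_card
    intro u hu
    rw [mem_filter] at hu ⊢
    exact ⟨hu.1, by omega, by omega⟩
  · have hY0 : 0 < Y := by nlinarith
    have hYX' : Y ≤ X := by nlinarith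
    obtain ⟨j, hj1, hj2⟩ := exists_scale hY0 hYX'
    have h3 : (0 : ℤ) < 3 ^ j := by positivity
    have hj3 : 10 * (E : ℤ) < 3 ^ j := by
      have h4 : 30 * (E * Y) ≤ 30 * (E * c₀) := by nlinarith
      have h5 : 10 * (E : ℤ) * Y < 3 ^ j * Y := by linarith
      exact lt_of_mul_lt_mul_right h5 hY0.le
    set l : ℤ := t / 2 with hl
    have hl1 : 2 * l ≤ t := by omega
    have hl2 : (E : ℤ) ≤ l := by omega
    have hl3 : t ≤ 2 * l + 1 := by omega
    have hchoice : ∀ u ∈ (V G N t).filter (fun u => Y < u ∧ u ≤ 2 * Y),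
        ∃ v ∈ V G N t, 3 ^ j * (prd G N t u - l + 1) < v ∧ v < 3 ^ j * (u + l) := by
      intro u hu
      rw [mem_filter] at hu
      apply up_jump hJ hZ ht1 j ((isJ_prd hu.1).jd (by omega)) hl2
      · nlinarith
      · have h4 : 3 ^ j * (u + l) ≤ 3 ^ j * (3 * Y) := mul_le_mul_of_nonneg_left (by nlinarith) h3.le
        nlinarith
    choose! φ hφ1 hφ2 using hchoice
    refine card_le_card_of_injOn φ ?_ ?_
    · intro u hu
      rw [mem_coe] at hu
      have h4 := hφ1 u hu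
      have h5 := hφ2 u hu
      rw [mem_filter] at hu
      rw [mem_coe, mem_filter]
      refine ⟨h4, ?_, ?_⟩
      · have h6 := (isJ_prd hu.1).extent hJ ht1
        have h7 : 3 ^ j * Y ≤ 3 ^ j * (2 * (prd G N t u - l + 1)) :=
          mul_le_mul_of_nonneg_left (by nlinarith) h3.le
        nlinarith
      · have h4 : 3 ^ j * (u + l) ≤ 3 ^ j * (3 * Y) := mul_le_mul_of_nonneg_left (by nlinarith) h3.le
        nlinarith
    · refine injOn_of_sep (lo := fun u => 3 ^ j * (prd G N t u - l + 1))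
        (hi := fun u => 3 ^ j * (u + l)) hφ2 ?_
      intro u hu u' hu' huu
      rw [mem_filter] at hu hu'
      have h4 := (isJ_prd hu.1).sep (isJ_prd hu'.1) huu
      exact mul_le_mul_of_nonneg_left (by omega) h3.le

end DChg
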