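import Pool.Agent.DChg.Star
import Pool.Agent.DChg.UpMap

set_option autoImplicit false

/-!
The choice of a second jump.
-/

open Finset

namespace DChg

variable {G : ℤ → ZMod 3} {N t : ℤ} {E : ℕ}

/-- The exceptions to the square identity. -/
noncomputable def SqEx (G : ℤ → ZMod 3) (N : ℤ) : Finset ℤ :=
  (Ico 0 N).filter (fun n => ∑ i ∈ Icc 0 n, (G i - G (i - 1)) * G (n - i) ≠ 2)

/-- `n` is good: the square identity holds at `n`, and `n - i` is a point for every jump `i`. -/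
def Good (G : ℤ → ZMod 3) (N t n : ℤ) : Prop :=
  ∑ i ∈ Icc 0 n, (G i - G (i - 1)) * G (n - i) = 2 ∧
    ∀ i, 0 ≤ i → i ≤ n → G i ≠ G (i - 1) → Pt G N t (n - i)

lemma exists_good (hyp : Hyp G N E) (hE : 1 ≤ E) (ht : 1 ≤ t) {x κ : ℤ} (hx : 0 ≤ x)
    (hκ : 4 * ((E : ℤ) ^ 2 * t) ≤ κ) (hxN : x + κ + t ≤ N) :
    ∃ n, x ≤ n ∧ n < x + κ ∧ Good G N t n := by
  classical
  have hE1 : (1 : ℤ) ≤ E := by exact_mod_cast hE
  have hJ : (Jset G N).card ≤ E := hyp.jmp
  have hS : (SqEx G N).card ≤ E := hyp.sq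
  set bad : Finset ℤ := SqEx G N ∪ (Jset G N).biUnion (fun i => (Junk G N t).image (fun k => k + i))
    with hbad
  have h1 : (bad.card : ℤ) ≤ E + E * (E * t) := by
    have h2 : bad.card ≤ E + E * (Junk G N t).card := by
      rw [hbad]
      refine (card_union_le _ _).trans (Nat.add_le_add hS ?_)
      refine card_biUnion_le.trans ?_
      refine (sum_le_sum fun i _ => card_image_le).trans ?_
      rw [sum_const, smul_eq_mul]
      exact Nat.mul_le_mul_right _ hJ
    have h3 := card_Junk_le hJ ht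
    have h4 : (bad.card : ℤ) ≤ E + E * (Junk G N t).card := by exact_mod_cast h2
    nlinarith
  have h2 : ((Ico x (x + κ)).card : ℤ) = κ := by
    rw [Int.card_Ico, Int.toNat_of_nonneg] <;> nlinarith
  have h3 : ¬ (Ico x (x + κ) ⊆ bad) := by
    intro hsub
    have h4 := card_le_card hsub
    have h5 : ((Ico x (x + κ)).card : ℤ) ≤ bad.card := by exact_mod_cast h4
    rw [h2] at h5
    have h6 : (E : ℤ) ≤ E ^ 2 * t := by nlinarith
    have h7 : (E : ℤ) * (E * t) = E ^ 2 * t := by ring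
    have h8 : 0 < (E : ℤ) ^ 2 * t := by positivity
    linarith
  rw [not_subset] at h3
  obtain ⟨n, hn1, hn2⟩ := h3
  rw [mem_Ico] at hn1
  rw [hbad, mem_union, not_or] at hn2
  refine ⟨n, hn1.1, hn1.2, ?_, ?_⟩
  · by_contra hno
    apply hn2.1
    unfold SqEx
    rw [mem_filter, mem_Ico]
    exact ⟨⟨by omega, by omega⟩, hno⟩
  · intro i hi0 hin hne
    by_contra hno
    apply hn2.2
    rw [mem_biUnion]
    refine ⟨i, ?_, ?_⟩
    · unfold Jset
      rw [mem_filter, mem_Ico]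
      exact ⟨⟨hi0, by omega⟩, hne⟩
    · rw [mem_image]
      exact ⟨n - i, mem_Junk.2 ⟨⟨by omega, by omega⟩, hno⟩, by ring⟩

lemma Good.pt {n u : ℤ} (h : Good G N t n) (ht : 1 ≤ t) (hu : u ∈ V G N t) (hun : u ≤ n) :
    Pt G N t (n - u) := by
  have h1 := V_jump hu ht
  unfold Jset at h1
  rw [mem_filter, mem_Ico] at h1
  exact h.2 u h1.1.1 hun h1.2

/-- The choice of a second jump. -/
lemma pick (hyp : Hyp G N E) (hE : 1 ≤ E) (ht : 1 ≤ t) {κ L c q₀ p b : ℤ}
    (hκ : 4 * ((E : ℤ) ^ 2 * t) ≤ κ)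
    (hb : JD G κ p b) (hbL : b + κ - (p - κ) ≤ L) (hbc : b + κ ≤ c)
    (hcL : ∀ k, c - L ≤ k → k ≤ c + L → G k = G c) (hcpt : Pt G N t c)
    (hq₀ : q₀ ∈ V G N t) (hcq₀ : 2 * c + κ ≤ q₀) (hN : q₀ + b + κ + t ≤ N) :
    ∃ q ∈ V G N t, c < q ∧ q < q₀ + b + κ ∧ q ≠ q₀ ∧
      (κ ≤ q₀ - q + p → ∃ p' b', IsJ G N t p' b' ∧ q₀ - q + p - κ < p' ∧ b' < q₀ - q + b + κ) := by
  classical
  obtain ⟨hpb, hpκ, hp, hbb, hne⟩ := hb
  have hκ0 : 0 < κ := by
    have hE1 : (1 : ℤ) ≤ E := by exact_mod_cast hE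
    have : 0 < (E : ℤ) ^ 2 * t := by positivity
    linarith
  have hq0 : 0 ≤ q₀ := by
    have := V_jump hq₀ ht
    unfold Jset at this
    rw [mem_filter, mem_Ico] at this
    exact this.1.1
  have hc0 := hcpt.nonneg
  obtain ⟨n₁, h11, h12, h13⟩ := exists_good hyp hE ht (x := q₀ + p - κ + 1) (κ := κ)
    (by omega) hκ (by omega)
  obtain ⟨n₂, h21, h22, h23⟩ := exists_good hyp hE ht (x := q₀ + b) (κ := κ)
    (by omega) hκ (by omega)
  have hs1 := star hyp.neg (by omega) hcpt h13.1 (fun i h1 h2 h3 _ => h13.2 i h1 h2 h3)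
  have hs2 := star hyp.neg (by omega) hcpt h23.1 (fun i h1 h2 h3 _ => h23.2 i h1 h2 h3)
  -- the difference
  have hdiff : ∑ u ∈ (V G N t).filter (fun u => c < u),
      (G u - G (prd G N t u)) * (Gam G c (n₂ - u) - Gam G c (n₁ - u)) = 0 := by
    have h1 : ∑ u ∈ (V G N t).filter (fun u => c < u),
      (G u - G (prd G N t u)) * (Gam G c (n₂ - u) - Gam G c (n₁ - u))
      = (G c * G c + ∑ u ∈ (V G N t).filter (fun u => c < u),
      (G u - G (prd G N t u)) * Gam G c (n₂ - u)) - (G c * G c + ∑ u ∈ (V G N t).filter (fun u => c < u),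
      (G u - G (prd G N t u)) * Gam G c (n₁ - u)) := by
      rw [add_sub_add_left_eq_sub, ← sum_sub_distrib]
      exact sum_congr rfl fun u _ => by ring
    rw [h1, hs1, hs2, sub_self]
  -- the term at `q₀`
  have hq₀mem : q₀ ∈ (V G N t).filter (fun u => c < u) := by
    rw [mem_filter]; exact ⟨hq₀, by omega⟩
  have hG1 : G (n₁ - q₀) = G p := hp _ (by omega) (by omega)
  have hG2 : G (n₂ - q₀) = G b := hbb _ (by omega) (by omega)
  have hterm : (G q₀ - G (prd G N t q₀)) * (Gam G c (n₂ - q₀) - Gam G c (n₁ - q₀)) ≠ 0 := by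
    apply mul_ne_zero
    · exact sub_ne_zero.2 (isJ_prd hq₀).ne.symm
    · unfold Gam
      rw [min_eq_right (by omega), min_eq_right (by omega), hG1, hG2]
      revert hne
      generalize G p = x
      generalize G b = y
      revert x y
      decide
  have hex : ∃ q ∈ (V G N t).filter (fun u => c < u), q ≠ q₀ ∧
      (G q - G (prd G N t q)) * (Gam G c (n₂ - q) - Gam G c (n₁ - q)) ≠ 0 := by
    by_contra hno
    push Not at hno
    rw [← add_sum_erase _ _ hq₀mem, sum_eq_zero (s := erase _ _), add_zero] at hdiff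
    · exact hterm hdiff
    · intro u hu
      rw [mem_erase] at hu
      exact hno u hu.2 hu.1
  obtain ⟨q, hqmem, hqne, hqterm⟩ := hex
  rw [mem_filter] at hqmem
  have hGam : Gam G c (n₂ - q) ≠ Gam G c (n₁ - q) := by
    intro h; apply hqterm; rw [h, sub_self, mul_zero]
  have hGch : G (n₂ - q) ≠ G (n₁ - q) := gam_change hcL (by omega) (by omega) hGam
  have hqn2 : q ≤ n₂ := by
    by_contra hcon
    push Not at hcon
    apply hGch
    rw [hyp.neg _ (by omega), hyp.neg _ (by omega)]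
  refine ⟨q, hqmem.1, hqmem.2, by omega, hqne, fun hκq => ?_⟩
  have hP1 := h13.pt ht hqmem.1 (by omega)
  have hP2 := h23.pt ht hqmem.1 (by omega)
  obtain ⟨p', b', h1, h2, h3⟩ := change hP1 hP2 (by omega) hGch.symm
  exact ⟨p', b', h1, by omega, by omega⟩

end DChg
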