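import Pool.Agent.DChg.Dicho

set_option autoImplicit false

/-!
The growth of the levels and the number of essential jumps.
-/

open Finset

namespace DChg

/-- The growth from the dichotomy. -/
lemma rec_growth (a : ℕ → ℕ) (K Λ : ℕ) (hΛ : 2 ≤ Λ) (hpos : ∀ k, 1 ≤ k → k ≤ K → 1 ≤ a k)
    (hd : ∀ k, 4 ≤ k → k ≤ K → a (k - 2) + 1 ≤ a k ∨ ∑ l ∈ Icc 1 (k - 3), a l ≤ Λ * a k * a k) :
    ∀ k, 1 ≤ k → k ≤ K → k ≤ 8 * Λ * a k := by
  intro k
  induction k using Nat.strong_induction_on with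
  | _ k ih =>
    intro hk1 hk
    rcases Nat.lt_or_ge (8 * Λ) k with h1 | h1
    · rcases hd k (by omega) hk with h2 | h2
      · have h3 := ih (k - 2) (by omega) (by omega) (by omega)
        have h4 : 8 * Λ * (a (k - 2) + 1) ≤ 8 * Λ * a k := Nat.mul_le_mul_left _ h2
        rw [mul_add] at h4
        omega
      · -- the sum is large
        have h3 : ∑ l ∈ Icc 1 (k - 3), l ≤ 8 * Λ * ∑ l ∈ Icc 1 (k - 3), a l := by
          rw [mul_sum]
          apply sum_le_sum
          intro l hl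
          rw [mem_Icc] at hl
          exact ih l (by omega) (by omega) (by omega)
        have h4 : ∀ n : ℕ, 2 * ∑ l ∈ Icc 1 n, l = n * (n + 1) := by
          intro n
          induction n with
          | zero => simp
          | succ n ih => rw [sum_Icc_succ_top (by omega), mul_add, ih]; ring
        have h5 := h4 (k - 3)
        have h6 : (k - 3) * (k - 3 + 1) ≤ 16 * Λ * (Λ * a k * a k) := by
          calc (k - 3) * (k - 3 + 1) = 2 * ∑ l ∈ Icc 1 (k - 3), l := h5.symm
            _ ≤ 2 * (8 * Λ * ∑ l ∈ Icc 1 (k - 3), a l) := Nat.mul_le_mul_left _ h3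
            _ ≤ 2 * (8 * Λ * (Λ * a k * a k)) :=
                Nat.mul_le_mul_left _ (Nat.mul_le_mul_left _ h2)
            _ = _ := by ring
        by_contra hcon
        push Not at hcon
        obtain ⟨m, rfl⟩ : ∃ m, k = m + 3 := ⟨k - 3, by omega⟩
        rw [Nat.add_sub_cancel] at h6
        have h7 : (8 * Λ * a (m + 3) + 1) * (8 * Λ * a (m + 3) + 1) ≤ (m + 3) * (m + 3) :=
          Nat.mul_le_mul hcon hcon
        nlinarith
    · have h2 := hpos k hk1 hk
      calc k ≤ 8 * Λ * 1 := by omega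
        _ ≤ 8 * Λ * a k := Nat.mul_le_mul_left _ h2

/-- The constant of the growth. -/
def Lam (E : ℕ) : ℕ := 2 + 2 * (Nat.log 3 (4 * E) + 1) * Nat.log 2 E

lemma gM_le {M E : ℕ} (h : M ≤ E) : (2 * M + gM M) * M ≤ Lam E * M * M := by
  have h1 : Nat.log 3 (4 * M) ≤ Nat.log 3 (4 * E) := Nat.log_mono_right (by omega)
  have h2 : Nat.log 2 M ≤ Nat.log 2 E := Nat.log_mono_right h
  have h3 : gM M ≤ 2 * (Nat.log 3 (4 * E) + 1) * Nat.log 2 E * M := by
    unfold gM
    calc 2 * (Nat.log 3 (4 * M) + 1) * (M * Nat.log 2 M)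
        ≤ 2 * (Nat.log 3 (4 * E) + 1) * (M * Nat.log 2 E) :=
          Nat.mul_le_mul (by omega) (Nat.mul_le_mul_left _ h2)
      _ = _ := by ring
  apply Nat.mul_le_mul_right
  unfold Lam
  calc 2 * M + gM M ≤ 2 * M + 2 * (Nat.log 3 (4 * E) + 1) * Nat.log 2 E * M := by omega
    _ = _ := by ring

variable {G : ℤ → ZMod 3} {N D c₀ : ℤ} {E h K : ℕ}

lemma Par.lev_le (P : Par G N D c₀ E h K) {k : ℕ} : lev G N D c₀ h K k ≤ E := by
  classical
  have h1 : (Jset G N).card ≤ E := P.hyp.jmp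
  refine le_trans ?_ h1
  unfold lev cntV
  apply card_le_card
  intro v hv
  rw [mem_filter] at hv
  exact V_jump hv.1 (by have := P.D_le k; have := P.Dpos; omega)

/-- The number of essential jumps at resolution `D`. -/
theorem Par.final (P : Par G N D c₀ E h K) (hK : 3 ≤ K) :
    (K - 2) * (K - 1) ≤ 16 * Lam E * (V G N D).card := by
  classical
  have hgrow := rec_growth (lev G N D c₀ h K) K (Lam E) (by unfold Lam; omega)
    (fun k h1 h2 => P.pos h1 h2) (fun k h1 h2 => (P.dicho h1 h2).imp id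
      (fun h3 => h3.trans (gM_le P.lev_le)))
  have hthrK : thr h K D K = D := by unfold thr; rw [Nat.sub_self, mul_zero, pow_zero, one_mul]
  have hDp := P.Dpos
  have hE1 := P.E1'
  have hsum := P.down_sum (t := D) (by omega) (k := K) le_rfl (by
    rw [hthrK]
    have h1 := P.hh
    have h2 := P.hh1
    have h3 : (1000 : ℤ) * (1000 * (E : ℤ) ^ 4) ≤ 3 ^ h * 3 ^ h :=
      mul_le_mul h2 h1 (by positivity) (by positivity)
    have h4 : (3 : ℤ) ^ (2 * h) = 3 ^ h * 3 ^ h := by rw [← pow_add]; congr 1; ring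
    have h5 : 1000000 * (E : ℤ) ^ 4 * D ≤ 3 ^ (2 * h) * D := by
      rw [h4]; exact mul_le_mul_of_nonneg_right (by linarith) hDp.le
    obtain ⟨g1, g2, g3, g4, g5⟩ := pow_ineq P.E1' (t := D) (by omega)
    have h6 : ((E : ℤ) ^ 2 + 1) * D = E ^ 2 * D + D := by ring
    have h7 : 1000000 * (E : ℤ) ^ 4 * D = 1000000 * (E ^ 4 * D) := by ring
    omega) (range (K - 2)) (by intro i hi; rw [mem_range] at hi; omega)
  have hrefl : ∑ i ∈ range (K - 2), lev G N D c₀ h K (K - i - 2)
      = ∑ l ∈ Icc 1 (K - 2), lev G N D c₀ h K l := by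
    apply sum_nbij' (fun i => K - i - 2) (fun l => K - l - 2)
    · intro i hi; rw [mem_range] at hi; rw [mem_Icc]; omega
    · intro i hi; rw [mem_Icc] at hi; rw [mem_range]; omega
    · intro i hi
      rw [mem_range] at hi
      show K - (K - i - 2) - 2 = i
      omega
    · intro i hi
      rw [mem_Icc] at hi
      show K - (K - i - 2) - 2 = i
      omega
    · intro i _; rfl
  rw [hrefl] at hsum
  have hV : ∑ l ∈ Icc 1 (K - 2), lev G N D c₀ h K l ≤ (V G N D).card :=
    hsum.trans (card_filter_le _ _)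
  have h3 : ∑ l ∈ Icc 1 (K - 2), l ≤ 8 * Lam E * ∑ l ∈ Icc 1 (K - 2), lev G N D c₀ h K l := by
    rw [mul_sum]
    apply sum_le_sum
    intro l hl
    rw [mem_Icc] at hl
    exact hgrow l (by omega) (by omega)
  have h4 : ∀ n : ℕ, 2 * ∑ l ∈ Icc 1 n, l = n * (n + 1) := by
    intro n
    induction n with
    | zero => simp
    | succ n ih => rw [sum_Icc_succ_top (by omega), mul_add, ih]; ring
  calc (K - 2) * (K - 1) = (K - 2) * ((K - 2) + 1) := by congr 1; omega
    _ = 2 * ∑ l ∈ Icc 1 (K - 2), l := (h4 _).symm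
    _ ≤ 2 * (8 * Lam E * ∑ l ∈ Icc 1 (K - 2), lev G N D c₀ h K l) := Nat.mul_le_mul_left _ h3
    _ ≤ 2 * (8 * Lam E * (V G N D).card) := Nat.mul_le_mul_left _ (Nat.mul_le_mul_left _ hV)
    _ = _ := by ring

end DChg
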