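import Pool.Agent.DChg.Skel

set_option autoImplicit false

/-!
The scaling `G n = - G ⌊n/3⌋`.
-/

open Finset

namespace DChg

variable {G : ℤ → ZMod 3} {N t : ℤ} {E : ℕ}

/-- The exceptions to the scaling. -/
noncomputable def Zset (G : ℤ → ZMod 3) (N : ℤ) : Finset ℤ :=
  (Ico 0 N).filter (fun n => G n ≠ - G (n / 3))

lemma mem_Zset {n : ℤ} : n ∈ Zset G N ↔ (0 ≤ n ∧ n < N) ∧ G n ≠ - G (n / 3) := by
  unfold Zset; rw [mem_filter, mem_Ico]

/-- Iterated scaling. -/
lemma scale_iter (j : ℕ) : ∀ k : ℤ, 0 ≤ k → k < N → (∀ i < j, k / 3 ^ i ∉ Zset G N) →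
    G k = (-1) ^ j * G (k / 3 ^ j) := by
  induction j with
  | zero => intro k _ _ _; simp
  | succ j ih =>
    intro k hk0 hk hno
    have h1 := ih k hk0 hk (fun i hi => hno i (by omega))
    have h2 := hno j (by omega)
    have h3 : (0 : ℤ) < 3 ^ j := by positivity
    have h4 : 0 ≤ k / 3 ^ j := Int.ediv_nonneg hk0 h3.le
    have h5 : k / 3 ^ j < N := lt_of_le_of_lt (Int.ediv_le_self _ hk0) hk
    rw [mem_Zset] at h2
    push Not at h2
    have h6 := h2 ⟨h4, h5⟩
    rw [h1, h6, Int.ediv_ediv_of_nonneg h3.le, pow_succ, ← pow_succ]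
    ring

/-- The `k` in a set with some `⌊k / 3^i⌋` exceptional. -/
noncomputable def BadUp (G : ℤ → ZMod 3) (N : ℤ) (j : ℕ) : Finset ℤ :=
  (range j).biUnion (fun i => (Zset G N).biUnion (fun z => Ico (3 ^ i * z) (3 ^ i * (z + 1))))

lemma mem_BadUp {j : ℕ} {k : ℤ} (h : k ∉ BadUp G N j) : ∀ i < j, k / 3 ^ i ∉ Zset G N := by
  intro i hi hz
  apply h
  unfold BadUp
  rw [mem_biUnion]
  refine ⟨i, mem_range.2 hi, ?_⟩
  rw [mem_biUnion]
  refine ⟨k / 3 ^ i, hz, ?_⟩
  rw [mem_Ico]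
  have h3 : (0 : ℤ) < 3 ^ i := by positivity
  constructor
  · exact Int.mul_ediv_self_le h3.ne'
  · exact Int.lt_mul_ediv_self_add h3 |>.trans_eq (by ring)

lemma card_BadUp_le (hE : (Zset G N).card ≤ E) (j : ℕ) :
    (2 * (BadUp G N j).card : ℤ) ≤ E * 3 ^ j := by
  have h1 : (BadUp G N j).card ≤ ∑ i ∈ range j, E * 3 ^ i := by
    unfold BadUp
    refine card_biUnion_le.trans (sum_le_sum fun i _ => ?_)
    refine card_biUnion_le.trans ?_
    have h2 : ∀ z ∈ Zset G N, (Ico (3 ^ i * z : ℤ) (3 ^ i * (z + 1))).card ≤ 3 ^ i := by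
      intro z _
      rw [Int.card_Ico]
      have : (3 : ℤ) ^ i * (z + 1) - 3 ^ i * z = ((3 ^ i : ℕ) : ℤ) := by push_cast; ring
      rw [this]; simp
    refine (sum_le_sum h2).trans ?_
    rw [sum_const, smul_eq_mul]
    exact Nat.mul_le_mul_right _ hE
  have h2 : 2 * ∑ i ∈ range j, E * 3 ^ i ≤ E * 3 ^ j := by
    clear h1
    induction j with
    | zero => simp
    | succ j ih =>
      rw [sum_range_succ, mul_add, pow_succ]
      nlinarith
  have h3 : 2 * (BadUp G N j).card ≤ E * 3 ^ j := (Nat.mul_le_mul_left 2 h1).trans h2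
  exact_mod_cast h3

/-- Going up. -/
lemma up (hJ : (Jset G N).card ≤ E) (hZ : (Zset G N).card ≤ E) (ht : 1 ≤ t) (j : ℕ) {x l : ℤ}
    (hx : 0 ≤ x) (hl : E ≤ l) (hl2 : 2 * (E * t) < 3 ^ j * l) (hN : 3 ^ j * (x + l) + t ≤ N)
    {g : ZMod 3} (hg : ∀ k, x ≤ k → k < x + l → G k = g) :
    ∃ k, 3 ^ j * x ≤ k ∧ k < 3 ^ j * (x + l) ∧ Pt G N t k ∧ G k = (-1) ^ j * g := by
  classical
  have h3 : (0 : ℤ) < 3 ^ j := by positivity
  have h4 := card_BadUp_le hZ j
  have h5 := card_Junk_le hJ ht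
  have h6 : ((Ico (3 ^ j * x) (3 ^ j * (x + l))).card : ℤ) = 3 ^ j * l := by
    rw [Int.card_Ico, Int.toNat_of_nonneg]
    · ring
    · have : 0 ≤ (3 : ℤ) ^ j * l := by
        have : (0 : ℤ) ≤ l := le_trans (by positivity) hl
        positivity
      linarith
  have h7 : ¬ (Ico (3 ^ j * x) (3 ^ j * (x + l)) ⊆ BadUp G N j ∪ Junk G N t) := by
    intro hsub
    have h8 := (card_le_card hsub).trans (card_union_le _ _)
    have h9 : ((Ico (3 ^ j * x) (3 ^ j * (x + l))).card : ℤ)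
        ≤ (BadUp G N j).card + (Junk G N t).card := by exact_mod_cast h8
    rw [h6] at h9
    have h10 : (E : ℤ) * 3 ^ j ≤ 3 ^ j * l := by
      rw [mul_comm]; exact mul_le_mul_of_nonneg_left hl h3.le
    linarith
  rw [not_subset] at h7
  obtain ⟨k, hk1, hk2⟩ := h7
  rw [mem_Ico] at hk1
  rw [mem_union, not_or] at hk2
  have hk0 : 0 ≤ k := le_trans (by positivity) hk1.1
  have hkN : k < N := by linarith [hk1.2]
  have hPt : Pt G N t k := by
    by_contra hno
    exact hk2.2 (mem_Junk.2 ⟨⟨hk0, by linarith [hk1.2]⟩, hno⟩)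
  refine ⟨k, hk1.1, hk1.2, hPt, ?_⟩
  rw [scale_iter j k hk0 hkN (mem_BadUp hk2.1), hg]
  · exact (Int.le_ediv_iff_mul_le h3).2 (by linarith [hk1.1])
  · exact (Int.ediv_lt_iff_lt_mul h3).2 (by linarith [hk1.2])

/-- The `y` with some `3^e y` exceptional, `1 ≤ e ≤ j`. -/
noncomputable def BadDown (G : ℤ → ZMod 3) (N : ℤ) (j : ℕ) : Finset ℤ :=
  (range j).biUnion (fun i => (Zset G N).image (fun z => z / 3 ^ (i + 1)))

lemma card_BadDown_le (hE : (Zset G N).card ≤ E) (j : ℕ) : (BadDown G N j).card ≤ E * j := by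
  unfold BadDown
  refine card_biUnion_le.trans ?_
  refine (sum_le_sum fun i _ => card_image_le).trans ?_
  rw [sum_const, card_range, smul_eq_mul, mul_comm]
  exact Nat.mul_le_mul_right _ hE

lemma scale_down {j : ℕ} {y : ℤ} (hy : 0 ≤ y) (hN : 3 ^ j * y < N) (h : y ∉ BadDown G N j) :
    G (3 ^ j * y) = (-1) ^ j * G y := by
  have h3 : (0 : ℤ) < 3 ^ j := by positivity
  have h1 := scale_iter (G := G) (N := N) j (3 ^ j * y) (by positivity) hN ?_
  · rwa [Int.mul_ediv_cancel_left _ h3.ne'] at h1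
  · intro i hi hz
    apply h
    unfold BadDown
    rw [mem_biUnion]
    refine ⟨j - i - 1, mem_range.2 (by omega), ?_⟩
    rw [mem_image]
    refine ⟨_, hz, ?_⟩
    have h4 : (3 : ℤ) ^ j * y = 3 ^ i * (3 ^ (j - i) * y) := by
      rw [← mul_assoc, ← pow_add, Nat.add_sub_cancel' hi.le]
    have h5 : (0 : ℤ) < 3 ^ i := by positivity
    have h6 : (0 : ℤ) < 3 ^ (j - i) := by positivity
    rw [h4, Int.mul_ediv_cancel_left _ h5.ne', show j - i - 1 + 1 = j - i by omega,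
      Int.mul_ediv_cancel_left _ h6.ne']

/-- Going down. -/
lemma down (hZ : (Zset G N).card ≤ E) (ht : 1 ≤ t) (j : ℕ) {x l : ℤ} (hx : 0 ≤ x)
    (hN : x + l ≤ N) (hl : 3 ^ j * (((E : ℤ) * j + 1) * t + 2) ≤ l) {g : ZMod 3}
    (hg : ∀ k, x ≤ k → k < x + l → G k = g) :
    ∃ y, x ≤ 3 ^ j * y ∧ 3 ^ j * y < x + l ∧ Pt G N t y ∧ G y = (-1) ^ j * g := by
  classical
  have h3 : (0 : ℤ) < 3 ^ j := by positivity
  -- the first multiple of `3^j`
  set y₀ : ℤ := x / 3 ^ j + 1 with hy₀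
  have hd1 := Int.mul_ediv_self_le (x := x) h3.ne'
  have hd2 := Int.lt_mul_ediv_self_add (x := x) h3
  have hdiv0 : 0 ≤ x / 3 ^ j := Int.ediv_nonneg hx h3.le
  have hy0x : x ≤ 3 ^ j * y₀ := by rw [hy₀, mul_add]; linarith
  have hy0x' : 3 ^ j * y₀ ≤ x + 3 ^ j := by rw [hy₀, mul_add]; linarith
  -- blocks of length `t`
  set B : ℕ → Finset ℤ := fun i => Ico (y₀ + i * t) (y₀ + (i + 1) * t) with hB
  have hblock : ∃ i ∈ range (E * j + 1), Disjoint (B i) (BadDown G N j) := by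
    by_contra hcon
    push Not at hcon
    have hch : ∀ i ∈ range (E * j + 1), ∃ y ∈ BadDown G N j, y ∈ B i := by
      intro i hi
      have := hcon i hi
      rw [not_disjoint_iff] at this
      obtain ⟨y, hy1, hy2⟩ := this
      exact ⟨y, hy2, hy1⟩
    choose! ψ hψ1 hψ2 using hch
    have hinj : Set.InjOn ψ (range (E * j + 1)) := by
      intro a ha b hb hab
      rw [mem_coe] at ha hb
      have h7 := hψ2 a ha
      have h8 := hψ2 b hb
      rw [hab] at h7
      simp only [hB, mem_Ico] at h7 h8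
      by_contra hne
      rcases Nat.lt_or_gt_of_ne hne with h9 | h9
      · have h10 : ((a : ℤ) + 1) * t ≤ b * t := mul_le_mul_of_nonneg_right (by omega) (by omega)
        linarith [h7.2, h8.1]
      · have h10 : ((b : ℤ) + 1) * t ≤ a * t := mul_le_mul_of_nonneg_right (by omega) (by omega)
        linarith [h7.1, h8.2]
    have h9 := card_le_card_of_injOn ψ (fun i hi => hψ1 i hi) hinj
    rw [card_range] at h9
    have := card_BadDown_le hZ j
    omega
  obtain ⟨i, hi, hdis⟩ := hblock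
  rw [mem_range] at hi
  have hit : ((i : ℤ) + 1) * t ≤ ((E : ℤ) * j + 1) * t := by
    apply mul_le_mul_of_nonneg_right _ (by omega)
    have : ((i : ℤ)) ≤ E * j := by exact_mod_cast (by omega : i ≤ E * j)
    linarith
  have hit0 : 0 ≤ (i : ℤ) * t := by positivity
  -- all elements of the block have the right value
  have hval : ∀ y, y₀ + i * t ≤ y → y < y₀ + i * t + t → x ≤ 3 ^ j * y ∧ 3 ^ j * y < x + l ∧
      G y = (-1) ^ j * g := by
    intro y hy1 hy2
    have h5 : 3 ^ j * y₀ ≤ 3 ^ j * y := mul_le_mul_of_nonneg_left (by linarith) h3.le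
    have h6 : 3 ^ j * y < x + l := by
      have h7 : 3 ^ j * y ≤ 3 ^ j * (y₀ + ((E : ℤ) * j + 1) * t) :=
        mul_le_mul_of_nonneg_left (by linarith) h3.le
      have h8 : (3 : ℤ) ^ j * (y₀ + ((E : ℤ) * j + 1) * t)
          = 3 ^ j * y₀ + 3 ^ j * (((E : ℤ) * j + 1) * t) := by ring
      have h9 : (3 : ℤ) ^ j * (((E : ℤ) * j + 1) * t + 2)
          = 3 ^ j * (((E : ℤ) * j + 1) * t) + 2 * 3 ^ j := by ring
      linarith
    have h7 : y ∉ BadDown G N j := by
      intro hbad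
      exact disjoint_left.1 hdis (by simp only [hB, mem_Ico]; constructor <;> linarith) hbad
    have hy0 : 0 ≤ y := by linarith
    have h8 := scale_down hy0 (by linarith) h7
    refine ⟨by linarith, h6, ?_⟩
    rw [hg (3 ^ j * y) (by linarith) h6] at h8
    rw [h8, ← mul_assoc, ← mul_pow]
    simp
  have hbN : y₀ + i * t + t ≤ N := by
    have h5 : (y₀ + i * t + t - 1) ≤ 3 ^ j * (y₀ + i * t + t - 1) := by
      have h6 : (1 : ℤ) ≤ 3 ^ j := by omega
      have h7 : 0 ≤ y₀ + i * t + t - 1 := by linarith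
      nlinarith
    have h8 := (hval (y₀ + i * t + t - 1) (by linarith) (by linarith)).2.1
    omega
  obtain ⟨h5, h6, h7⟩ := hval (y₀ + i * t) le_rfl (by linarith)
  refine ⟨y₀ + i * t, h5, h6, ?_, h7⟩
  exact Pt.of_const (a := y₀ + i * t) (by linarith) le_rfl (by linarith) hbN
    (fun k hk1 hk2 => by rw [(hval k hk1 hk2).2.2, h7])

end DChg
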