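import Pool.Agent.DChg.Defs

set_option autoImplicit false

/-!
The skeleton of `G` at resolution `t`.
-/

open Finset

namespace DChg

variable {G : ℤ → ZMod 3} {N t : ℤ}

lemma Pt.nonneg {n : ℤ} (h : Pt G N t n) : 0 ≤ n := by
  obtain ⟨a, h0, h1, _⟩ := h; omega

lemma Pt.lt {n : ℤ} (h : Pt G N t n) : n < N := by
  obtain ⟨a, h0, h1, h2, h3, _⟩ := h; omega

lemma Pt.mono {t' n : ℤ} (h : Pt G N t' n) (ht : 1 ≤ t) (htt : t ≤ t') : Pt G N t n := by
  obtain ⟨a, h0, h1, h2, h3, h4⟩ := h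
  by_cases hc : n < a + t
  · exact ⟨a, h0, h1, hc, by omega, fun k hk1 hk2 => h4 k hk1 (by omega)⟩
  · refine ⟨n - t + 1, by omega, by omega, by omega, by omega, fun k hk1 hk2 => h4 k (by omega) (by omega)⟩

/-- An interval of length `t` consists of points. -/
lemma Pt.of_const {a n : ℤ} (h0 : 0 ≤ a) (h1 : a ≤ n) (h2 : n < a + t) (h3 : a + t ≤ N)
    (h4 : ∀ k, a ≤ k → k < a + t → G k = G a) : Pt G N t n :=
  ⟨a, h0, h1, h2, h3, fun k hk1 hk2 => by rw [h4 k hk1 hk2, h4 n h1 h2]⟩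

/-- The change lemma. -/
lemma exists_isJ {x : ℤ} (hx : Pt G N t x) : ∀ (d : ℕ) (y : ℤ), y = x + d → Pt G N t y →
    G x ≠ G y → ∃ p u, IsJ G N t p u ∧ x ≤ p ∧ u ≤ y := by
  intro d
  induction d using Nat.strong_induction_on with
  | _ d ih =>
    intro y hy hPy hne
    have hd : d ≠ 0 := by
      rintro rfl
      apply hne; rw [hy]; simp
    by_cases hcase : ∃ e : ℕ, e < d ∧ Pt G N t (x + e) ∧ G x ≠ G (x + e)
    · obtain ⟨e, he, hPe, hGe⟩ := hcase
      obtain ⟨p, u, h1, h2, h3⟩ := ih e he (x + e) rfl hPe hGe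
      exact ⟨p, u, h1, h2, by omega⟩
    · push Not at hcase
      -- the last point before `y`
      classical
      set P : ℕ → Prop := fun e => Pt G N t (x + e) with hP
      set e := Nat.findGreatest P (d - 1) with he
      have hP0 : P 0 := by simpa [hP] using hx
      have hPe : P e := Nat.findGreatest_spec (Nat.zero_le _) hP0
      have hed : e ≤ d - 1 := Nat.findGreatest_le _
      refine ⟨x + e, y, ⟨hPe, hPy, by omega, ?_, ?_⟩, by omega, le_rfl⟩
      · rw [← hcase e (by omega) hPe]; exact hne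
      · intro k hk1 hk2 hk
        have h1 : ∃ e' : ℕ, k = x + e' := ⟨(k - x).toNat, by omega⟩
        obtain ⟨e', rfl⟩ := h1
        have h2 : e < e' := by omega
        exact Nat.findGreatest_is_greatest h2 (by omega) hk

lemma change {x y : ℤ} (hx : Pt G N t x) (hy : Pt G N t y) (hxy : x ≤ y) (hne : G x ≠ G y) :
    ∃ p u, IsJ G N t p u ∧ x ≤ p ∧ u ≤ y :=
  exists_isJ hx (y - x).toNat y (by omega) hy hne

/-- The plateau to the right of a jump. -/
lemma IsJ.right {p u : ℤ} (h : IsJ G N t p u) :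
    u + t ≤ N ∧ ∀ k, u ≤ k → k < u + t → G k = G u := by
  obtain ⟨hp, ⟨a, h0, h1, h2, h3, h4⟩, hpu, hne, hno⟩ := h
  by_cases ha : a = u
  · subst ha; exact ⟨h3, h4⟩
  · exfalso
    have h5 : Pt G N t (u - 1) := ⟨a, h0, by omega, by omega, h3, fun k hk1 hk2 => by
      rw [h4 k hk1 hk2, h4 (u - 1) (by omega) (by omega)]⟩
    by_cases h6 : p = u - 1
    · apply hne
      rw [h6, h4 (u - 1) (by omega) (by omega)]
    · exact hno (u - 1) (by omega) (by omega) h5

/-- The plateau to the left of a jump. -/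
lemma IsJ.left {p u : ℤ} (h : IsJ G N t p u) :
    t ≤ p + 1 ∧ ∀ k, p - t < k → k ≤ p → G k = G p := by
  obtain ⟨⟨a, h0, h1, h2, h3, h4⟩, hu, hpu, hne, hno⟩ := h
  by_cases ha : a + t = p + 1
  · exact ⟨by omega, fun k hk1 hk2 => h4 k (by omega) (by omega)⟩
  · exfalso
    have h5 : Pt G N t (p + 1) := ⟨a, h0, by omega, by omega, h3, fun k hk1 hk2 => by
      rw [h4 k hk1 hk2, h4 (p + 1) (by omega) (by omega)]⟩
    by_cases h6 : p + 1 = u
    · apply hne
      rw [← h6, h4 (p + 1) (by omega) (by omega)]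
    · exact hno (p + 1) (by omega) (by omega) h5

lemma IsJ.pt_right {p u k : ℤ} (h : IsJ G N t p u) (h1 : u ≤ k) (h2 : k < u + t) :
    Pt G N t k := by
  have := h.2.1.nonneg
  exact Pt.of_const this h1 h2 h.right.1 h.right.2

lemma IsJ.pt_left {p u k : ℤ} (h : IsJ G N t p u) (h1 : p - t < k) (h2 : k ≤ p) :
    Pt G N t k := by
  obtain ⟨h3, h4⟩ := h.left
  have h5 := h.1.lt
  refine ⟨p - t + 1, by omega, by omega, by omega, by omega, fun j hj1 hj2 => ?_⟩
  rw [h4 j (by omega) (by omega), h4 k h1 h2]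

lemma IsJ.lt {p u : ℤ} (h : IsJ G N t p u) : p < u := h.2.2.1

lemma IsJ.ne {p u : ℤ} (h : IsJ G N t p u) : G p ≠ G u := h.2.2.2.1

/-- Consecutive jumps. -/
lemma IsJ.sep {p u p' u' : ℤ} (h : IsJ G N t p u) (h' : IsJ G N t p' u')
    (huu : u < u') : u + t ≤ p' + 1 := by
  by_contra hcon
  push Not at hcon
  -- `u ≤ p'`
  have h1 : u ≤ p' := by
    by_contra h2
    push Not at h2
    exact h'.2.2.2.2 u h2 huu h.2.1
  -- `u' < u + t` is impossible
  have h2 : p' + 1 < u + t := by omega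
  have h3 : Pt G N t (p' + 1) := h.pt_right (by omega) h2
  have h4 : p' + 1 = u' := by
    by_contra h5
    have := h'.lt
    exact h'.2.2.2.2 (p' + 1) (by omega) (by omega) h3
  apply h'.ne
  rw [← h4, h.right.2 p' h1 (by omega), h.right.2 (p' + 1) (by omega) h2]

lemma IsJ.unique {p p' u : ℤ} (h : IsJ G N t p u) (h' : IsJ G N t p' u) : p = p' := by
  rcases lt_trichotomy p p' with h1 | h1 | h1
  · exact absurd h'.1 (h.2.2.2.2 p' h1 h'.lt)
  · exact h1
  · exact absurd h.1 (h'.2.2.2.2 p h1 h.lt)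

lemma mem_V {u : ℤ} : u ∈ V G N t ↔ ∃ p, IsJ G N t p u := by
  classical
  unfold V
  rw [mem_filter, mem_Ico]
  constructor
  · exact fun h => h.2
  · rintro ⟨p, h⟩
    exact ⟨⟨h.2.1.nonneg, h.2.1.lt⟩, p, h⟩

/-- The jumps of `G`. -/
noncomputable def Jset (G : ℤ → ZMod 3) (N : ℤ) : Finset ℤ := (Ico 0 N).filter (fun n => G n ≠ G (n - 1))

/-- Non-constancy gives a jump. -/
lemma exists_jump {a n : ℤ} (ha : -1 ≤ a) (hn : n < N) (han : a ≤ n) (h : G a ≠ G n) :
    ∃ s ∈ Jset G N, a < s ∧ s ≤ n := by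
  obtain ⟨d, hd⟩ : ∃ d : ℕ, n = a + d := ⟨(n - a).toNat, by omega⟩
  induction d generalizing n with
  | zero => exfalso; apply h; rw [hd]; simp
  | succ d ih =>
    by_cases h1 : G a = G (n - 1)
    · refine ⟨n, ?_, by omega, le_rfl⟩
      unfold Jset
      rw [mem_filter, mem_Ico]
      refine ⟨⟨by omega, hn⟩, ?_⟩
      rw [← h1]; exact Ne.symm h
    · obtain ⟨s, hs1, hs2, hs3⟩ := ih (n := n - 1) (by omega) (by omega) h1 (by omega)
      exact ⟨s, hs1, hs2, by omega⟩

/-- A non-point has a jump shortly after it. -/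
lemma jump_of_not_pt {n : ℤ} (h0 : 0 ≤ n) (hn : n + t ≤ N) (ht : 1 ≤ t) (h : ¬ Pt G N t n) :
    ∃ s ∈ Jset G N, n < s ∧ s < n + t := by
  have h1 : ∃ k, n ≤ k ∧ k < n + t ∧ G n ≠ G k := by
    by_contra hcon
    push Not at hcon
    exact h ⟨n, h0, le_rfl, by omega, hn, fun k hk1 hk2 => (hcon k hk1 hk2).symm⟩
  obtain ⟨k, hk1, hk2, hk3⟩ := h1
  obtain ⟨s, hs1, hs2, hs3⟩ := exists_jump (G := G) (N := N) (by omega) (by omega) hk1 hk3
  exact ⟨s, hs1, hs2, by omega⟩

open Classical in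
/-- The non-points. -/
noncomputable def Junk (G : ℤ → ZMod 3) (N t : ℤ) : Finset ℤ :=
  (Ico 0 (N - t + 1)).filter (fun n => ¬ Pt G N t n)

lemma mem_Junk {n : ℤ} : n ∈ Junk G N t ↔ (0 ≤ n ∧ n + t ≤ N) ∧ ¬ Pt G N t n := by
  classical
  unfold Junk
  rw [mem_filter, mem_Ico]
  constructor
  · rintro ⟨h1, h2⟩; exact ⟨⟨h1.1, by omega⟩, h2⟩
  · rintro ⟨h1, h2⟩; exact ⟨⟨h1.1, by omega⟩, h2⟩

lemma card_Junk_le {E : ℕ} (hE : (Jset G N).card ≤ E) (ht : 1 ≤ t) :
    ((Junk G N t).card : ℤ) ≤ E * t := by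
  classical
  have hsub : Junk G N t ⊆ (Jset G N).biUnion (fun s => Ico (s - t + 1) s) := by
    intro n hn
    rw [mem_Junk] at hn
    obtain ⟨s, hs1, hs2, hs3⟩ := jump_of_not_pt hn.1.1 hn.1.2 ht hn.2
    rw [mem_biUnion]
    exact ⟨s, hs1, by rw [mem_Ico]; omega⟩
  have h1 : (Junk G N t).card ≤ ∑ s ∈ Jset G N, (Ico (s - t + 1) s).card :=
    (card_le_card hsub).trans card_biUnion_le
  have h2 : ∀ s ∈ Jset G N, (Ico (s - t + 1) s).card ≤ t.toNat := by
    intro s _
    rw [Int.card_Ico]; omega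
  have h3 : (Junk G N t).card ≤ (Jset G N).card * t.toNat := by
    refine h1.trans ((sum_le_sum h2).trans ?_)
    rw [sum_const, smul_eq_mul]
  have h4 : (Junk G N t).card ≤ E * t.toNat := h3.trans (Nat.mul_le_mul_right _ hE)
  have h5 : ((E * t.toNat : ℕ) : ℤ) = E * t := by
    push_cast
    rw [Int.toNat_of_nonneg (by omega)]
  rw [← h5]
  exact_mod_cast h4

/-- The extent of a jump. -/
lemma IsJ.extent {E : ℕ} (hE : (Jset G N).card ≤ E) (ht : 1 ≤ t) {p u : ℤ}
    (h : IsJ G N t p u) : u - p ≤ E * t + 1 := by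
  have h1 := card_Junk_le hE ht
  have h2 : Ioo p u ⊆ Junk G N t := by
    intro k hk
    rw [mem_Ioo] at hk
    rw [mem_Junk]
    have := h.1.nonneg
    have := h.right.1
    exact ⟨⟨by omega, by omega⟩, h.2.2.2.2 k hk.1 hk.2⟩
  have h3 := card_le_card h2
  rw [Int.card_Ioo] at h3
  omega

/-- The predecessor of a jump. -/
noncomputable def prd (G : ℤ → ZMod 3) (N t u : ℤ) : ℤ :=
  open Classical in if h : ∃ p, IsJ G N t p u then h.choose else 0

lemma isJ_prd {u : ℤ} (h : u ∈ V G N t) : IsJ G N t (prd G N t u) u := by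
  have h' := mem_V.1 h
  unfold prd
  rw [dif_pos h']
  exact h'.choose_spec

lemma prd_eq {p u : ℤ} (h : IsJ G N t p u) : prd G N t u = p :=
  (isJ_prd (mem_V.2 ⟨p, h⟩)).unique h

open Classical in
/-- Telescoping. -/
lemma telescope {x : ℤ} (hx : Pt G N t x) : ∀ (d : ℕ) (y : ℤ), y = x + d → Pt G N t y →
    G y - G x = ∑ u ∈ (V G N t).filter (fun u => x < u ∧ u ≤ y), (G u - G (prd G N t u)) := by
  intro d
  induction d using Nat.strong_induction_on with
  | _ d ih =>
    intro y hy hPy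
    by_cases hcase : G x = G y ∧ ¬ ∃ u ∈ V G N t, x < u ∧ u ≤ y
    · rw [hcase.1, sub_self]
      symm
      apply sum_eq_zero
      intro u hu
      rw [mem_filter] at hu
      exact absurd ⟨u, hu.1, hu.2⟩ hcase.2
    · -- there is a jump in `(x, y]`; take the largest one
      have hex : ∃ u ∈ V G N t, x < u ∧ u ≤ y := by
        by_contra hno
        apply hcase
        refine ⟨?_, hno⟩
        by_contra hne
        obtain ⟨p, u, h1, h2, h3⟩ := change hx hPy (by omega) hne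
        exact hno ⟨u, mem_V.2 ⟨p, h1⟩, by have := h1.lt; omega, h3⟩
      have hne : ((V G N t).filter (fun u => x < u ∧ u ≤ y)).Nonempty := by
        obtain ⟨u, hu⟩ := hex
        exact ⟨u, mem_filter.2 hu⟩
      obtain ⟨u, hu, humax⟩ := exists_max_image _ id hne
      simp only [id] at humax
      rw [mem_filter] at hu
      set p := prd G N t u with hp
      have hJ : IsJ G N t p u := isJ_prd hu.1
      have hxp : x ≤ p := by
        by_contra hcon
        push Not at hcon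
        exact hJ.2.2.2.2 x hcon hu.2.1 hx
      have hGu : G u = G y := by
        by_contra hne'
        obtain ⟨p', u', h1, h2, h3⟩ := change hJ.2.1 hPy hu.2.2 hne'
        have h4 := humax u' (mem_filter.2 ⟨mem_V.2 ⟨p', h1⟩, by have := h1.lt; omega, h3⟩)
        have := h1.lt
        omega
      have hpy : p < y := by have := hJ.lt; omega
      have hih := ih (p - x).toNat (by omega) p (by omega) hJ.1
      have hsplit : (V G N t).filter (fun u' => x < u' ∧ u' ≤ y)
          = insert u ((V G N t).filter (fun u' => x < u' ∧ u' ≤ p)) := by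
        ext w
        rw [mem_filter, mem_insert, mem_filter]
        constructor
        · rintro ⟨hw1, hw2, hw3⟩
          by_cases hwu : w = u
          · exact Or.inl hwu
          · right
            refine ⟨hw1, hw2, ?_⟩
            have h5 := humax w (mem_filter.2 ⟨hw1, hw2, hw3⟩)
            by_contra hcon
            push Not at hcon
            obtain ⟨pw, hpw⟩ := mem_V.1 hw1
            exact hJ.2.2.2.2 w hcon (lt_of_le_of_ne h5 hwu) hpw.2.1
        · rintro (rfl | ⟨hw1, hw2, hw3⟩)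
          · exact ⟨hu.1, hu.2⟩
          · exact ⟨hw1, hw2, by omega⟩
      rw [hsplit, sum_insert, ← hih, ← hp, hGu]
      · ring
      · rw [mem_filter]
        rintro ⟨_, _, h6⟩
        have := hJ.lt
        omega

end DChg
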