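import Pool.Agent.DChg.Scale

set_option autoImplicit false

/-!
The square identity seen through the skeleton.
-/

open Finset

namespace DChg

variable {G : ℤ → ZMod 3} {N t : ℤ} {E : ℕ}

/-- The doubled function. -/
def Gam (G : ℤ → ZMod 3) (c k : ℤ) : ZMod 3 := G k + G (min c k)

lemma conv_comm (I U : Finset ℤ) (a v : ℤ → ZMod 3) (n : ℤ) :
    ∑ i ∈ I, a i * (∑ u ∈ U, if u ≤ n - i then v u else 0)
      = ∑ u ∈ U, v u * (∑ i ∈ I, if i ≤ n - u then a i else 0) := by
  simp only [mul_sum]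
  rw [sum_comm]
  apply sum_congr rfl
  intro u _
  apply sum_congr rfl
  intro i _
  by_cases h : u ≤ n - i
  · rw [if_pos h, if_pos (by omega), mul_comm]
  · rw [if_neg h, if_neg (by omega), mul_zero, mul_zero]

lemma sum_f (hneg : ∀ n < 0, G n = 0) (d : ℕ) :
    ∑ i ∈ Icc (0 : ℤ) d, (G i - G (i - 1)) = G d := by
  induction d with
  | zero => simp [hneg (-1) (by norm_num)]
  | succ d ih =>
    have h1 : Icc (0 : ℤ) ((d + 1 : ℕ) : ℤ) = insert ((d : ℤ) + 1) (Icc (0 : ℤ) d) := by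
      ext x
      rw [mem_insert, mem_Icc, mem_Icc]
      push_cast
      omega
    rw [h1, sum_insert (by rw [mem_Icc]; omega), ih]
    push_cast
    rw [show (d : ℤ) + 1 - 1 = d by ring]
    ring

lemma sum_f_if (hneg : ∀ n < 0, G n = 0) {n k : ℤ} (hk : k ≤ n) :
    ∑ i ∈ Icc (0 : ℤ) n, (if i ≤ k then G i - G (i - 1) else 0) = G k := by
  rw [← sum_filter]
  rcases lt_or_ge k 0 with h | h
  · rw [hneg k h]
    apply sum_eq_zero
    intro i hi
    rw [mem_filter, mem_Icc] at hi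
    omega
  · obtain ⟨d, rfl⟩ : ∃ d : ℕ, k = d := ⟨k.toNat, by omega⟩
    rw [← sum_f hneg d]
    apply sum_congr _ (fun _ _ => rfl)
    ext i
    rw [mem_filter, mem_Icc, mem_Icc]
    omega

lemma sum_f_le (hneg : ∀ n < 0, G n = 0) {n k c : ℤ} (hk : k ≤ n) :
    ∑ i ∈ Icc (0 : ℤ) n, (if i ≤ k then (if i ≤ c then G i - G (i - 1) else 0) else 0)
      = G (min c k) := by
  rw [← sum_f_if hneg (n := n) (k := min c k) (by omega)]
  apply sum_congr rfl
  intro i _
  by_cases h1 : i ≤ k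
  · by_cases h2 : i ≤ c
    · rw [if_pos h1, if_pos h2, if_pos (by omega)]
    · rw [if_pos h1, if_neg h2, if_neg (by omega)]
  · rw [if_neg h1, if_neg (by omega)]

lemma sum_f_gt (hneg : ∀ n < 0, G n = 0) {n k c : ℤ} (hk : k ≤ n) :
    ∑ i ∈ Icc (0 : ℤ) n, (if i ≤ k then (if i ≤ c then 0 else G i - G (i - 1)) else 0)
      = G k - G (min c k) := by
  rw [← sum_f_if hneg hk, ← sum_f_le hneg (c := c) hk, ← sum_sub_distrib]
  apply sum_congr rfl
  intro i _
  by_cases h1 : i ≤ k
  · by_cases h2 : i ≤ c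
    · rw [if_pos h1, if_pos h1, if_pos h1, if_pos h2, if_pos h2, sub_self]
    · rw [if_pos h1, if_pos h1, if_pos h1, if_neg h2, if_neg h2, sub_zero]
  · rw [if_neg h1, if_neg h1, if_neg h1, sub_zero]

open Classical in
/-- The square identity through the skeleton. -/
theorem star (hneg : ∀ n < 0, G n = 0) {c n : ℤ} (hcn : 2 * c ≤ n)
    (hc : Pt G N t c) (hsq : ∑ i ∈ Icc 0 n, (G i - G (i - 1)) * G (n - i) = 2)
    (hgood : ∀ i, 0 ≤ i → i ≤ n → G i ≠ G (i - 1) → c < n - i → Pt G N t (n - i)) :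
    G c * G c + ∑ u ∈ (V G N t).filter (fun u => c < u),
      (G u - G (prd G N t u)) * Gam G c (n - u) = 2 := by
  set f : ℤ → ZMod 3 := fun i => G i - G (i - 1) with hf
  have hc0 := hc.nonneg
  have hn0 : 0 ≤ n := by omega
  -- the low part
  set fl : ℤ → ZMod 3 := fun i => if i ≤ c then f i else 0 with hfl
  set fh : ℤ → ZMod 3 := fun i => if i ≤ c then 0 else f i with hfh
  have hlow : ∀ k ≤ n, ∑ i ∈ Icc (0 : ℤ) n, (if i ≤ k then fl i else 0) = G (min c k) :=
    fun k hk => sum_f_le hneg hk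
  have hhigh : ∀ k ≤ n, ∑ i ∈ Icc (0 : ℤ) n, (if i ≤ k then fh i else 0) = G k - G (min c k) :=
    fun k hk => sum_f_gt hneg hk
  -- cross terms
  have hcross : ∑ i ∈ Icc (0 : ℤ) n, fh i * G (min c (n - i))
      = ∑ i ∈ Icc (0 : ℤ) n, fl i * (G (n - i) - G (min c (n - i))) := by
    have h1 := conv_comm (Icc (0 : ℤ) n) (Icc (0 : ℤ) n) fh fl n
    have h2 : ∑ i ∈ Icc (0 : ℤ) n, fh i * G (min c (n - i))
        = ∑ i ∈ Icc (0 : ℤ) n, fh i * (∑ u ∈ Icc (0 : ℤ) n, if u ≤ n - i then fl u else 0) := by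
      apply sum_congr rfl
      intro i hi
      rw [mem_Icc] at hi
      rw [hlow _ (by omega)]
    have h3 : ∑ i ∈ Icc (0 : ℤ) n, fl i * (G (n - i) - G (min c (n - i)))
        = ∑ u ∈ Icc (0 : ℤ) n, fl u * (∑ i ∈ Icc (0 : ℤ) n, if i ≤ n - u then fh i else 0) := by
      apply sum_congr rfl
      intro i hi
      rw [mem_Icc] at hi
      rw [hhigh _ (by omega)]
    rw [h2, h1, h3]
  -- the constant
  have hconst : ∑ i ∈ Icc (0 : ℤ) n, fl i * G (min c (n - i)) = G c * G c := by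
    have h1 : ∑ i ∈ Icc (0 : ℤ) n, fl i * G (min c (n - i)) = ∑ i ∈ Icc (0 : ℤ) n, (if i ≤ n then fl i else 0) * G c := by
      apply sum_congr rfl
      intro i hi
      rw [mem_Icc] at hi
      rw [if_pos hi.2]
      by_cases h : i ≤ c
      · rw [min_eq_left (by omega)]
      · simp only [hfl]; rw [if_neg h]; simp
    rw [h1, ← sum_mul, hlow n le_rfl, min_eq_left (by omega)]
  -- total
  have htot : ∑ i ∈ Icc (0 : ℤ) n, f i * G (n - i)
      = G c * G c + ∑ i ∈ Icc (0 : ℤ) n, (f i + fl i) * (G (n - i) - G (min c (n - i))) := by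
    rw [← hconst]
    have h1 : ∑ i ∈ Icc (0 : ℤ) n, (f i + fl i) * (G (n - i) - G (min c (n - i)))
        = ∑ i ∈ Icc (0 : ℤ) n, f i * (G (n - i) - G (min c (n - i)))
          + ∑ i ∈ Icc (0 : ℤ) n, fl i * (G (n - i) - G (min c (n - i))) := by
      rw [← sum_add_distrib]
      apply sum_congr rfl
      intro i _
      ring
    rw [h1, ← hcross, ← sum_add_distrib, ← sum_add_distrib]
    apply sum_congr rfl
    intro i _
    by_cases h : i ≤ c
    · simp only [hfl, hfh]; rw [if_pos h, if_pos h]; ring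
    · simp only [hfl, hfh]; rw [if_neg h, if_neg h]; ring
  -- replace by the skeleton
  have hskel : ∑ i ∈ Icc (0 : ℤ) n, (f i + fl i) * (G (n - i) - G (min c (n - i)))
      = ∑ i ∈ Icc (0 : ℤ) n, (f i + fl i) * (∑ u ∈ (V G N t).filter (fun u => c < u),
          if u ≤ n - i then (G u - G (prd G N t u)) else 0) := by
    apply sum_congr rfl
    intro i hi
    rw [mem_Icc] at hi
    by_cases h0 : f i = 0
    · have : fl i = 0 := by simp only [hfl]; split_ifs <;> simp [h0]
      rw [h0, this]; simp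
    · congr 1
      rw [← sum_filter, filter_filter]
      rcases le_or_gt (n - i) c with h1 | h1
      · rw [min_eq_right h1, sub_self]
        symm
        apply sum_eq_zero
        intro u hu
        rw [mem_filter] at hu
        omega
      · rw [min_eq_left h1.le]
        have h2 : Pt G N t (n - i) := hgood i hi.1 hi.2 (fun h => h0 (by simp only [hf]; rw [h, sub_self])) h1
        exact telescope hc (n - i - c).toNat (n - i) (by omega) h2
  have hfin : ∀ k ≤ n, ∑ i ∈ Icc (0 : ℤ) n, (if i ≤ k then f i + fl i else 0) = Gam G c k := by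
    intro k hk
    unfold Gam
    rw [← sum_f_if hneg hk, ← hlow k hk, ← sum_add_distrib]
    apply sum_congr rfl
    intro i _
    split_ifs <;> simp [hf]
  have hend := conv_comm (Icc (0 : ℤ) n) ((V G N t).filter (fun u => c < u)) (fun i => f i + fl i)
    (fun u => G u - G (prd G N t u)) n
  rw [← hsq, htot, hskel, hend]
  congr 1
  apply sum_congr rfl
  intro u hu
  rw [mem_filter] at hu
  rw [hfin _ (by omega)]

/-- Away from the jumps of `G`, `Γ` changes exactly when `G` does. -/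
lemma gam_change {c L k₁ k₂ : ℤ} (hc : ∀ k, c - L ≤ k → k ≤ c + L → G k = G c)
    (h12 : k₁ ≤ k₂) (hL : k₂ - k₁ ≤ L) (h : Gam G c k₂ ≠ Gam G c k₁) : G k₂ ≠ G k₁ := by
  intro hG
  apply h
  unfold Gam
  rw [hG]
  congr 1
  rcases le_total k₂ c with h2 | h2
  · rw [min_eq_right h2, min_eq_right (by omega), hG]
  · rcases le_total c k₁ with h1 | h1
    · rw [min_eq_left h1, min_eq_left h2]
    · rw [min_eq_left h2, min_eq_right h1]
      exact (hc k₁ (by omega) (by omega)).symm

lemma V_jump {u : ℤ} (hu : u ∈ V G N t) (ht : 1 ≤ t) : u ∈ Jset G N := by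
  have hJ := isJ_prd hu
  have h0 := hJ.1.nonneg
  have h1 := hJ.lt
  have h2 := hJ.2.1.lt
  unfold Jset
  rw [mem_filter, mem_Ico]
  refine ⟨⟨by omega, h2⟩, ?_⟩
  intro hG
  by_cases h3 : prd G N t u = u - 1
  · apply hJ.ne
    rw [h3, hG]
  · have h4 : Pt G N t (u - 1) := by
      obtain ⟨h5, h6⟩ := hJ.right
      refine ⟨u - 1, by omega, le_rfl, by omega, by omega, fun k hk1 hk2 => ?_⟩
      rcases eq_or_ne k (u - 1) with h7 | h7
      · rw [h7]
      · rw [h6 k (by omega) (by omega), hG]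
    exact hJ.2.2.2.2 (u - 1) (by omega) (by omega) h4

end DChg
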