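import Pool.Agent.DChg.Count

set_option autoImplicit false

/-!
The combinatorial theorem applied to the digits of `√2`.
-/

open Finset Sqrt2Digits SqrtFrob

namespace DChg

lemma brk_mono (m : ℕ) {M N : ℕ} (h : M ≤ N) : brk m M ≤ brk m N := by
  unfold brk
  apply card_le_card
  intro k hk
  rw [mem_filter, mem_range] at hk ⊢
  exact ⟨by omega, hk.2⟩

theorem step1 (m : ℕ) (hm : 0 < m) : ∃ A B Q : ℕ, 2 ≤ A ∧ 1 ≤ B ∧ 2 ≤ Q ∧ ∀ N ℓ h K : ℕ,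
    ℓ = Nat.log 3 (N / Q) → 1 ≤ ℓ → brk m N < ℓ ^ 2 →
    1000 * (A * ℓ ^ B) ^ 4 ≤ 3 ^ h → 3 ≤ K → h * (K + 2) ≤ ℓ →
    (K - 2) * (K - 1) ≤ 16 * Lam (A * ℓ ^ B) * brk m N := by
  set Q : ℕ := 10 ^ m - 1 with hQ
  have hQ9 : 9 ≤ Q := by
    have : (10 : ℕ) ^ 1 ≤ 10 ^ m := Nat.pow_le_pow_right (by norm_num) hm
    omega
  obtain ⟨K₀, hK₀, hfew⟩ := few_blocks m hm (Q := Q)
    (fun q _ hq => Nat.le_of_dvd (by omega) hq)
  set K₁ : ℝ := m + K₀ + 1 with hK₁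
  have hK₁0 : 0 < K₁ := by positivity
  set A : ℕ := ⌈33 * (K₁ + 1) ^ 3⌉₊ + ⌈K₀⌉₊ + m + 2 with hA
  refine ⟨A, 6 * Q, Q, by omega, by omega, by omega, ?_⟩
  intro N ℓ h K hℓ hℓ1 hlam hh hK hhK
  set M := N / Q with hM
  set E : ℕ := A * ℓ ^ (6 * Q) with hE
  set lm := brk m N with hlm
  have hM3 : 3 ^ ℓ ≤ M := by
    rw [hℓ]
    apply Nat.pow_log_le_self
    intro h0
    rw [h0] at hℓ
    simp at hℓ
    omega
  have hM1 : 3 ≤ M := by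
    calc 3 = 3 ^ 1 := rfl
      _ ≤ 3 ^ ℓ := Nat.pow_le_pow_right (by norm_num) hℓ1
      _ ≤ M := hM3
  have hQM : Q * M ≤ N := Nat.mul_div_le N Q
  have hMN : M + 1 ≤ N := by nlinarith
  have hpow1 : 1 ≤ ℓ ^ (6 * Q) := Nat.one_le_pow _ _ hℓ1
  have hℓpow : ℓ ≤ ℓ ^ (6 * Q) := Nat.le_self_pow (by omega) ℓ
  -- real bounds
  have hL : (1 + (lm : ℝ)) ≤ (ℓ : ℝ) ^ 2 := by
    have : 1 + lm ≤ ℓ ^ 2 := by omega
    exact_mod_cast this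
  have hL1 : (1 : ℝ) ≤ 1 + (lm : ℝ) := by
    have : (0 : ℝ) ≤ lm := by positivity
    linarith
  have hP1 : (1 : ℝ) ≤ (1 + (lm : ℝ)) ^ Q := one_le_pow₀ hL1
  have hPle : (1 + (lm : ℝ)) ≤ (1 + (lm : ℝ)) ^ Q := by
    calc (1 + (lm : ℝ)) = (1 + (lm : ℝ)) ^ 1 := (pow_one _).symm
      _ ≤ _ := pow_le_pow_right₀ hL1 (by omega)
  have hXB : (XB m M : ℝ) ≤ K₀ * (1 + (lm : ℝ)) ^ Q := by
    refine (hfew M).trans ?_
    have h1 : (brk m (Q * M) : ℝ) ≤ lm := by exact_mod_cast brk_mono m hQM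
    gcongr
  have hlamR : (lam fs M : ℝ) ≤ K₁ * (1 + (lm : ℝ)) ^ Q := by
    have h1 : (lam fs M : ℝ) ≤ m + XB m M + brk m (M + 1) := by exact_mod_cast lam_fs_le m hm M
    have h2 : (brk m (M + 1) : ℝ) ≤ lm := by exact_mod_cast brk_mono m hMN
    have h3 : (m : ℝ) ≤ m * (1 + (lm : ℝ)) ^ Q := le_mul_of_one_le_right (by positivity) hP1
    rw [hK₁]
    nlinarith
  set W : ℝ := (K₁ + 1) * (1 + (lm : ℝ)) ^ Q with hW
  have hlamW : (lam fs M : ℝ) + 1 ≤ W := by rw [hW]; nlinarith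
  have hW1 : 1 ≤ W := by
    have : (0 : ℝ) ≤ lam fs M := by positivity
    linarith
  have hW3 : 33 * W ^ 3 ≤ E := by
    have h1 : W ^ 3 ≤ (K₁ + 1) ^ 3 * (ℓ : ℝ) ^ (6 * Q) := by
      have h2 : (1 + (lm : ℝ)) ^ Q ≤ ((ℓ : ℝ) ^ 2) ^ Q := by gcongr
      calc W ^ 3 = (K₁ + 1) ^ 3 * ((1 + (lm : ℝ)) ^ Q) ^ 3 := by rw [hW]; ring
        _ ≤ (K₁ + 1) ^ 3 * (((ℓ : ℝ) ^ 2) ^ Q) ^ 3 := by gcongr
        _ = _ := by rw [← pow_mul, ← pow_mul]; congr 2; ring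
    have h2 : 33 * (K₁ + 1) ^ 3 ≤ (A : ℝ) := by
      have h3 := Nat.le_ceil (33 * (K₁ + 1) ^ 3)
      have h4 : ((⌈33 * (K₁ + 1) ^ 3⌉₊ : ℕ) : ℝ) ≤ A := by
        have : ⌈33 * (K₁ + 1) ^ 3⌉₊ ≤ A := by omega
        exact_mod_cast this
      linarith
    have h3 : (0 : ℝ) ≤ (ℓ : ℝ) ^ (6 * Q) := by positivity
    rw [hE]
    push_cast
    nlinarith
  have hlamE : lam fs M ≤ E := by
    have h1 : (lam fs M : ℝ) ≤ E := by
      have h2 : W ≤ W ^ 3 := le_self_pow₀ hW1 (by norm_num)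
      linarith
    exact_mod_cast h1
  have hcT := cnt_Tf M
  have hl0 : (0 : ℝ) ≤ lam fs M := by positivity
  have hcT2 : (cnt Tf M : ℝ) ≤ 33 * W ^ 2 := by
    refine hcT.trans ?_
    gcongr
  have hcTE : cnt Tf M ≤ E := by
    have h1 : (cnt Tf M : ℝ) ≤ E := by
      have h2 : W ^ 2 ≤ W ^ 3 := pow_le_pow_right₀ hW1 (by norm_num)
      linarith
    exact_mod_cast h1
  have hcTc : cnt (Tf * cf) M ≤ E := by
    have h1 : (cnt (Tf * cf) M : ℝ) ≤ cnt Tf M * lam fs M := by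
      have := cnt_mul Tf cf M
      rw [cnt_cf] at this
      exact_mod_cast this
    have h2 : (cnt Tf M : ℝ) * lam fs M ≤ 33 * W ^ 2 * W := by
      apply mul_le_mul hcT2 (by linarith) hl0 (by positivity)
    have h3 : (cnt (Tf * cf) M : ℝ) ≤ E := by
      have : 33 * W ^ 2 * W = 33 * W ^ 3 := by ring
      linarith
    exact_mod_cast h3
  have hXBE : XB m M + m + 1 ≤ E + 1 := by
    have h1 : (XB m M : ℝ) ≤ K₀ * (ℓ : ℝ) ^ (6 * Q) := by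
      refine hXB.trans ?_
      have h2 : (1 + (lm : ℝ)) ^ Q ≤ (ℓ : ℝ) ^ (6 * Q) := by
        have h3 : (1 : ℝ) ≤ ℓ := by exact_mod_cast hℓ1
        calc (1 + (lm : ℝ)) ^ Q ≤ ((ℓ : ℝ) ^ 2) ^ Q := by gcongr
          _ = (ℓ : ℝ) ^ (2 * Q) := by rw [← pow_mul]
          _ ≤ _ := pow_le_pow_right₀ h3 (by omega)
      gcongr
    have h2 : (XB m M : ℝ) ≤ ((⌈K₀⌉₊ * ℓ ^ (6 * Q) : ℕ) : ℝ) := by
      refine h1.trans ?_
      push_cast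
      have := Nat.le_ceil K₀
      gcongr
    have h3 : XB m M ≤ ⌈K₀⌉₊ * ℓ ^ (6 * Q) := by exact_mod_cast h2
    have h4 : (⌈K₀⌉₊ + m) * ℓ ^ (6 * Q) ≤ E := by
      rw [hE]; exact Nat.mul_le_mul_right _ (by omega)
    rw [add_mul] at h4
    have h5 : m ≤ m * ℓ ^ (6 * Q) := Nat.le_mul_of_pos_right _ hpow1
    omega
  have hE2 : 2 ≤ E := by
    calc 2 ≤ A * 1 := by omega
      _ ≤ E := Nat.mul_le_mul_left _ hpow1
  have hE2ℓ : 2 * ℓ ≤ E := Nat.mul_le_mul (by omega) hℓpow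
  have hyp := hyp_Gd hlamE hcTE hcTc
  -- the size of `E`
  have hME : (M : ℤ) ≤ 3 ^ E := by
    have h1 : M < 3 ^ (ℓ + 1) := by
      rw [hℓ]; exact Nat.lt_pow_succ_log_self (by norm_num) M
    have h2 : 3 ^ (ℓ + 1) ≤ 3 ^ E := Nat.pow_le_pow_right (by norm_num) (by omega)
    exact_mod_cast (h1.le.trans h2)
  have hh' : 1000 * (E : ℤ) ^ 4 ≤ 3 ^ h := by exact_mod_cast hh
  have hXN : 27 * (3 ^ (h * K) * (2 * ((E + 1 : ℕ) : ℤ))) ≤ (M : ℤ) := by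
    have h1 : 27 * (3 ^ (h * K) * (2 * (E + 1))) ≤ M := by
      have h2 : 27 ≤ 3 ^ h := by
        have : 1 ≤ E ^ 4 := Nat.one_le_pow _ _ (by omega)
        omega
      have h3 : 2 * (E + 1) ≤ 3 ^ h := by
        have : E ≤ E ^ 4 := Nat.le_self_pow (by norm_num) E
        omega
      calc 27 * (3 ^ (h * K) * (2 * (E + 1))) ≤ 3 ^ h * (3 ^ (h * K) * 3 ^ h) :=
            Nat.mul_le_mul h2 (Nat.mul_le_mul_left _ h3)
        _ = 3 ^ (h * (K + 2)) := by rw [← pow_add, ← pow_add]; congr 1; ring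
        _ ≤ 3 ^ ℓ := Nat.pow_le_pow_right (by norm_num) hhK
        _ ≤ M := hM3
    exact_mod_cast h1
  have hcore := core (D := 2 * ((E + 1 : ℕ) : ℤ)) hyp (by omega) hME (by push_cast; omega) hh' hK hXN
  have hV := V_le_brk (R := E + 1) hm hXBE (by omega)
  have hMbrk : brk m M ≤ lm := brk_mono m (by omega)
  exact hcore.trans (Nat.mul_le_mul_left _ (hV.trans hMbrk))

end DChg
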